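import Pool.Agent.Lib.MP_8817b2_lc.Comb

/-! The points of the design and the asymptotic signs of their determinants. -/

namespace Pool.Agent.Lib.MP_8817b2_lc

open Filter Topology

/-- `f t` is asymptotic to `c * t ^ e`. -/
def As (f : ℝ → ℝ) (e : ℤ) (c : ℝ) : Prop := Tendsto (fun t => f t * t ^ (-e)) atTop (𝓝 c)

section
variable {f g : ℝ → ℝ} {e e' : ℤ} {c c' : ℝ}

theorem as_zero : As f 0 c ↔ Tendsto f atTop (𝓝 c) := by simp [As]

theorem As.zpow (e : ℤ) : As (fun t => t ^ e) e 1 :=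
  tendsto_const_nhds.congr' ((eventually_gt_atTop 0).mono fun t ht => by
    simp [zpow_neg, mul_inv_cancel₀ (zpow_ne_zero e ht.ne')])

theorem As.mul (h : As f e c) (h' : As g e' c') : As (fun t => f t * g t) (e + e') (c * c') :=
  (Tendsto.mul h h').congr' ((eventually_gt_atTop 0).mono fun t ht => by
    simp only [neg_add, zpow_add₀ ht.ne']; ring)

theorem As.add (h : As f e c) (h' : As g e c') : As (fun t => f t + g t) e (c + c') :=
  (Tendsto.add h h').congr fun t => by ring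

theorem As.lower (h : As f e c) (he : e < e') : As f e' 0 := by
  have := Tendsto.mul h (tendsto_zpow_atTop_zero (𝕜 := ℝ) (sub_neg.2 he))
  rw [mul_zero] at this
  exact this.congr' ((eventually_gt_atTop 0).mono fun t ht => by
    simp only [mul_assoc, ← zpow_add₀ ht.ne']; congr 2; ring)

theorem As.pos (h : As f e c) (hc : 0 < c) : ∀ᶠ t in atTop, 0 < f t := by
  filter_upwards [h.eventually (lt_mem_nhds hc), eventually_gt_atTop 0] with t h1 h2
  exact (mul_pos_iff_of_pos_right (zpow_pos h2 _)).1 h1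

end

/-- `f` has order at most `e`, and exactly `e` with sign `s` if `s` is not zero. -/
def Sp (f : ℝ → ℝ) (e s : ℤ) : Prop := ∃ c, As f e c ∧ (s ≠ 0 → 0 < (s : ℝ) * c)

theorem Sp.mul {f g : ℝ → ℝ} {e e' s s' : ℤ} (h : Sp f e s) (h' : Sp g e' s') :
    Sp (fun t => f t * g t) (e + e') (s * s') := by
  obtain ⟨c, h1, h2⟩ := h
  obtain ⟨c', h1', h2'⟩ := h'
  refine ⟨_, h1.mul h1', fun h => ?_⟩
  have := mul_pos (h2 (left_ne_zero_of_mul h)) (h2' (right_ne_zero_of_mul h))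
  push_cast; linarith

theorem Sp.of_eq {f g : ℝ → ℝ} {e e' s s' : ℤ} (h : Sp f e s) (h1 : ∀ t > 0, g t = f t)
    (h2 : e' = e) (h3 : s' = s) : Sp g e' s' := by
  obtain ⟨c, a1, a2⟩ := h
  subst h2 h3
  exact ⟨c, a1.congr' ((eventually_gt_atTop 0).mono fun t ht => by simp only [h1 t ht]), a2⟩

theorem Sp.zpow (e : ℤ) : Sp (fun t => t ^ e) e 1 := ⟨1, As.zpow e, by simp⟩

theorem Sp.const {c : ℝ} {s : ℤ} (h : s ≠ 0 → 0 < (s : ℝ) * c) : Sp (fun _ => c) 0 s :=
  ⟨c, as_zero.2 tendsto_const_nhds, h⟩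

theorem sp_dom {f : Tb → ℝ → ℝ} {E s : Tb → ℤ} (h : ∀ q ∈ tab, Sp (f q) (E q) (s q)) {p : Tb}
    (hp : p ∈ tab) (hd : ∀ q ∈ tab, q = p ∨ E q < E p) (hs : s p ≠ 0) :
    ∀ᶠ t in atTop, 0 < (s p : ℝ) * (tab.map fun q => f q t).sum := by
  obtain ⟨c, h1, h2⟩ := h p hp
  have h3 : As (fun t => ∑ q ∈ tab.toFinset, f q t) (E p)
      (∑ q ∈ tab.toFinset, if q = p then c else 0) := by
    simp only [As, Finset.sum_mul]
    refine tendsto_finsetSum _ fun q hq => ?_
    split_ifs with e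
    · exact e ▸ h1
    · obtain ⟨c', h4, -⟩ := h q (List.mem_toFinset.1 hq)
      exact h4.lower ((hd q (List.mem_toFinset.1 hq)).resolve_left e)
  rw [Finset.sum_ite_eq', if_pos (List.mem_toFinset.2 hp)] at h3
  simp only [← List.sum_toFinset _ (by decide : tab.Nodup)]
  exact ((as_zero.2 tendsto_const_nhds).mul h3).pos (h2 hs)

abbrev V3 : Type := ℝ × ℝ × ℝ

def det3 (a b c : V3) : ℝ := a.1 * (b.2.1 * c.2.2 - b.2.2 * c.2.1) -
  a.2.1 * (b.1 * c.2.2 - b.2.2 * c.1) + a.2.2 * (b.1 * c.2.1 - b.2.1 * c.1)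

def sq3 (a : V3) : ℝ := a.1 ^ 2 + a.2.1 ^ 2 + a.2.2 ^ 2

/-- The determinant of five lifted points. -/
def D5 (p : ℕ → V3) (K : ℕ → ℝ) (l : List ℕ) : ℝ := (tab.map fun q => (q.2.2.2.2.2 : ℝ) *
  K (l.getD q.2.1 0) * det3 (p (l.getD q.2.2.1 0)) (p (l.getD q.2.2.2.1 0))
    (p (l.getD q.2.2.2.2.1 0))).sum

/-- Real parameters of a realization. -/
structure Par (D : Dat) where
  M : ℤ
  τ : ℕ → ℝ
  β : ℕ → ℝ
  ax : ℕ → ℝ
  ay : ℕ → ℝ
  hM : 0 < M
  pos : ∀ i, 0 < τ i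
  mono : ∀ i j, i < j → j < D.n → τ i < τ j
  hc : ∀ x, D.c x < 2 * D.n
  hk : ∀ x y, D.c x < D.c y → D.k x < D.k y
  hs : ∀ a i, D.A a = true → D.sd a i ≠ 0 →
    0 < (D.sd a i : ℝ) * (β i - (ax a * 2 + ay a * (τ i - 1 / τ i)))

namespace Par
variable {D : Dat} (P : Par D)

noncomputable def T0 (c : ℕ) : ℝ := if c < D.n then -1 / P.τ c else P.τ (c - D.n)

noncomputable def tt (x : ℕ) (t : ℝ) : ℝ := P.T0 (D.c x) +
  (if D.c x < D.n then 0 else -P.τ (D.c x - D.n) * P.β (D.c x - D.n)) * t ^ (-4 * P.M) +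
  D.k x * t ^ (-10 * P.M)

noncomputable def nv (x : ℕ) (t : ℝ) : V3 := bif D.A x then (P.ax x, P.ay x, 1) else
  (1 - P.tt x t ^ 2, 2 * P.tt x t, (1 + P.tt x t ^ 2) * t ^ (-4 * P.M))

theorem lim4 : Tendsto (fun t : ℝ => t ^ (-4 * P.M)) atTop (𝓝 0) :=
  tendsto_zpow_atTop_zero (by linarith [P.hM])

theorem lim_tt (x : ℕ) : Tendsto (P.tt x) atTop (𝓝 (P.T0 (D.c x))) := by
  have := (tendsto_const_nhds (x := P.T0 (D.c x)).add (P.lim4.const_mul
    (if D.c x < D.n then 0 else -P.τ (D.c x - D.n) * P.β (D.c x - D.n)))).add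
    ((tendsto_zpow_atTop_zero (𝕜 := ℝ) (n := -10 * P.M) (by linarith [P.hM])).const_mul
      (D.k x : ℝ))
  simp only [mul_zero, add_zero] at this
  exact this

theorem T0_lt {c c' : ℕ} (h : c < c') (h' : c' < 2 * D.n) : P.T0 c < P.T0 c' := by
  unfold T0
  split_ifs with h1 h2 h2
  · rw [neg_div, neg_div, neg_lt_neg_iff]
    exact one_div_lt_one_div_of_lt (P.pos c) (P.mono _ _ h h2)
  · exact (div_neg_of_neg_of_pos (by norm_num) (P.pos c)).trans (P.pos _)
  · omega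
  · exact P.mono _ _ (by omega) (by omega)

theorem sp_diff {x y : ℕ} (h : D.k x ≠ D.k y) :
    Sp (fun t => P.tt y t - P.tt x t) (-10 * P.M * D.nr x y) (D.s2 x y) := by
  unfold Dat.nr Dat.s2
  by_cases h1 : D.c x = D.c y
  · refine ((Sp.const (c := D.k y - D.k x) (s := if D.k x < D.k y then 1 else -1) fun _ => ?_).mul
      (Sp.zpow (-10 * P.M))).of_eq (fun t _ => by simp only [tt, h1]; ring) (by simp [h1]) (by simp)
    split_ifs with h2
    · simpa using h2
    · simpa using lt_of_le_of_ne (not_lt.1 h2) h.symm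
  · refine ⟨_, by simpa [h1, as_zero] using (P.lim_tt y).sub (P.lim_tt x), fun _ => ?_⟩
    rcases lt_or_gt_of_ne h1 with h2 | h2
    · simpa [P.hk _ _ h2] using P.T0_lt h2 (P.hc _)
    · simpa [(P.hk _ _ h2).not_gt] using P.T0_lt h2 (P.hc _)

noncomputable def br (a x y : ℕ) (t : ℝ) : ℝ := 1 + P.tt x t * P.tt y t - t ^ (-4 * P.M) *
  (P.ax a * (1 - P.tt x t * P.tt y t) + P.ay a * (P.tt x t + P.tt y t))

theorem sp_anti {a x y : ℕ} (ha : D.A a = true) (h : D.c x + D.n = D.c y) :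
    Sp (P.br a x y) (-4 * P.M) (D.sd a (D.c x)) := by
  have h1 : D.c x < D.n := by have := P.hc y; omega
  have h2 : ¬ D.c y < D.n := by omega
  have h3 : D.c y - D.n = D.c x := by omega
  have h4 := (P.pos (D.c x)).ne'
  have hx := P.lim_tt x
  have hy := P.lim_tt y
  simp only [T0, h1, h2, h3, if_true, if_false] at hx hy
  have a1 := (As.zpow (-4 * P.M)).mul (as_zero.2 ((tendsto_const_nhds (x := P.β (D.c x))).sub
    ((((tendsto_const_nhds (x := 1)).sub (hx.mul hy)).const_mul (P.ax a)).add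
      ((hx.add hy).const_mul (P.ay a)))))
  have a2 := ((As.zpow (-10 * P.M)).mul (as_zero.2 ((hy.const_mul (D.k x : ℝ)).sub
    (tendsto_const_nhds (x := (D.k y : ℝ) / P.τ (D.c x)))))).lower
      (e' := -4 * P.M + 0) (by linarith [P.hM])
  refine Sp.of_eq ⟨_, a1.add a2, fun h => ?_⟩ (fun t _ => ?_) (by ring) rfl
  · convert P.hs a _ ha h using 2
    field_simp; ring
  · have e1 : P.tt x t = -1 / P.τ (D.c x) + D.k x * t ^ (-10 * P.M) := by simp [tt, T0, h1]
    have e2 : P.tt y t = P.τ (D.c x) - P.τ (D.c x) * P.β (D.c x) * t ^ (-4 * P.M) +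
        D.k y * t ^ (-10 * P.M) := by simp [tt, T0, h2, h3]; ring
    have e3 : 1 + P.tt x t * P.tt y t = P.β (D.c x) * t ^ (-4 * P.M) +
        t ^ (-10 * P.M) * (D.k x * P.tt y t - D.k y / P.τ (D.c x)) := by
      rw [e1, add_mul]
      nth_rewrite 1 [e2]
      field_simp; ring
    rw [br, e3]; ring

theorem sp_far {a x y : ℕ} (h1 : D.c x + D.n ≠ D.c y) (h2 : D.c y + D.n ≠ D.c x) :
    Sp (P.br a x y) 0 (if D.c x < D.c y + D.n ∧ D.c y < D.c x + D.n then 1 else -1) := by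
  have hx := P.lim_tt x
  have hy := P.lim_tt y
  refine ⟨_, as_zero.2 (((tendsto_const_nhds (x := 1)).add (hx.mul hy)).sub (P.lim4.mul
    ((((tendsto_const_nhds (x := 1)).sub (hx.mul hy)).const_mul (P.ax a)).add
      ((hx.add hy).const_mul (P.ay a))))), fun _ => ?_⟩
  have key : ∀ c c', c < D.n → ¬ c' < D.n → c' < 2 * D.n → c + D.n ≠ c' →
      0 < ((if c' < c + D.n then 1 else -1 : ℤ) : ℝ) * (1 + -1 / P.τ c * P.τ (c' - D.n)) := by
    intro c c' a1 a2 a3 a4
    have := P.pos c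
    rw [show 1 + -1 / P.τ c * P.τ (c' - D.n) = (P.τ c - P.τ (c' - D.n)) / P.τ c by
      field_simp; ring]
    split_ifs with a5
    · simpa [this] using P.mono _ _ (by omega : c' - D.n < c) a1
    · simpa using div_neg_of_neg_of_pos (sub_neg.2 (P.mono c (c' - D.n) (by omega) (by omega))) this
  have b1 := P.hc x
  have b2 := P.hc y
  rw [zero_mul, sub_zero]
  unfold T0
  by_cases a1 : D.c x < D.n <;> by_cases a2 : D.c y < D.n <;> simp only [a1, a2, if_true, if_false]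
  · have := mul_pos_of_neg_of_neg (div_neg_of_neg_of_pos (by norm_num : (-1 : ℝ) < 0)
      (P.pos (D.c x))) (div_neg_of_neg_of_pos (by norm_num : (-1 : ℝ) < 0) (P.pos (D.c y)))
    rw [if_pos (by omega)]; push_cast; linarith
  · simpa only [show D.c x < D.c y + D.n by omega, true_and] using key _ _ a1 a2 b2 h1
  · simpa only [show D.c y < D.c x + D.n by omega, and_true, mul_comm (P.τ _)]
      using key _ _ a2 a1 b1 h2
  · have := mul_pos (P.pos (D.c x - D.n)) (P.pos (D.c y - D.n))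
    rw [if_pos (by omega)]; push_cast; linarith

theorem sp_A {a x y : ℕ} (ha : D.A a = true) (hx : D.A x = false) (hy : D.A y = false)
    (h : D.k x ≠ D.k y) :
    Sp (fun t => det3 (P.nv x t) (P.nv y t) (P.nv a t)) (P.M * D.vA x y) (D.sA a x y) := by
  have e : ∀ t > 0, det3 (P.nv x t) (P.nv y t) (P.nv a t) =
      2 * (P.tt y t - P.tt x t) * P.br a x y t := fun t _ => by
    simp only [nv, ha, hx, hy, cond_true, cond_false, det3, br]; ring
  have h0 := (Sp.const (c := 2) (s := 1) (by simp)).mul (P.sp_diff h)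
  have b1 := P.hc x
  unfold Dat.vA Dat.sA
  by_cases a1 : D.c x + D.n = D.c y
  · exact (h0.mul (P.sp_anti ha a1)).of_eq e
      (by simp [Dat.nr, a1, show D.c x ≠ D.c y by omega]; ring) (by simp [a1])
  by_cases a2 : D.c y + D.n = D.c x
  · exact (h0.mul (P.sp_anti ha a2)).of_eq (fun t ht => by rw [e t ht]; simp only [br]; ring)
      (by simp [Dat.nr, a2, show D.c x ≠ D.c y by omega]; ring) (by simp [a1, a2])
  · exact (h0.mul (P.sp_far a1 a2)).of_eq e
      (by by_cases a3 : D.c x = D.c y <;> simp [Dat.nr, a1, a2, a3]; ring) (by simp [a1, a2])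

theorem lim_nv (x : ℕ) : ∃ v, Tendsto (P.nv x) atTop (𝓝 v) ∧ 0 < sq3 v := by
  unfold nv
  cases D.A x
  · have hx := P.lim_tt x
    refine ⟨_, (tendsto_const_nhds.sub (hx.pow 2)).prodMk_nhds ((hx.const_mul 2).prodMk_nhds
      ((tendsto_const_nhds.add (hx.pow 2)).mul P.lim4)), ?_⟩
    simp only [sq3]
    nlinarith [sq_nonneg (P.T0 (D.c x)), sq_nonneg (P.T0 (D.c x) ^ 2)]
  · exact ⟨_, tendsto_const_nhds, by simp only [sq3]; positivity⟩

theorem sp_det {x y z : ℕ} (h1 : D.k x ≠ D.k y) (h2 : D.k x ≠ D.k z) (h3 : D.k y ≠ D.k z) :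
    Sp (fun t => det3 (P.nv x t) (P.nv y t) (P.nv z t)) (P.M * D.v3 x y z) (D.s3 x y z) := by
  have h0 : Sp (fun t => det3 (P.nv x t) (P.nv y t) (P.nv z t)) (P.M * 0) 0 := by
    obtain ⟨a, ha, -⟩ := P.lim_nv x
    obtain ⟨b, hb, -⟩ := P.lim_nv y
    obtain ⟨c, hc, -⟩ := P.lim_nv z
    have : Continuous fun w : V3 × V3 × V3 => det3 w.1 w.2.1 w.2.2 := by unfold det3; fun_prop
    exact ⟨_, by
      rw [mul_zero, as_zero]
      exact (this.tendsto (a, b, c)).comp (ha.prodMk_nhds (hb.prodMk_nhds hc)), by simp⟩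
  unfold Dat.v3 Dat.s3
  cases hz : D.A z <;> cases hx : D.A x <;> cases hy : D.A y <;>
    simp only [cond_true, cond_false, Bool.or_true, Bool.or_false, Bool.or_self] <;>
    try exact h0
  · refine (((((Sp.const (c := 4) (s := 1) (by simp)).mul (Sp.zpow (-4 * P.M))).mul
      (P.sp_diff h1)).mul (P.sp_diff h2)).mul (P.sp_diff h3)).of_eq (fun t _ => ?_) (by ring)
      (by ring)
    simp only [nv, hz, hx, hy, cond_false, det3]; ring
  · exact (P.sp_A hy hz hx h2.symm).of_eq (fun t _ => by simp only [det3]; ring) rfl rfl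
  · exact (P.sp_A hx hy hz h3).of_eq (fun t _ => by simp only [det3]; ring) rfl rfl
  · exact P.sp_A hz hx hy h1

theorem sp_sq (x : ℕ) : Sp (fun t => sq3 (P.nv x t)) 0 1 := by
  obtain ⟨a, ha, h⟩ := P.lim_nv x
  have : Continuous sq3 := by unfold sq3; fun_prop
  exact ⟨_, as_zero.2 ((this.tendsto a).comp ha), by simpa using h⟩

end Par

theorem tab_perm : ∀ q ∈ tab, ∀ g : ℕ → ℤ, g q.1 + g q.2.1 + g q.2.2.1 + g q.2.2.2.1 +
    g q.2.2.2.2.1 = g 0 + g 1 + g 2 + g 3 + g 4 := by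
  intro q hq g
  simp only [tab, List.mem_cons, List.not_mem_nil, or_false] at hq
  rcases hq with h | h | h | h | h | h | h | h | h | h | h | h | h | h | h | h | h | h | h | h <;>
    subst h <;> dsimp only <;> omega

theorem sg_eventually {I : Inst} (P : Par (dat I)) (hM : P.M = 2 ^ (NV I + 2)) {l : List ℕ}
    (hl : l.length = 5) (hd : l.Nodup) (hN : ∀ x ∈ l, x ≤ NV I) {s : ℤ} (hs : s ≠ 0)
    (h : Sg I l s = true) : ∀ᶠ t in atTop, 0 < (s : ℝ) * D5 (fun x => t ^ eG I x • P.nv x t)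
      (fun x => sq3 (t ^ eG I x • P.nv x t)) l := by
  obtain ⟨p, hp, h1, rfl⟩ := sg_iff.1 h
  refine sp_dom (s := fun q => q.2.2.2.2.2 * at3 (dat I).s3 l q)
    (E := fun q => ex (eG I) (vG I) l q + (eG I (l.getD 0 0) + eG I (l.getD 1 0) +
      eG I (l.getD 2 0) + eG I (l.getD 3 0) + eG I (l.getD 4 0))) (fun q hq => ?_) hp
    (fun q hq => (h1 q hq).imp_right fun h => by linarith) hs
  have tq := tab_spec q hq
  have hne := tq.2.2.2.2.2.1
  simp only [List.nodup_cons, List.mem_cons, not_or] at hne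
  have hk : ∀ r r', r < 5 → r' < 5 → r ≠ r' → (dat I).k (l.getD r 0) ≠ (dat I).k (l.getD r' 0) :=
    fun r r' a1 a2 a3 e => a3 (getD_inj hl hd a1 a2 (key_inj (getD_le hN _) (getD_le hN _) e))
  refine ((((Sp.const (c := q.2.2.2.2.2) (s := q.2.2.2.2.2) fun h => mul_self_pos.2
    (by exact_mod_cast h)).mul ((Sp.zpow (eG I (l.getD q.2.1 0))).mul
    (Sp.zpow (eG I (l.getD q.2.1 0))))).mul (P.sp_sq (l.getD q.2.1 0))).mul
    ((((Sp.zpow (eG I (l.getD q.2.2.1 0))).mul (Sp.zpow (eG I (l.getD q.2.2.2.1 0)))).mul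
    (Sp.zpow (eG I (l.getD q.2.2.2.2.1 0)))).mul (P.sp_det
      (hk _ _ tq.2.2.1 tq.2.2.2.1 (by omega)) (hk _ _ tq.2.2.1 tq.2.2.2.2.1 (by omega))
      (hk _ _ tq.2.2.2.1 tq.2.2.2.2.1 (by omega))))).of_eq (fun t _ => ?_) ?_ (by simp [at3])
  · simp only [sq3, det3, Prod.smul_fst, Prod.smul_snd, smul_eq_mul]; ring
  · have := tab_perm q hq fun r => eG I (l.getD r 0)
    simp only [ex, at3, vG, hM]
    linarith

theorem exists_par {I : Inst} (hw : WF I.1 I.2) (hn : 0 < I.1) (h : PO I.1 I.2) :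
    ∃ P : Par (dat I), P.M = 2 ^ (NV I + 2) := by
  obtain ⟨m, b, h1, h2⟩ := h
  let τ : ℕ → ℝ := fun i => (m i + √(m i ^ 2 + 4)) / 2
  have t1 : ∀ i, 0 < τ i ∧ τ i - 1 / τ i = m i := fun i => by
    have a1 := Real.sq_sqrt (show 0 ≤ m i ^ 2 + 4 by positivity)
    have a2 : |m i| < √(m i ^ 2 + 4) := Real.lt_sqrt_of_sq_lt (by rw [sq_abs]; linarith)
    have a3 : 0 < τ i := by simp only [τ]; linarith [neg_abs_le (m i)]
    refine ⟨a3, ?_⟩
    field_simp
    simp only [τ]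
    nlinarith
  let y : Test → ℝ := fun t => (b t.2.2.1 - b t.1) / (m t.2.2.1 - m t.1)
  refine ⟨⟨2 ^ (NV I + 2), τ, b, fun a => (b (tst I a).1 + b (tst I a).2.1 -
    (m (tst I a).1 + m (tst I a).2.1) * y (tst I a)) / 4, fun a => y (tst I a), by positivity,
    fun i => (t1 i).1, fun i j hij hj => ?_, cl_lt hw hn, fun x y => key_lt,
    fun a i ha hs => ?_⟩, rfl⟩
  · by_contra h
    have := one_div_le_one_div_of_le (t1 j).1 (not_lt.1 h)
    linarith [h1 i j hij hj, (t1 i).2, (t1 j).2]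
  · obtain ⟨k, hk, rfl⟩ := A_iff.1 ha
    simp only [dat, (block_spec hk (τ := 8) (by omega)).2.2.1, (t1 i).2] at hs ⊢
    have a1 := hw _ (List.getElem_mem hk)
    have a2 := h2 _ (List.getElem_mem hk)
    generalize I.2[k] = t at *
    obtain ⟨i0, j0, l0, s⟩ := t
    have a3 : 0 < m l0 - m i0 := sub_pos.2 (h1 _ _ (a1.1.trans a1.2.1) a1.2.2)
    have e : ori m b i0 j0 l0 / (2 * (m l0 - m i0)) =
        (b i0 - b j0 - (m i0 - m j0) * y (i0, j0, l0, s)) / 2 := by
      simp only [y, ori]; field_simp; ring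
    have e' : b l0 - b i0 = (m l0 - m i0) * y (i0, j0, l0, s) := by
      simp only [y]; field_simp
    have a4 : 0 < ((bif s then 1 else -1 : ℤ) : ℝ) * (ori m b i0 j0 l0 / (2 * (m l0 - m i0))) := by
      cases s
      · simpa using div_neg_of_neg_of_pos a2 (by linarith)
      · simpa using div_pos a2 (by linarith)
    rw [e] at a4
    simp only [sdT] at hs ⊢
    split_ifs at hs ⊢ with b1 b2 b3
    · subst b1; push_cast; linarith
    · subst b2; push_cast; linarith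
    · subst b3
      convert a4 using 2
      · simp
      · linarith
    · simp at hs

theorem realize {I : Inst} (hw : WF I.1 I.2) (hn : 0 < I.1) (h : PO I.1 I.2) :
    ∃ p : ℕ → V3, ∀ l ∈ quads (NV I + 1), ∀ y ≤ NV I, y ∉ l → ∀ s ∈ [(1 : ℤ), -1],
      Sg I (l ++ [y]) s = true → 0 < (s : ℝ) * D5 p (fun x => sq3 (p x)) (l ++ [y]) := by
  obtain ⟨P, hM⟩ := exists_par hw hn h
  refine ⟨_, Exists.choose_spec (Eventually.exists (f := atTop) (p := fun t : ℝ =>
    ∀ l ∈ quads (NV I + 1), ∀ y ≤ NV I, y ∉ l → ∀ s ∈ [(1 : ℤ), -1],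
      Sg I (l ++ [y]) s = true → 0 < (s : ℝ) * D5 (fun x => t ^ eG I x • P.nv x t)
        (fun x => sq3 (t ^ eG I x • P.nv x t)) (l ++ [y])) ?_)⟩
  refine (eventually_all_finite (List.finite_toSet _)).2 fun l hl =>
    (eventually_all_finite (Set.finite_Iic _)).2 fun y hy => eventually_imp_distrib_left.2
    fun hy' => (eventually_all_finite (List.finite_toSet _)).2 fun s hs =>
    eventually_imp_distrib_left.2 fun h => ?_
  obtain ⟨a1, a2, a3⟩ := mem_quads.1 hl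
  refine sg_eventually P hM (by simp [a2]) (List.nodup_append.2 ⟨a1, by simp, fun a ha b hb => ?_⟩)
    (List.forall_mem_append.2 ⟨fun x hx => Nat.lt_succ_iff.1 (a3 x hx), by simpa using hy⟩) ?_ h
  · rintro rfl
    exact hy' (List.mem_singleton.1 hb ▸ ha)
  · rintro rfl
    simp at hs

end Pool.Agent.Lib.MP_8817b2_lc
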