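import Pool.Agent.Lib.MP_8817b2_lc.Asym

/-! Any realization of the cells of the design solves the orientation problem. -/

namespace Pool.Agent.Lib.MP_8817b2_lc

variable {W : Type} [AddCommGroup W] [Module ℝ W] {ev : ℕ → W →ₗ[ℝ] ℝ} {N : ℕ}

/-- `l` is cut out by a nonnegative equation, which is unique up to a factor. -/
def Fc (ev : ℕ → W →ₗ[ℝ] ℝ) (N : ℕ) (l : List ℕ) : Prop :=
  (∃ w, (∀ x ∈ l, ev x w = 0) ∧ ∀ y < N, y ∉ l → 0 < ev y w) ∧
    ∀ y < N, y ∉ l → ∀ w, (∀ x ∈ l, ev x w = 0) → ev y w = 0 → ∀ z < N, ev z w = 0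

theorem Fc.perm {l l' : List ℕ} (h : Fc ev N l) (e : ∀ x, x ∈ l' ↔ x ∈ l) : Fc ev N l' := by
  simpa only [Fc, e] using h

theorem link2 {p q L L' a u : ℕ} (h1 : Fc ev N [p, q, L, L']) (h2 : Fc ev N [p, q, L, a])
    (h3 : Fc ev N [p, q, L', a]) (hd : [p, q, L, L', a, u].Nodup)
    (hN : L < N ∧ L' < N ∧ a < N ∧ u < N) {g : W} (gp : ev p g = 0) (gq : ev q g = 0)
    (gu : ev u g = 0) (gL : 0 < ev L g) (gL' : 0 < ev L' g) : ev a g < 0 := by
  simp only [List.nodup_cons, List.mem_cons, not_or, List.not_mem_nil] at hd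
  obtain ⟨⟨w1, a1, b1⟩, c1⟩ := h1
  obtain ⟨⟨w2, a2, b2⟩, -⟩ := h2
  obtain ⟨⟨w3, a3, b3⟩, -⟩ := h3
  simp only [List.forall_mem_cons] at a1 a2 a3
  have d1 := b1 a hN.2.2.1 (by simp; omega)
  have d2 := b2 L' hN.2.1 (by simp; omega)
  have d3 := b3 L hN.1 (by simp; omega)
  have e1 := b1 u hN.2.2.2 (by simp; omega)
  have e2 := mul_pos (div_pos gL' d2) (b2 u hN.2.2.2 (by simp; omega))
  have e3 := mul_pos (div_pos gL d3) (b3 u hN.2.2.2 (by simp; omega))
  have := c1 a hN.2.2.1 (by simp; omega)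
    (g - (ev a g / ev a w1) • w1 - (ev L' g / ev L' w2) • w2 - (ev L g / ev L w3) • w3)
    (by simp [*, d2.ne', d3.ne']) (by simp [*, d1.ne']) u hN.2.2.2
  simp only [map_sub, map_smul, smul_eq_mul, gu] at this
  by_contra h
  have := mul_nonneg (div_nonneg (not_lt.1 h) d1.le) e1.le
  linarith

theorem link1 {p q L L' a R : ℕ} (h2 : Fc ev N [p, q, L, a]) (h3 : Fc ev N [p, q, L', a])
    (h4 : Fc ev N [p, q, L', R]) (hd : [p, q, L, L', a, R].Nodup)
    (hN : L < N ∧ L' < N ∧ a < N ∧ R < N) {g : W} (gp : ev p g = 0) (gq : ev q g = 0)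
    (gR : ev R g < 0) (gL : 0 < ev L g) (gL' : 0 < ev L' g) : 0 < ev a g := by
  simp only [List.nodup_cons, List.mem_cons, not_or, List.not_mem_nil] at hd
  obtain ⟨⟨w2, a2, b2⟩, c2⟩ := h2
  obtain ⟨⟨w3, a3, b3⟩, -⟩ := h3
  obtain ⟨⟨w4, a4, b4⟩, -⟩ := h4
  simp only [List.forall_mem_cons] at a2 a3 a4
  have d2 := b2 L' hN.2.1 (by simp; omega)
  have d3 := b3 L hN.1 (by simp; omega)
  have d4 := b4 a hN.2.2.1 (by simp; omega)
  have e2 := mul_pos (div_pos gL' d2) (b2 R hN.2.2.2 (by simp; omega))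
  have e3 := b3 R hN.2.2.2 (by simp; omega)
  have e4 := b4 L hN.1 (by simp; omega)
  have := c2 L' hN.2.1 (by simp; omega) (g - (ev L' g / ev L' w2) • w2 -
    ((ev L g - ev a g / ev a w4 * ev L w4) / ev L w3) • w3 - (ev a g / ev a w4) • w4)
    (by simp [*, d3.ne', d4.ne']) (by simp [*, d2.ne']) R hN.2.2.2
  simp only [map_sub, map_smul, smul_eq_mul, a4, mul_zero] at this
  by_contra h
  have h5 := mul_nonpos_of_nonpos_of_nonneg (div_nonpos_of_nonpos_of_nonneg (not_lt.1 h) d4.le) e4.le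
  have := mul_pos (div_pos (show 0 < ev L g - ev a g / ev a w4 * ev L w4 by linarith) d3) e3
  linarith

theorem det3_cyc (a b c : V3) : det3 a b c = det3 b c a := by unfold det3; ring
theorem cyc1 {a b c : V3} (h : 0 < det3 a b c) : 0 < det3 b c a := det3_cyc a b c ▸ h
theorem cyc2 {a b c : V3} (h : 0 < det3 a b c) : 0 < det3 c a b := cyc1 (cyc1 h)
theorem det3_swap (a b c : V3) : det3 a b c = -det3 b a c := by unfold det3; ring

variable {I : Inst}

/-- Consecutive vertices of the polygon. -/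
def Cons (I : Inst) (x y : ℕ) : Prop := Wv I x ∧ Wv I y ∧ (dat I).k x < (dat I).k y ∧
  ∀ z, Wv I z → (dat I).k z ≤ (dat I).k x ∨ (dat I).k y ≤ (dat I).k z

theorem exists_pred {x y : ℕ} (hx : Wv I x) (hy : Wv I y) (h : (dat I).k x < (dat I).k y) :
    ∃ s, Cons I s y ∧ (dat I).k x ≤ (dat I).k s := by
  classical
  obtain ⟨s, h1, h2⟩ := ((Finset.range (NV I)).filter fun z =>
    Wv I z ∧ (dat I).k z < (dat I).k y).exists_max_image (dat I).k ⟨x, by simp [hx, h, hx.2.1]⟩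
  simp only [Finset.mem_filter, Finset.mem_range] at h1 h2
  exact ⟨s, ⟨h1.2.1, hy, h1.2.2, fun z hz => (lt_or_ge _ _).imp_left fun h => h2 z ⟨hz.2.1, hz, h⟩⟩,
    h2 x ⟨hx.2.1, hx, h⟩⟩

theorem klt {x y : ℕ} (h : cl I x < cl I y ∨ (cl I x = cl I y ∧ off I x < off I y)) :
    (dat I).k x < (dat I).k y := h.elim key_lt fun h => (key_lt_iff h.1).2 h.2

theorem low_spec {x : ℕ} (hx : x < base I) : (dat I).A x = false ∧ cl I x = x - 6 ∧
    off I x = if x < 6 then (x : ℤ) - NV I - 7 else 0 := by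
  simp [dat, cl, off, inB_false (I := I) (Or.inl hx), hx]

theorem wv_low {x : ℕ} (h2 : 2 ≤ x) (hx : x < base I) : Wv I x :=
  ⟨h2, by unfold NV; omega, (low_spec hx).1⟩

theorem key_low {x y : ℕ} (hx : x < 6) (hy : y < NV I) (h : x < y) :
    (dat I).k x < (dat I).k y := by
  have h0 : 6 ≤ base I ∧ base I ≤ NV I := by unfold NV base; omega
  have h1 := (low_spec (I := I) (x := x) (by omega)).2.1
  have := off_cases I x
  have := off_cases I y
  exact klt (by omega)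

theorem cons_low {x : ℕ} (h2 : 2 ≤ x) (hx : x < 5) : Cons I x (x + 1) := by
  have h0 : 6 ≤ base I ∧ base I ≤ NV I := by unfold NV base; omega
  refine ⟨wv_low h2 (by omega), wv_low (by omega) (by omega), key_low (by omega) (by omega)
    (by omega), fun z hz => ?_⟩
  rcases lt_trichotomy z x with h | rfl | h
  · exact Or.inl (key_low (by omega) (by omega) h).le
  · exact Or.inl le_rfl
  · rcases (show x + 1 < z ∨ x + 1 = z by omega) with h | rfl
    · exact Or.inr (key_low (by omega) hz.2.1 h).le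
    · exact Or.inr le_rfl

theorem wv_marker {c : ℕ} (hc : c < 2 * I.1) :
    Wv I (6 + c) ∧ cl I (6 + c) = c ∧ off I (6 + c) = 0 := by
  have := low_spec (I := I) (x := 6 + c) (by unfold base; omega)
  exact ⟨wv_low (by omega) (by unfold base; omega), by rw [this.2.1]; omega,
    by rw [this.2.2, if_neg (by omega)]⟩

theorem block_keys {i j l k B : ℕ} {b : Bool} (hw : i < j ∧ j < l ∧ l < I.1)
    (hk : k < I.2.length) (e : I.2[k] = (i, j, l, b)) (hB : B = base I + 9 * k) :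
    ∀ z ∈ [(B + 0, B + 2), (B + 0, B + 3), (B + 0, B + 4), (B + 2, B + 3), (B + 4, B + 3),
      (B + 1, B + 2), (B + 1, B + 4), (B + 1, B + 5), (B + 4, B + 6), (B + 5, B + 6),
      (6 + i, 6 + (I.1 + i)), (6 + j, 6 + (I.1 + j)), (6 + l, 6 + (I.1 + l))] ++ bif b then
      [(B + 7, B + 0), (B + 7, B + 1), (B + 7, 6 + i), (6 + (I.1 + i), B + 2), (6 + j, B + 0),
        (B + 3, 6 + (I.1 + j)), (B + 1, 6 + l), (6 + (I.1 + l), B + 6)] else
      [(B + 2, B + 7), (B + 3, B + 7), (6 + i, B + 0), (B + 3, 6 + (I.1 + i)), (B + 1, 6 + j),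
        (6 + (I.1 + j), B + 6), (6 + l, B + 2), (B + 7, 6 + (I.1 + l))],
      (dat I).k z.1 < (dat I).k z.2 := by
  have w3 : ∀ τ < 9, cl I (B + τ) = clT I.1 (i, j, l, b) (posT b τ) ∧
      off I (B + τ) = sgT τ * (B + τ : ℕ) := fun τ hτ => by
    rw [hB, cl_block hk hτ, e]
    exact ⟨rfl, by simp only [off, block_spec hk hτ, cond_true]⟩
  have c0 := w3 0 (by omega)
  have c1 := w3 1 (by omega)
  have c2 := w3 2 (by omega)
  have c3 := w3 3 (by omega)
  have c4 := w3 4 (by omega)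
  have c5 := w3 5 (by omega)
  have c6 := w3 6 (by omega)
  have c7 := w3 7 (by omega)
  have m1 := (wv_marker (I := I) (c := i) (by omega)).2
  have m2 := (wv_marker (I := I) (c := j) (by omega)).2
  have m3 := (wv_marker (I := I) (c := l) (by omega)).2
  have m4 := (wv_marker (I := I) (c := I.1 + i) (by omega)).2
  have m5 := (wv_marker (I := I) (c := I.1 + j) (by omega)).2
  have m6 := (wv_marker (I := I) (c := I.1 + l) (by omega)).2
  have hB' : 0 < B := by unfold base at hB; omega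
  clear w3 e hk hB
  cases b <;> simp only [clT, posT, sgT, cond_true, cond_false, List.getD_cons_succ,
    List.getD_cons_zero, Nat.reduceAdd, Nat.reduceMod, List.forall_mem_cons, List.cons_append,
    List.nil_append, Nat.add_zero] at c0 c1 c2 c3 c4 c5 c6 c7 ⊢ <;>
  refine ⟨?_, ?_, ?_, ?_, ?_, ?_, ?_, ?_, ?_, ?_, ?_, ?_, ?_, ?_, ?_, ?_, ?_, ?_, ?_, ?_, ?_,
    by simp⟩ <;>
  refine klt ?_ <;>
  simp only [c0, c1, c2, c3, c4, c5, c6, c7, m1, m2, m3, m4, m5, m6, true_and] <;>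
  clear * - hw hB' <;> omega

section
variable (H : ∀ l ∈ cells I, Fc ev (NV I) l) {π : ℕ → V3}
  (hπ : ∀ x y, ∃ w, ∀ z, ev z w = det3 (π x) (π y) (π z)) (h0 : π 0 = 0) (h1 : π 1 = 0)
  (h2 : 0 < det3 (π 2) (π 3) (π 4))
include H hπ h0 h1 h2

theorem edge_pos {x y : ℕ} (h : Cons I x y) :
    ∀ z < NV I, z ∉ [0, 1, x, y] → 0 < det3 (π x) (π y) (π z) := by
  have h6 : 6 ≤ NV I := by unfold NV base; omega
  have key : ∀ x y, Cons I x y → ∀ z < NV I, z ∉ [0, 1, x, y] → 0 < det3 (π x) (π y) (π z) →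
      ∀ z < NV I, z ∉ [0, 1, x, y] → 0 < det3 (π x) (π y) (π z) := by
    intro x y h z hz hz' hp z' a1 a2
    obtain ⟨⟨e, b1, b2⟩, b3⟩ := H _ (uv_mem_cells h.1 h.2.1 h.2.2.1 h.2.2.2)
    obtain ⟨w, hw⟩ := hπ x y
    simp only [List.forall_mem_cons] at b1
    have := b3 z hz hz' (ev z e • w - ev z w • e) (by
      simp [b1, hw, h0, h1, det3]; constructor <;> right <;> ring) (by simp [mul_comm]) z' a1
    simp only [map_sub, map_smul, smul_eq_mul, hw] at this
    have h4 := mul_pos hp (b2 z' a1 a2)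
    exact (mul_pos_iff_of_pos_left (b2 z hz hz')).1 (by linarith)
  generalize hm : ((dat I).k x - (dat I).k 2).toNat = m
  induction m using Nat.strong_induction_on generalizing x y with
  | _ m ih =>
  rcases h.1.1.lt_or_eq with h3 | rfl
  · have h4 := key_low (I := I) (by omega) h.1.2.1 h3
    obtain ⟨s, a1, a2⟩ := exists_pred (cons_low le_rfl (by omega)).1 h.1 h4
    have a3 := a1.2.2.1
    have a4 := h.2.2.1
    have b1 : s ≠ x := fun e => by rw [e] at a3; omega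
    have b2 : s ≠ y := fun e => by rw [e] at a3; omega
    have b3 : x ≠ y := fun e => by rw [e] at a4; omega
    have b4 := a1.1.1
    have b5 := h.2.1.1
    exact key x y h s a1.1.2.1 (by simp; omega)
      (cyc1 (ih _ (by omega) a1 rfl y h.2.1.2.1 (by simp; omega)))
  · have a1 := cons_low (I := I) le_rfl (by omega)
    have a2 := a1.2.2.2 y h.2.1
    have a3 := h.2.2.2 _ a1.2.1
    have a4 := a1.2.2.1
    have a5 := h.2.2.1
    obtain rfl : y = 3 := key_inj h.2.1.2.1.le a1.2.1.2.1.le (by norm_num at *; omega)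
    exact key 2 3 h 4 (by omega) (by decide) h2

theorem rot {z c d e : ℕ} (hz : Wv I z) (hz' : 2 < z) (hc : 2 ≤ c ∧ c < NV I)
    (hd : 2 ≤ d ∧ d < NV I) (he : 2 ≤ e ∧ e < NV I) (a1 : 0 < det3 (π z) (π c) (π d))
    (a2 : 0 < det3 (π z) (π d) (π e)) : 0 < det3 (π z) (π c) (π e) := by
  obtain ⟨s, b1, -⟩ := exists_pred (cons_low le_rfl (by omega)).1 hz
    (key_low (by omega) hz.2.1 hz')
  have b2 := edge_pos H hπ h0 h1 h2 b1
  have b3 : ∀ x, 2 ≤ x ∧ x < NV I → 0 ≤ det3 (π s) (π z) (π x) := fun x hx => by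
    by_cases h : x = s ∨ x = z
    · rcases h with rfl | rfl <;> unfold det3 <;> linarith
    · exact (b2 x hx.2 (by simp; omega)).le
  have b4 : ∀ x y, 2 ≤ x ∧ x < NV I → 2 ≤ y ∧ y < NV I → 0 < det3 (π z) (π x) (π y) →
      0 < det3 (π s) (π z) (π x) := fun x y hx hy h => b2 x hx.2 (by
    have c1 : x ≠ s := fun e => by rw [e, det3_swap] at h; linarith [b3 y hy]
    have c2 : x ≠ z := fun e => by rw [e] at h; unfold det3 at h; linarith
    simp; omega)
  have gp : det3 (π s) (π z) (π d) * det3 (π z) (π c) (π e) = det3 (π s) (π z) (π c) *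
      det3 (π z) (π d) (π e) + det3 (π s) (π z) (π e) * det3 (π z) (π c) (π d) := by
    unfold det3; ring
  exact (mul_pos_iff_of_pos_left (b4 d e hd he a2)).1 (gp ▸ add_pos_of_pos_of_nonneg
    (mul_pos (b4 c d hc hd a1) a2) (mul_nonneg (b3 e he) a1.le))

theorem tri_pos {x y z : ℕ} (hx : Wv I x) (hy : Wv I y) (hz : Wv I z)
    (a1 : (dat I).k x < (dat I).k y) (a2 : (dat I).k y < (dat I).k z) :
    0 < det3 (π x) (π y) (π z) := by
  generalize hm : ((dat I).k y - (dat I).k x).toNat = m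
  induction m using Nat.strong_induction_on generalizing y with
  | _ m ih =>
  obtain ⟨t, b1, b2⟩ := exists_pred hx hy a1
  have b3 := b1.2.2.1
  have c1 : z ≠ t := fun e => by rw [e] at a2; omega
  have c2 : z ≠ y := fun e => by rw [e] at a2; omega
  have c3 := hz.1
  have b4 := edge_pos H hπ h0 h1 h2 b1 z hz.2.1 (by simp; omega)
  rcases b2.lt_or_eq with b2 | b2
  · have c4 : 2 < z := c3.lt_of_ne fun e => by
      rcases hx.1.lt_or_eq with h | h
      · have := key_low (I := I) (by omega) hx.2.1 h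
        rw [← e] at a2; omega
      · rw [← e, h] at a2; omega
    exact cyc1 (rot H hπ h0 h1 h2 hz c4 ⟨hx.1, hx.2.1⟩ ⟨b1.1.1, b1.1.2.1⟩ ⟨hy.1, hy.2.1⟩
      (cyc2 (ih _ (by omega) b1.1 b2 (by omega) rfl)) (cyc2 b4))
  · rwa [key_inj hx.2.1.le b1.1.2.1.le b2]

theorem side_out {A B p p' a : ℕ} (hA : Wv I A) (hB : Wv I B) (hp : Wv I p) (hp' : Wv I p')
    (b1 : 2 < A) (b2 : 2 < p') (ha : 2 ≤ a ∧ a < NV I) (a1 : (dat I).k p < (dat I).k A)
    (a2 : (dat I).k A < (dat I).k B) (a3 : (dat I).k B < (dat I).k p')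
    (h : 0 < det3 (π p) (π p') (π a)) : 0 < det3 (π A) (π B) (π a) :=
  rot H hπ h0 h1 h2 hA b1 ⟨hB.1, hB.2.1⟩ ⟨hp'.1, hp'.2.1⟩ ha (tri_pos H hπ h0 h1 h2 hA hB hp' a2 a3)
    (cyc2 (rot H hπ h0 h1 h2 hp' b2 ha ⟨hp.1, hp.2.1⟩ ⟨hA.1, hA.2.1⟩
      (cyc1 h) (cyc2 (tri_pos H hπ h0 h1 h2 hp hA hp' a1 (a2.trans a3)))))

theorem side_in {A B p p' a : ℕ} (hA : Wv I A) (hB : Wv I B) (hp : Wv I p) (hp' : Wv I p')
    (b1 : 2 < A) (b2 : 2 < p') (ha : 2 ≤ a ∧ a < NV I) (a1 : (dat I).k A < (dat I).k p)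
    (a2 : (dat I).k p < (dat I).k p') (a3 : (dat I).k p' < (dat I).k B)
    (h : 0 < det3 (π p') (π p) (π a)) : det3 (π A) (π B) (π a) < 0 := by
  have h3 := rot H hπ h0 h1 h2 hA b1 ha ⟨hp'.1, hp'.2.1⟩ ⟨hB.1, hB.2.1⟩
    (cyc1 (rot H hπ h0 h1 h2 hp' b2 ⟨hA.1, hA.2.1⟩ ⟨hp.1, hp.2.1⟩ ha
      (cyc2 (tri_pos H hπ h0 h1 h2 hA hp hp' a1 a2)) h))
    (tri_pos H hπ h0 h1 h2 hA hp' hB (a1.trans a2) a3)
  unfold det3 at h3 ⊢
  linarith

theorem test_sides (hw : WF I.1 I.2) {i j l : ℕ} {b : Bool} (ht : (i, j, l, b) ∈ I.2) :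
    ∃ a, (6 ≤ a ∧ a < NV I) ∧
      0 < (bif b then 1 else -1) * det3 (π (6 + i)) (π (6 + I.1 + i)) (π a) ∧
      (bif b then 1 else -1) * det3 (π (6 + j)) (π (6 + I.1 + j)) (π a) < 0 ∧
      0 < (bif b then 1 else -1) * det3 (π (6 + l)) (π (6 + I.1 + l)) (π a) := by
  obtain ⟨k, hk, e⟩ := List.getElem_of_mem ht
  have hw' : i < j ∧ j < l ∧ l < I.1 := hw _ ht
  obtain ⟨B, hB⟩ : ∃ B, B = base I + 9 * k := ⟨_, rfl⟩
  have n1 : 6 + 2 * I.1 ≤ B ∧ B + 9 ≤ NV I := by unfold NV base at *; omega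
  have w1 : ∀ τ < 8, Wv I (B + τ) := fun τ hτ =>
    ⟨by omega, by omega, by rw [hB, A_block hk (by omega)]; simp; omega⟩
  have F := fun T hT => hB ▸ H _ (loc_mem_cells hw hk (T := T) hT)
  have tp := fun x y z hx hy hz => tri_pos H hπ h0 h1 h2 (w1 x hx) (w1 y hy) (w1 z hz)
  have m1 := (wv_marker (I := I) (c := i) (by omega)).1
  have m2 := (wv_marker (I := I) (c := j) (by omega)).1
  have m3 := (wv_marker (I := I) (c := l) (by omega)).1
  have m4 := (wv_marker (I := I) (c := I.1 + i) (by omega)).1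
  have m5 := (wv_marker (I := I) (c := I.1 + j) (by omega)).1
  have m6 := (wv_marker (I := I) (c := I.1 + l) (by omega)).1
  have k0 := block_keys hw' hk e hB
  simp only [List.forall_mem_append, List.forall_mem_cons] at k0
  obtain ⟨⟨k02, k03, k04, k23, k43, k12, k14, k15, k46, k56, ki, kj, kl, -⟩, k1⟩ := k0
  have t1 : 0 < det3 (π (B + 0)) (π (B + 3)) (π (B + 7)) ∧
      0 < det3 (π (B + 2)) (π (B + 7)) (π (B + 0)) ∧
      0 < det3 (π (B + 2)) (π (B + 7)) (π (B + 1)) := by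
    cases b <;> simp only [cond_true, cond_false, List.forall_mem_cons] at k1
    · exact ⟨tp 0 3 7 (by omega) (by omega) (by omega) k03 k1.2.1,
        cyc1 (tp 0 2 7 (by omega) (by omega) (by omega) k02 k1.1),
        cyc1 (tp 1 2 7 (by omega) (by omega) (by omega) k12 k1.1)⟩
    · exact ⟨cyc1 (tp 7 0 3 (by omega) (by omega) (by omega) k1.1 k03),
        cyc2 (tp 7 0 2 (by omega) (by omega) (by omega) k1.1 k02),
        cyc2 (tp 7 1 2 (by omega) (by omega) (by omega) k1.2.1 k12)⟩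
  have t2 : 0 < det3 (π (B + 3)) (π (B + 0)) (π (B + 2)) ∧
      0 < det3 (π (B + 3)) (π (B + 0)) (π (B + 4)) ∧
      0 < det3 (π (B + 6)) (π (B + 1)) (π (B + 4)) ∧
      0 < det3 (π (B + 6)) (π (B + 1)) (π (B + 5)) :=
    ⟨cyc2 (tp 0 2 3 (by omega) (by omega) (by omega) k02 k23),
      cyc2 (tp 0 4 3 (by omega) (by omega) (by omega) k04 k43),
      cyc2 (tp 1 4 6 (by omega) (by omega) (by omega) k14 k46),
      cyc2 (tp 1 5 6 (by omega) (by omega) (by omega) k15 k56)⟩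
  have z1 : ∀ x y, det3 (π x) (π y) (π x) = 0 ∧ det3 (π x) (π y) (π y) = 0 ∧
      det3 (π x) (π y) (π 0) = 0 := fun x y => by
    simp only [det3, h0, Prod.fst_zero, Prod.snd_zero]
    refine ⟨?_, ?_, ?_⟩ <;> ring
  have s1 : 0 < det3 (π (B + 3)) (π (B + 0)) (π (B + 8)) := by
    obtain ⟨g, hg⟩ := hπ (B + 3) (B + 0)
    rw [← hg]
    exact link1 (p := B + 0) (q := B + 3) (L := B + 2) (L' := B + 4) (R := B + 7) (a := B + 8)
      ((F [0, 2, 3, 8] (by decide)).perm (by simp; omega)) (F [0, 3, 4, 8] (by decide))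
      (F [0, 3, 4, 7] (by decide)) (by simp) (by omega) (by rw [hg, (z1 _ _).2.1])
      (by rw [hg, (z1 _ _).1]) (by rw [hg, det3_swap]; linarith [t1.1]) (hg _ ▸ t2.1)
      (hg _ ▸ t2.2.1)
  have s2 : 0 < det3 (π (B + 1)) (π (B + 6)) (π (B + 8)) := by
    obtain ⟨g, hg⟩ := hπ (B + 6) (B + 1)
    rw [det3_swap, ← hg, neg_pos]
    exact link2 (p := B + 1) (q := B + 6) (L := B + 4) (L' := B + 5) (u := 0)
      ((F [1, 4, 5, 6] (by decide)).perm (by simp; omega))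
      ((F [1, 4, 6, 8] (by decide)).perm (by simp; omega))
      ((F [1, 5, 6, 8] (by decide)).perm (by simp; omega)) (by simp) (by omega)
      (by rw [hg, (z1 _ _).2.1]) (by rw [hg, (z1 _ _).1]) (by rw [hg, (z1 _ _).2.2])
      (hg _ ▸ t2.2.2.1) (hg _ ▸ t2.2.2.2)
  have s3 : 0 < det3 (π (B + 7)) (π (B + 2)) (π (B + 8)) := by
    obtain ⟨g, hg⟩ := hπ (B + 2) (B + 7)
    rw [det3_swap, ← hg, neg_pos]
    exact link2 (p := B + 2) (q := B + 7) (L := B + 0) (L' := B + 1) (u := 0)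
      ((F [0, 1, 2, 7] (by decide)).perm (by simp; omega))
      ((F [0, 2, 7, 8] (by decide)).perm (by simp; omega))
      ((F [1, 2, 7, 8] (by decide)).perm (by simp; omega)) (by simp; omega) (by omega)
      (by rw [hg, (z1 _ _).1]) (by rw [hg, (z1 _ _).2.1]) (by rw [hg, (z1 _ _).2.2])
      (hg _ ▸ t1.2.1) (hg _ ▸ t1.2.2)
  have so := fun A B' p p' hA hB' hp hp' b1 b2 => side_out H hπ h0 h1 h2 (A := A) (B := B')
    (p := p) (p' := p') (a := B + 8) hA hB' hp hp' b1 b2 (by omega)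
  have si := fun A B' p p' hA hB' hp hp' b1 b2 => side_in H hπ h0 h1 h2 (A := A) (B := B')
    (p := p) (p' := p') (a := B + 8) hA hB' hp hp' b1 b2 (by omega)
  refine ⟨B + 8, by omega, ?_⟩
  simp only [add_assoc 6]
  cases b <;> simp only [cond_true, cond_false, List.forall_mem_cons, neg_mul, one_mul, neg_pos,
    neg_lt_zero] at k1 ⊢ <;> obtain ⟨a1, a2, a3, a4, a5, a6, a7, a8, -⟩ := k1
  · exact ⟨si _ _ _ _ m1 m4 (w1 0 (by omega)) (w1 3 (by omega)) (by omega) (by omega) a3 k03 a4 s1,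
      so _ _ _ _ m2 m5 (w1 1 (by omega)) (w1 6 (by omega)) (by omega) (by omega) a5 kj a6 s2,
      si _ _ _ _ m3 m6 (w1 2 (by omega)) (w1 7 (by omega)) (by omega) (by omega) a7 a1 a8 s3⟩
  · exact ⟨so _ _ _ _ m1 m4 (w1 7 (by omega)) (w1 2 (by omega)) (by omega) (by omega) a3 ki a4 s3,
      si _ _ _ _ m2 m5 (w1 0 (by omega)) (w1 3 (by omega)) (by omega) (by omega) a5 k03 a6 s1,
      so _ _ _ _ m3 m6 (w1 1 (by omega)) (w1 6 (by omega)) (by omega) (by omega) a7 kl a8 s2⟩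

theorem po_of (hw : WF I.1 I.2) : PO I.1 I.2 := by
  let g : ℕ → ℕ → ℝ := fun i z => det3 (π (6 + i)) (π (6 + I.1 + i)) (π z)
  have w2 : ∀ c < 2 * I.1, Wv I (6 + c) ∧ cl I (6 + c) = c := fun c hc =>
    ⟨(wv_marker hc).1, (wv_marker hc).2.1⟩
  have tp : ∀ a b c, a < b → b < c → c < 2 * I.1 → 0 < det3 (π (6 + a)) (π (6 + b)) (π (6 + c)) :=
    fun a b c a1 a2 a3 => by
      have b1 := w2 a (by omega)
      have b2 := w2 b (by omega)
      have b3 := w2 c (by omega)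
      exact tri_pos H hπ h0 h1 h2 b1.1 b2.1 b3.1 (key_lt (by omega)) (key_lt (by omega))
  have e : ∀ z, 6 ≤ z ∧ z < NV I → 0 < det3 (π 2) (π 3) (π z) := fun z hz =>
    edge_pos H hπ h0 h1 h2 (cons_low le_rfl (by omega)) z hz.2 (by simp; omega)
  have g2 : ∀ i < I.1, 0 < g i 2 := fun i hi => by
    have b1 := w2 i (by omega)
    have b2 := w2 (I.1 + i) (by omega)
    simp only [g, add_assoc 6]
    exact cyc1 (tri_pos H hπ h0 h1 h2 (cons_low le_rfl (by omega)).1 b1.1 b2.1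
      (key_low (by omega) b1.1.2.1 (by omega)) (key_lt (by omega)))
  have mn : ∀ i j, i < j → j < I.1 → 0 < g i 2 * g j 3 - g i 3 * g j 2 := fun i j hij hj => by
    have := add_pos (mul_pos (tp i (I.1 + i) (I.1 + j) (by omega) (by omega) (by omega))
      (e (6 + j) ⟨by omega, (w2 j (by omega)).1.2.1⟩))
      (mul_pos (tp i j (I.1 + i) (by omega) (by omega) (by omega))
      (e (6 + (I.1 + j)) ⟨by omega, (w2 _ (by omega)).1.2.1⟩))
    refine this.trans_eq ?_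
    simp only [g, add_assoc 6, det3]; ring
  refine ⟨fun i => g i 3 / g i 2, fun i => g i 4 / g i 2, fun i j hij hj => ?_, ?_⟩
  · rw [div_lt_div_iff₀ (g2 i (by omega)) (g2 j hj)]
    linarith [mn i j hij hj]
  rintro ⟨i, j, l, b⟩ ht
  have hw' : i < j ∧ j < l ∧ l < I.1 := hw _ ht
  obtain ⟨a, ha, a1, a2, a3⟩ := test_sides H hπ h0 h1 h2 hw ht
  have b1 := g2 i (by omega)
  have b2 := g2 j (by omega)
  have b3 := g2 l (by omega)
  have id1 : ori (fun i => g i 3 / g i 2) (fun i => g i 4 / g i 2) i j l =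
      det3 (g i 2, g i 3, g i 4) (g j 2, g j 3, g j 4) (g l 2, g l 3, g l 4) /
        (g i 2 * g j 2 * g l 2) := by
    simp only [ori, det3]; field_simp; ring
  have id2 : ∀ x y z u v w a : V3, ∀ d : V3 → V3 → ℝ,
      (d = fun x y => x.1 * y.1 + x.2.1 * y.2.1 + x.2.2 * y.2.2) →
      det3 u v a * det3 (d x u, d x v, d x w) (d y u, d y v, d y w) (d z u, d z v, d z w) =
      det3 u v w * (d x a * (d y u * d z v - d y v * d z u) -
        d y a * (d x u * d z v - d x v * d z u) + d z a * (d x u * d y v - d x v * d y u)) := by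
    rintro x y z u v w a d rfl
    simp only [det3]; ring
  have id3 : ∀ i, ∃ x : V3, ∀ z, g i z = x.1 * (π z).1 + x.2.1 * (π z).2.1 + x.2.2 * (π z).2.2 :=
    fun i => ⟨(det3 (π (6 + i)) (π (6 + I.1 + i)) (1, 0, 0),
      det3 (π (6 + i)) (π (6 + I.1 + i)) (0, 1, 0), det3 (π (6 + i)) (π (6 + I.1 + i)) (0, 0, 1)),
      fun z => by simp only [g, det3]; ring⟩
  obtain ⟨x, hx⟩ := id3 i
  obtain ⟨y, hy⟩ := id3 j
  obtain ⟨z, hz⟩ := id3 l
  have id4 := id2 x y z (π 2) (π 3) (π 4) (π a) _ rfl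
  simp only [← hx, ← hy, ← hz] at id4
  have c1 := mul_pos a1 (mn j l (by omega) (by omega))
  have c2 := mul_neg_of_neg_of_pos a2 (mn i l (by omega) (by omega))
  have c3 := mul_pos a3 (mn i j (by omega) (by omega))
  have c4 := e a ha
  have c5 := mul_pos (mul_pos b1 b2) b3
  simp only [id1]
  cases b <;> simp only [cond_true, cond_false] at c1 c2 c3 ⊢
  · refine div_neg_of_neg_of_pos (neg_of_mul_neg_right ?_ c4.le) c5
    rw [id4]
    exact mul_neg_of_pos_of_neg h2 (by linarith)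
  · refine div_pos ((mul_pos_iff_of_pos_left c4).1 ?_) c5
    rw [id4]
    exact mul_pos h2 (by linarith)

end

theorem sound (H : ∀ l ∈ cells I, Fc ev (NV I) l) (hw : WF I.1 I.2) : PO I.1 I.2 := by
  have h6 : 6 ≤ NV I := by unfold NV base; omega
  have hc := fun x h2 hx => (fun h : Cons I x (x + 1) =>
    (H _ (uv_mem_cells h.1 h.2.1 h.2.2.1 h.2.2.2)).1) (cons_low h2 hx)
  obtain ⟨e1, a1, b1⟩ := hc 2 le_rfl (by omega)
  obtain ⟨e2, a2, b2⟩ := hc 3 (by omega) (by omega)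
  obtain ⟨e3, a3, b3⟩ := hc 4 (by omega) (by omega)
  simp only [List.forall_mem_cons] at a1 a2 a3
  refine po_of H (π := fun x => (ev x e1, ev x e2, ev x e3)) (fun x y => ⟨(ev x e2 * ev y e3 -
    ev x e3 * ev y e2) • e1 + (ev x e3 * ev y e1 - ev x e1 * ev y e3) • e2 +
    (ev x e1 * ev y e2 - ev x e2 * ev y e1) • e3, fun z => ?_⟩) (by simp [a1, a2, a3])
    (by simp [a1, a2, a3]) ?_ hw
  · simp only [map_add, map_smul, smul_eq_mul, det3]; ring
  · have := mul_pos (mul_pos (b2 2 (by omega) (by decide)) (b3 3 (by omega) (by decide)))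
      (b1 4 (by omega) (by decide))
    simp only [det3, a1, a2, a3] at this ⊢
    linarith

end Pool.Agent.Lib.MP_8817b2_lc
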