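import Pool.Agent.Lib.MP_8817b2_lc.Asym

/-! The empty spheres of the realization are those listed by the design. -/

namespace Pool.Agent.Lib.MP_8817b2_lc

def G5 (a b c d y : V3) (ka kb kc kd ky : ℝ) : ℝ :=
  0 - kb * det3 c d y + kc * det3 b d y - kd * det3 b c y + ky * det3 b c d
  + ka * det3 c d y - kc * det3 a d y + kd * det3 a c y - ky * det3 a c d
  - ka * det3 b d y + kb * det3 a d y - kd * det3 a b y + ky * det3 a b d
  + ka * det3 b c y - kb * det3 a c y + kc * det3 a b y - ky * det3 a b c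
  - ka * det3 b c d + kb * det3 a c d - kc * det3 a b d + kd * det3 a b c

theorem D5_eq (p : ℕ → V3) (K : ℕ → ℝ) (a b c d y : ℕ) : D5 p K [a, b, c, d, y] =
    G5 (p a) (p b) (p c) (p d) (p y) (K a) (K b) (K c) (K d) (K y) := by
  simp only [D5, tab, List.map_cons, List.map_nil, List.sum_cons, List.sum_nil, G5,
    List.getD_cons_succ, List.getD_cons_zero]
  push_cast; ring

abbrev W5 : Type := ℝ × V3 × ℝ

def lf (w : W5) (z : V3) (k : ℝ) : ℝ :=
  w.1 + w.2.1.1 * z.1 + w.2.1.2.1 * z.2.1 + w.2.1.2.2 * z.2.2 + w.2.2 * k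

/-- The value at a point of the equation of a sphere. -/
def evl (z : V3) : W5 →ₗ[ℝ] ℝ where
  toFun w := lf w z (sq3 z)
  map_add' w w' := by simp only [lf, Prod.fst_add, Prod.snd_add]; ring
  map_smul' c w := by simp only [lf, Prod.smul_fst, Prod.smul_snd, smul_eq_mul, RingHom.id_apply]; ring

theorem G5_lin (a b c d : V3) (ka kb kc kd : ℝ) :
    ∃ w, ∀ y ky, lf w y ky = G5 a b c d y ka kb kc kd ky :=
  ⟨(G5 a b c d 0 ka kb kc kd 0, (G5 a b c d (1, 0, 0) ka kb kc kd 0 - G5 a b c d 0 ka kb kc kd 0,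
    G5 a b c d (0, 1, 0) ka kb kc kd 0 - G5 a b c d 0 ka kb kc kd 0,
    G5 a b c d (0, 0, 1) ka kb kc kd 0 - G5 a b c d 0 ka kb kc kd 0),
    G5 a b c d 0 ka kb kc kd 1 - G5 a b c d 0 ka kb kc kd 0), fun y ky => by
      simp only [lf, G5, det3, Prod.fst_zero, Prod.snd_zero]; ring⟩

theorem G5_self (a b c d : V3) (ka kb kc kd : ℝ) : G5 a b c d a ka kb kc kd ka = 0 ∧
    G5 a b c d b ka kb kc kd kb = 0 ∧ G5 a b c d c ka kb kc kd kc = 0 ∧
    G5 a b c d d ka kb kc kd kd = 0 := by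
  simp only [G5, det3]
  refine ⟨?_, ?_, ?_, ?_⟩ <;> ring

theorem cramer (w : W5) (a b c d y z : V3) (ka kb kc kd ky kz : ℝ) :
    G5 a b c d y ka kb kc kd ky * lf w z kz = G5 z b c d y kz kb kc kd ky * lf w a ka +
      G5 a z c d y ka kz kc kd ky * lf w b kb + G5 a b z d y ka kb kz kd ky * lf w c kc +
      G5 a b c z y ka kb kc kz ky * lf w d kd + G5 a b c d z ka kb kc kd kz * lf w y ky := by
  simp only [lf, G5, det3]; ring

theorem eq_zero_of_lf {w : W5} (h : ∀ z k, lf w z k = 0) : w = 0 := by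
  have h0 := h 0 0
  have h1 := h (1, 0, 0) 0
  have h2 := h (0, 1, 0) 0
  have h3 := h (0, 0, 1) 0
  have h4 := h 0 1
  obtain ⟨a, ⟨b, c, d⟩, e⟩ := w
  simp only [lf, Prod.fst_zero, Prod.snd_zero] at h0 h1 h2 h3 h4
  simp only [Prod.mk_eq_zero]
  refine ⟨?_, ⟨?_, ?_, ?_⟩, ?_⟩ <;> linarith

theorem lorentz (x : V3) : ∃ w, ∀ z, 0 ≤ evl z w ∧ (evl z w = 0 ↔ z = x) := by
  have e : ∀ z, evl z (sq3 x, -2 • x, 1) =
      (z.1 - x.1) ^ 2 + (z.2.1 - x.2.1) ^ 2 + (z.2.2 - x.2.2) ^ 2 := fun z => by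
    simp [evl, lf, sq3]; ring
  refine ⟨(sq3 x, -2 • x, 1), fun z =>
    ⟨by rw [e]; positivity, fun h => ?_, fun h => by rw [e, h]; simp⟩⟩
  rw [e] at h
  refine Prod.ext ?_ (Prod.ext ?_ ?_) <;>
    nlinarith [sq_nonneg (z.1 - x.1), sq_nonneg (z.2.1 - x.2.1), sq_nonneg (z.2.2 - x.2.2)]

/-- The signs predicted by the design are correct. -/
def OK (I : Inst) (p : ℕ → V3) : Prop := ∀ l ∈ quads (NV I + 1), ∀ y ≤ NV I, y ∉ l →
  ∀ s ∈ [(1 : ℤ), -1], Sg I (l ++ [y]) s = true → 0 < (s : ℝ) * D5 p (fun x => sq3 (p x)) (l ++ [y])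

/-- Only the zero equation vanishes at the points of `l` and at `y`. -/
def Un (p : ℕ → V3) (l : List ℕ) (y : ℕ) : Prop :=
  ∀ w, (∀ x ∈ l, evl (p x) w = 0) → evl (p y) w = 0 → w = 0

variable {I : Inst} {p : ℕ → V3}

theorem exists_w (h : OK I p) {l : List ℕ} (hl : l.Nodup ∧ l.length = 4 ∧ ∀ x ∈ l, x < NV I) :
    ∃ w, (∀ x ∈ l, evl (p x) w = 0) ∧ ∀ y ≤ NV I, y ∉ l → ∀ s ∈ [(1 : ℤ), -1],
      Sg I (l ++ [y]) s = true → 0 < (s : ℝ) * evl (p y) w ∧ Un p l y := by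
  have h1 := h l (mem_quads.2 ⟨hl.1, hl.2.1, fun x hx => (hl.2.2 x hx).trans (Nat.lt_succ_self _)⟩)
  match l, hl.2.1 with
  | [a, b, c, d], _ =>
  obtain ⟨w, hw⟩ := G5_lin (p a) (p b) (p c) (p d) (sq3 (p a)) (sq3 (p b)) (sq3 (p c)) (sq3 (p d))
  refine ⟨w, ?_, fun y hy hy' s hs hg => ?_⟩
  · simpa [evl, hw] using G5_self _ _ _ _ _ _ _ _
  · have h2 := h1 y hy hy' s hs hg
    rw [show [a, b, c, d] ++ [y] = [a, b, c, d, y] from rfl, D5_eq] at h2
    refine ⟨by simpa [evl, hw] using h2, fun w' a1 a2 => eq_zero_of_lf fun z k => ?_⟩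
    simp only [List.forall_mem_cons, evl, LinearMap.coe_mk, AddHom.coe_mk] at a1 a2
    have := cramer w' (p a) (p b) (p c) (p d) (p y) z (sq3 (p a)) (sq3 (p b)) (sq3 (p c))
      (sq3 (p d)) (sq3 (p y)) k
    simp only [a1, a2, mul_zero, add_zero] at this
    exact (mul_eq_zero.1 this).resolve_left (right_ne_zero_of_mul h2.ne')

theorem A_q : (dat I).A (NV I) = false := by simp [dat, inB_false (I := I) (Or.inr le_rfl)]

section
variable (hw : WF I.1 I.2) (h : OK I p)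
include hw h

theorem star_w {k : ℕ} (hk : k < I.2.length) {T : List ℕ} (hT : T ∈ locCells) :
    ∃ w, (∀ x ∈ T.map (base I + 9 * k + ·), evl (p x) w = 0) ∧ evl (p (NV I)) w = 1 ∧
      (∀ y ≤ NV I, y ∉ T.map (base I + 9 * k + ·) → 0 < evl (p y) w) ∧
      Un p (T.map (base I + 9 * k + ·)) (NV I) := by
  have h0 := (mem_cells.1 (loc_mem_cells hw hk hT)).1
  obtain ⟨w, h1, h2⟩ := exists_w h h0
  obtain ⟨s, hs, h3⟩ := sg_loc hw hk hT
  have h4 := fun y hy hy' => h2 y hy hy' s hs ((h3 y hy).resolve_left hy')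
  have h5 := h4 _ le_rfl fun h => lt_irrefl _ (h0.2.2 _ h)
  refine ⟨(s / (s * evl (p (NV I)) w) : ℝ) • w, fun x hx => by simp [h1 x hx], ?_,
    fun y hy hy' => ?_, h5.2⟩
  · rw [map_smul, smul_eq_mul, div_mul_eq_mul_div, div_self h5.1.ne']
  · rw [map_smul, smul_eq_mul, div_mul_eq_mul_div]
    exact div_pos (h4 y hy hy').1 h5.1

theorem star_lp {k : ℕ} (hk : k < I.2.length) {w : W5} (h1 : evl (p (base I + 9 * k + 8)) w = 0)
    (h2 : 0 < evl (p (NV I)) w) (h3 : ∀ τ < 8, 0 ≤ evl (p (base I + 9 * k + τ)) w) (S : Finset ℕ)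
    (hS : ∀ x ∈ S, x ≤ NV I ∧ evl (p x) w = 0) :
    ∃ T ∈ star, ∀ x ∈ S, x ∈ (T ++ [8]).map (base I + 9 * k + ·) := by
  have h0 : ∀ T ∈ star, T ++ [8] ∈ locCells := by decide
  choose! φ a1 a2 a3 a4 using fun T (hT : T ∈ star) => star_w hw h hk (h0 T hT)
  have b1 : ∀ T ∈ star, ∀ x ∈ T, evl (p (base I + 9 * k + x)) (φ T) = 0 := fun T hT x hx =>
    a1 T hT _ (List.mem_map_of_mem (List.mem_append_left _ hx))
  have b2 : ∀ T ∈ star, evl (p (base I + 9 * k + 8)) (φ T) = 0 := fun T hT =>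
    a1 T hT _ (List.mem_map_of_mem (by simp))
  have b3 : ∀ T ∈ star, ∀ x < 8, x ∉ T → 0 < evl (p (base I + 9 * k + x)) (φ T) :=
    fun T hT x hx hx' => a3 T hT _ (by unfold NV; omega) (by simp [hx']; omega)
  let Y : W5 →ₗ[ℝ] ℝ := ∑ x ∈ S, evl (p x)
  obtain ⟨T, hT, hm⟩ := star.toFinset.exists_min_image (fun T => Y (φ T)) (by decide)
  simp only [List.mem_toFinset] at hT hm
  obtain ⟨c0, c⟩ := check3 T hT
  choose! j c1 c2 c3 using c
  let γ : ℕ → ℝ := fun x => evl (p (base I + 9 * k + x)) w / evl (p (base I + 9 * k + x)) (φ (j x))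
  have e := a4 T hT (w - evl (p (NV I)) w • φ T - ∑ x ∈ T.toFinset, γ x • (φ (j x) - φ T)) ?_ ?_
  · have h4 : Y (φ T) ≤ 0 := by
      have h5 := congrArg Y e
      have h6 : Y w = 0 := by
        simp only [Y, LinearMap.sum_apply]
        exact Finset.sum_eq_zero fun x hx => (hS x hx).2
      simp only [map_sub, map_sum, map_smul, smul_eq_mul, map_zero, h6] at h5
      have h7 : 0 ≤ ∑ x ∈ T.toFinset, γ x * (Y (φ (j x)) - Y (φ T)) :=
        Finset.sum_nonneg fun x hx => by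
          rw [List.mem_toFinset] at hx
          exact mul_nonneg (div_nonneg (h3 x (c0 x hx)) (b3 _ (c1 x hx) x (c0 x hx) (c2 x hx)).le)
            (sub_nonneg.2 (hm _ (c1 x hx)))
      by_contra h8
      nlinarith [mul_pos h2 (not_le.1 h8)]
    refine ⟨T, hT, fun x hx => by_contra fun hx' => h4.not_gt ?_⟩
    simp only [Y, LinearMap.sum_apply]
    refine Finset.sum_pos' (fun z hz => ?_) ⟨x, hx, a3 T hT x (hS x hx).1 hx'⟩
    by_cases h5 : z ∈ (T ++ [8]).map (base I + 9 * k + ·)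
    · exact (a1 T hT z h5).ge
    · exact (a3 T hT z (hS z hz).1 h5).le
  · simp only [List.map_append, List.forall_mem_append, List.forall_mem_map, map_sub, map_sum,
      map_smul, smul_eq_mul, List.map_cons, List.map_nil, List.forall_mem_singleton]
    refine ⟨fun z hz => ?_, ?_⟩
    · rw [Finset.sum_eq_single z (fun x hx hxz => ?_) (by simp [hz]), b1 T hT z hz]
      · simp only [γ, mul_zero, sub_zero]
        rw [div_mul_cancel₀ _ (b3 _ (c1 z hz) z (c0 z hz) (c2 z hz)).ne', sub_self]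
      · rw [List.mem_toFinset] at hx
        rw [b1 T hT z hz, b1 _ (c1 x hx) z ((c3 x hx z hz).resolve_left hxz.symm)]
        simp
    · rw [h1, b2 T hT, Finset.sum_eq_zero fun x hx => by
        rw [b2 _ (c1 x (List.mem_toFinset.1 hx))]; simp]
      simp
  · simp only [map_sub, map_sum, map_smul, smul_eq_mul, a2 T hT]
    rw [Finset.sum_eq_zero fun x hx => by rw [a2 _ (c1 x (List.mem_toFinset.1 hx))]; simp]
    simp

theorem cell_facet {l : List ℕ} (hl : l ∈ cells I) : Un p l (NV I) ∧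
    ∃ w, (∀ x ∈ l, evl (p x) w = 0) ∧ ∀ y ≤ NV I, y ∉ l → 0 < evl (p y) w := by
  obtain ⟨h0, s, hs, h1⟩ := mem_cells.1 hl
  obtain ⟨w, h2, h3⟩ := exists_w h h0
  have hq : NV I ∉ l := fun h => lt_irrefl _ (h0.2.2 _ h)
  have h4 : ∀ y ≤ NV I, y ∉ l → (dat I).A y = false → 0 < evl (p y) ((s : ℝ) • w) ∧ Un p l y :=
    fun y hy hy' hA => by
      simpa using h3 y hy hy' s hs (((h1 y hy).resolve_left hy').resolve_right (by simp [hA]))
  have h5 : ∀ x ∈ l, evl (p x) ((s : ℝ) • w) = 0 := fun x hx => by simp [h2 x hx]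
  refine ⟨(h4 _ le_rfl hq A_q).2, (s : ℝ) • w, h5, fun y hy hy' => ?_⟩
  rcases (h1 y hy).resolve_left hy' with h6 | ⟨h6, -, x, hx, h7⟩
  · simpa using (h3 y hy hy' s hs h6).1
  obtain ⟨k, hk, rfl⟩ := A_iff.1 h6
  by_contra h8
  obtain ⟨v, hv⟩ := lorentz (p x)
  obtain ⟨u, u1, -, u2, -⟩ := star_w hw h hk (T := [0, 2, 3, 8]) (by decide)
  have h9 : 0 < evl (p (base I + 9 * k + 8)) v := (hv _).1.lt_of_ne' fun e => by
    have := u2 x (h0.2.2 x hx).le (by simp; omega)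
    rw [← (hv _).2.1 e, u1 _ (by simp)] at this
    exact lt_irrefl _ this
  have h10 := div_nonneg (neg_nonneg.2 (not_lt.1 h8)) h9.le
  obtain ⟨T, hT, h11⟩ := star_lp hw h hk (w := (s : ℝ) • w + (-evl (p (base I + 9 * k + 8))
    ((s : ℝ) • w) / evl (p (base I + 9 * k + 8)) v) • v)
    (by rw [map_add, map_smul _ _ v, smul_eq_mul, div_mul_cancel₀ _ h9.ne', add_neg_cancel])
    (by rw [map_add, map_smul _ _ v]
        exact add_pos_of_pos_of_nonneg (h4 _ le_rfl hq A_q).1 (mul_nonneg h10 (hv _).1))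
    (fun τ hτ => by
      rw [map_add, map_smul _ _ v]
      refine add_nonneg ?_ (mul_nonneg h10 (hv _).1)
      by_cases h : base I + 9 * k + τ ∈ l
      · exact (h5 _ h).ge
      · exact (h4 _ (by unfold NV; omega) h (by rw [A_block hk (by omega)]; simp; omega)).1.le)
    {x} (fun z hz => by
      rw [Finset.mem_singleton.1 hz, map_add, map_smul _ _ v, h5 x hx, (hv _).2.2 rfl]
      exact ⟨(h0.2.2 x hx).le, by simp⟩)
  obtain ⟨τ, hτ, rfl⟩ := List.mem_map.1 (h11 x (Finset.mem_singleton_self x))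
  have := (check3 T hT).1 τ
  rcases List.mem_append.1 hτ with hτ | hτ
  · have := this hτ
    omega
  · have := List.mem_singleton.1 hτ
    omega

theorem facet_cell {S : Finset ℕ} (hS : ∀ x ∈ S, x < NV I) (hc : 4 ≤ S.card) {w : W5}
    (h1 : ∀ x ∈ S, evl (p x) w = 0) (h2 : ∀ y ≤ NV I, y ∉ S → 0 < evl (p y) w) :
    ∃ l ∈ cells I, ∀ x, x ∈ S ↔ x ∈ l := by
  have hq : 0 < evl (p (NV I)) w := h2 _ le_rfl fun h => lt_irrefl _ (hS _ h)
  by_cases hA : ∃ y ∈ S, (dat I).A y = true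
  · obtain ⟨y, hy, hA⟩ := hA
    obtain ⟨k, hk, rfl⟩ := A_iff.1 hA
    obtain ⟨T, hT, h3⟩ := star_lp hw h hk (h1 _ hy) hq (fun τ hτ => by
      by_cases h : base I + 9 * k + τ ∈ S
      · exact (h1 _ h).ge
      · exact (h2 _ (by unfold NV; omega) h).le) S fun x hx => ⟨(hS x hx).le, h1 x hx⟩
    have h4 := loc_mem_cells hw hk ((by decide : ∀ T ∈ star, T ++ [8] ∈ locCells) T hT)
    refine ⟨_, h4, fun x => ?_⟩
    rw [Finset.eq_of_subset_of_card_le (fun x hx => List.mem_toFinset.2 (h3 x hx))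
      ((List.toFinset_card_le _).trans ((mem_cells.1 h4).1.2.1.le.trans hc)), List.mem_toFinset]
  simp only [not_exists, not_and, Bool.not_eq_true] at hA
  obtain ⟨S', a1, a2⟩ := Finset.exists_subset_card_eq hc
  have a3 : (S'.sort (· ≤ ·)).Nodup ∧ (S'.sort (· ≤ ·)).length = 4 ∧
      ∀ x ∈ S'.sort (· ≤ ·), x < NV I :=
    ⟨S'.sort_nodup _, by simp [a2], fun x hx => hS x (a1 (by simpa using hx))⟩
  have a4 : ∀ x ∈ S'.sort (· ≤ ·), x ∈ S := fun x hx => a1 (by simpa using hx)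
  have a5 : (S'.sort (· ≤ ·)).Pairwise (· ≤ ·) := S'.pairwise_sort _
  generalize S'.sort (· ≤ ·) = l at a3 a4 a5
  obtain ⟨w0, b1, b2⟩ := exists_w h a3
  have b3 : ∀ y ≤ NV I, y ∉ l → (dat I).A y = false → ∃ s ∈ [(1 : ℤ), -1],
      Sg I (l ++ [y]) s = true := fun y hy hy' h => sg_W (by simp [a3.2.1])
    (List.nodup_append.2 ⟨a3.1, by simp, fun a ha b hb e => hy' (List.mem_singleton.1 hb ▸ e ▸ ha)⟩)
    (List.forall_mem_append.2 ⟨fun x hx => (a3.2.2 x hx).le, by simpa using hy⟩)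
    (List.forall_mem_append.2 ⟨fun x hx => hA x (a4 x hx), by simpa using h⟩)
  have hq' : NV I ∉ l := fun h => lt_irrefl _ (a3.2.2 _ h)
  obtain ⟨s, hs, b4⟩ := b3 _ le_rfl hq' A_q
  obtain ⟨b5, b6⟩ := b2 _ le_rfl hq' s hs b4
  have b7 := sub_eq_zero.1 (b6 (evl (p (NV I)) w0 • w - evl (p (NV I)) w • w0)
    (fun x hx => by simp [b1 x hx, h1 x (a4 x hx)]) (by simp [mul_comm]))
  have b8 : ∀ y ≤ NV I, y ∉ l → (∃ s ∈ [(1 : ℤ), -1], Sg I (l ++ [y]) s = true) →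
      y ∉ S ∧ Sg I (l ++ [y]) s = true := by
    rintro y hy hy' ⟨s', hs', c1⟩
    have c2 := (b2 y hy hy' s' hs' c1).1
    have c3 := congrArg (evl (p y)) b7
    simp only [map_smul, smul_eq_mul] at c3
    have c4 : y ∉ S := fun h => by
      rw [h1 y h, mul_zero] at c3
      exact mul_ne_zero hq.ne' (right_ne_zero_of_mul c2.ne') c3.symm
    have c5 := h2 y hy c4
    refine ⟨c4, ?_⟩
    simp only [List.mem_cons, List.not_mem_nil, or_false] at hs hs'
    rcases hs with rfl | rfl <;> rcases hs' with rfl | rfl <;> try exact c1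
    all_goals
      push_cast at b5 c2
      nlinarith [mul_pos b5 c5, mul_pos hq c2]
  refine ⟨l, mem_cells.2 ⟨a3, s, hs, fun y hy => ?_⟩, fun x => ⟨fun hx => by_contra fun hx' =>
    (b8 x (hS x hx).le hx' (b3 x (hS x hx).le hx' (hA x hx))).1 hx, a4 x⟩⟩
  by_cases hy' : y ∈ l
  · exact Or.inl hy'
  right
  cases c1 : (dat I).A y
  · exact Or.inl (b8 y hy hy' (b3 y hy hy' c1)).2
  by_cases c2 : ∃ x ∈ l, x + 8 < y ∨ y < x
  · exact Or.inr ⟨rfl, fun x hx => hA x (a4 x hx), c2⟩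
  refine Or.inl (b8 y hy hy' ?_).2
  obtain ⟨k, hk, rfl⟩ := A_iff.1 c1
  match l, a3.2.1 with
  | [a, b, c, d], _ =>
  have c3 := a3.1
  simp at c2 a5 c3 hy'
  have := sg_sorted hw hk (a := a - (base I + 9 * k)) (b := b - (base I + 9 * k))
    (c := c - (base I + 9 * k)) (d := d - (base I + 9 * k)) (by omega) (by omega) (by omega)
    (by omega)
  simp only [List.map_cons, List.map_nil] at this
  rwa [Nat.add_sub_cancel' (by omega), Nat.add_sub_cancel' (by omega),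
    Nat.add_sub_cancel' (by omega), Nat.add_sub_cancel' (by omega)] at this

theorem ne_pole {x : ℕ} (hx : x < NV I) : p x ≠ p (NV I) := by
  have h0 : 6 ≤ base I ∧ base I ≤ NV I := by unfold NV base; omega
  cases c1 : (dat I).A x
  · obtain ⟨l, a1, a2, a3⟩ : ∃ l : List ℕ, (l.Nodup ∧ l.length = 4 ∧ ∀ x ∈ l, x < NV I) ∧ x ∈ l ∧
        ∀ x ∈ l, (dat I).A x = false := by
      have hA : ∀ z, z < 6 → (dat I).A z = false := fun z hz => by
        simp [dat, inB_false (I := I) (x := z) (by omega)]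
      by_cases h1 : x < 4
      · exact ⟨[0, 1, 2, 3], ⟨by decide, rfl, by simp; omega⟩, by simp; omega, by simp [hA]⟩
      · exact ⟨[x, 0, 1, 2], ⟨by simp; omega, rfl, by simp; omega⟩, by simp, by simp [hA, c1]⟩
    obtain ⟨w, b1, b2⟩ := exists_w h a1
    have hq' : NV I ∉ l := fun h => lt_irrefl _ (a1.2.2 _ h)
    obtain ⟨s, hs, b3⟩ := sg_W (I := I) (l := l ++ [NV I]) (by simp [a1.2.1])
      (List.nodup_append.2 ⟨a1.1, by simp, fun a ha b hb e =>
        hq' (List.mem_singleton.1 hb ▸ e ▸ ha)⟩)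
      (List.forall_mem_append.2 ⟨fun x hx => (a1.2.2 x hx).le, by simp⟩)
      (List.forall_mem_append.2 ⟨a3, by simp [A_q]⟩)
    intro e
    have := (b2 _ le_rfl hq' s hs b3).1
    rw [← e, b1 x a2, mul_zero] at this
    exact lt_irrefl _ this
  · obtain ⟨k, hk, rfl⟩ := A_iff.1 c1
    obtain ⟨u, u1, u2, -⟩ := star_w hw h hk (T := [0, 2, 3, 8]) (by decide)
    intro e
    rw [← e, u1 _ (by simp)] at u2
    exact zero_ne_one u2

end

end Pool.Agent.Lib.MP_8817b2_lc
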