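import Pool.Agent.Lib.MP_8817b2_lc.Defs
import Pool.Agent.Lib.MP_8817b2_lc.Fwd
import Pool.Agent.Lib.MP_8817b2_lc.Back

/-! Empty spheres in Euclidean space and the design. -/

namespace Pool.Agent.Lib.MP_8817b2_lc

open Finset

section
variable {d n : ℕ}

/-- Value at `z` of the equation `w` of a sphere or a hyperplane. -/
def val (z : EuclideanSpace ℝ (Fin d)) : (ℝ × (Fin d → ℝ) × ℝ) →ₗ[ℝ] ℝ where
  toFun w := w.1 + ∑ i, w.2.1 i * z i + w.2.2 * ∑ i, z i ^ 2
  map_add' w w' := by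
    simp only [Prod.fst_add, Prod.snd_add, Pi.add_apply, add_mul, sum_add_distrib]; ring
  map_smul' c w := by
    simp only [Prod.smul_fst, Prod.smul_snd, Pi.smul_apply, smul_eq_mul, RingHom.id_apply, mul_add,
      mul_sum, mul_assoc]

theorem val_apply (z : EuclideanSpace ℝ (Fin d)) (w : ℝ × (Fin d → ℝ) × ℝ) :
    val z w = w.1 + ∑ i, w.2.1 i * z i + w.2.2 * ∑ i, z i ^ 2 := rfl

theorem val_dist (c z : EuclideanSpace ℝ (Fin d)) (A : ℝ) :
    val z (A, fun i => -2 * c i, 1) = dist z c ^ 2 - (∑ i, c i ^ 2 - A) := by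
  rw [EuclideanSpace.dist_sq_eq, val_apply]
  simp only [Real.dist_eq, sq_abs, sub_sq, sum_add_distrib, sum_sub_distrib]
  rw [show ∑ i, -2 * c i * z i = -∑ i, 2 * z i * c i by
    rw [← sum_neg_distrib]; exact sum_congr rfl fun i _ => by ring]
  ring

theorem isCell_iff {p : Fin n → EuclideanSpace ℝ (Fin d)} {S : Set (Fin n)} (hS : S.Nonempty) :
    IsCell p S ↔ ∃ w : ℝ × (Fin d → ℝ) × ℝ, 0 < w.2.2 ∧ (∀ i ∈ S, val (p i) w = 0) ∧
      ∀ j ∉ S, 0 < val (p j) w := by
  obtain ⟨i0, hi0⟩ := hS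
  constructor
  · rintro ⟨c, r, h1, h2⟩
    refine ⟨(∑ i, c i ^ 2 - r ^ 2, fun i => -2 * c i, 1), one_pos, fun i hi => ?_, fun j hj => ?_⟩
    · rw [val_dist, h1 i hi]; ring
    · rw [val_dist, sub_sub_cancel, sub_pos]
      exact pow_lt_pow_left₀ (h2 j hj) (h1 i0 hi0 ▸ dist_nonneg) two_ne_zero
  · rintro ⟨⟨A, B, C⟩, h0, h1, h2⟩
    let c : EuclideanSpace ℝ (Fin d) := WithLp.toLp 2 fun i => -B i / (2 * C)
    have e : ∀ z, val z (A, B, C) = C * (dist z c ^ 2 - (∑ i, c i ^ 2 - A / C)) := fun z => by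
      rw [← val_dist, ← smul_eq_mul, ← map_smul]
      congr 1
      have := h0.ne'
      simp only [Prod.smul_mk, smul_eq_mul, mul_one, Prod.mk.injEq, and_true]
      refine ⟨by field_simp, funext fun i => ?_⟩
      simp only [c, Pi.smul_apply, smul_eq_mul]
      field_simp
    have e0 := (mul_eq_zero.1 (e _ ▸ h1 i0 hi0)).resolve_left h0.ne'
    refine ⟨c, dist (p i0) c, fun i hi => ?_, fun j hj => ?_⟩
    · have := (mul_eq_zero.1 (e _ ▸ h1 i hi)).resolve_left h0.ne'
      exact (pow_left_inj₀ dist_nonneg dist_nonneg two_ne_zero).1 (by linarith)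
    · have := (mul_pos_iff_of_pos_left h0).1 (e _ ▸ h2 j hj)
      exact lt_of_pow_lt_pow_left₀ 2 dist_nonneg (by linarith)

theorem spans_iff {T : Set (EuclideanSpace ℝ (Fin d))} : Spans T ↔ affineSpan ℝ T = ⊤ :=
  ⟨fun h => top_le_iff.1 fun x _ => h x, fun h x => h ▸ AffineSubspace.mem_top ℝ _ x⟩

theorem span_top_iff {T : Set (EuclideanSpace ℝ (Fin d))} (hT : T.Nonempty) :
    affineSpan ℝ T = ⊤ ↔ ∀ A B, (∀ z ∈ T, val z (A, B, 0) = 0) → A = 0 ∧ B = 0 := by
  constructor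
  · intro h A B h1
    have h2 : ∀ z, val z (A, B, 0) = 0 := fun z => by
      refine affineSpan_induction (k := ℝ) (p := fun z => val z (A, B, 0) = 0)
        (h ▸ AffineSubspace.mem_top ℝ _ z) h1 fun c u v w hu hv hw => ?_
      simp only [val_apply, zero_mul, add_zero, vsub_eq_sub, vadd_eq_add, PiLp.add_apply,
        PiLp.smul_apply, PiLp.sub_apply, smul_eq_mul] at hu hv hw ⊢
      rw [show ∑ i, B i * (c * (u i - v i) + w i) =
        c * (∑ i, B i * u i - ∑ i, B i * v i) + ∑ i, B i * w i by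
          rw [← sum_sub_distrib, mul_sum, ← sum_add_distrib]
          exact sum_congr rfl fun i _ => by ring]
      rw [show ∑ i, B i * u i = ∑ i, B i * v i by linarith]
      linarith
    have h3 : A = 0 := by simpa [val_apply] using h2 0
    refine ⟨h3, funext fun i => ?_⟩
    simpa [val_apply, h3, Pi.single_apply] using h2 (EuclideanSpace.single i 1)
  · intro h
    obtain ⟨z0, hz0⟩ := hT
    rw [AffineSubspace.affineSpan_eq_top_iff_vectorSpan_eq_top_of_nonempty _ _ _ ⟨z0, hz0⟩,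
      ← Submodule.orthogonal_eq_bot_iff, Submodule.eq_bot_iff]
    intro B hB
    have := (h (-∑ i, B i * z0 i) B fun z hz => by
      have := hB _ (vsub_mem_vectorSpan ℝ hz hz0)
      simp only [PiLp.inner_apply, vsub_eq_sub, PiLp.sub_apply, RCLike.inner_apply, conj_trivial,
        mul_sub, sum_sub_distrib] at this
      simp only [val_apply]
      linarith).2
    ext i
    exact congrFun this i

theorem card_of_span {p : Fin n → EuclideanSpace ℝ (Fin d)} {S : Finset (Fin n)}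
    (h : affineSpan ℝ (p '' S) = ⊤) : d + 1 ≤ S.card := by
  classical
  rcases hc : S.card with _ | m
  · rw [card_eq_zero.1 hc] at h
    simp at h
  · have := finrank_vectorSpan_image_finset_le ℝ p S hc
    rw [coe_image, AffineSubspace.vectorSpan_eq_top_of_affineSpan_eq_top _ _ _ h] at this
    simpa using this

end

/-- The cells in dimension `k + 3`. -/
def cellsD (k : ℕ) (I : Inst) : List (List ℕ) := (cells I).map fun l => l ++ List.range' (NV I) k

variable {I : Inst} {k : ℕ}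

theorem po_of_realizes (hw : WF I.1 I.2) {p : Fin (NV I + k) → EuclideanSpace ℝ (Fin (k + 3))}
    (h : Realizes p (cellsD k I)) : PO I.1 I.2 := by
  let P : ℕ → EuclideanSpace ℝ (Fin (k + 3)) := fun x => if h : x < NV I + k then p ⟨x, h⟩ else 0
  have hP : ∀ i : Fin (NV I + k), P i = p i := fun i => dif_pos i.2
  let U : Submodule ℝ (ℝ × (Fin (k + 3) → ℝ) × ℝ) :=
    ⨅ x ∈ List.range' (NV I) k, LinearMap.ker (val (P x))
  have hU : ∀ w, w ∈ U ↔ ∀ x ∈ List.range' (NV I) k, val (P x) w = 0 := fun w => by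
    simp only [U, Submodule.mem_iInf, LinearMap.mem_ker]
  refine sound (ev := fun x => (val (P x)).comp U.subtype) (fun l hl => ?_) hw
  have hl' := (mem_cells.1 hl).1
  obtain ⟨h1, h2⟩ := (h.2.1 _).2 ⟨_, List.mem_map_of_mem hl, rfl⟩
  rw [spans_iff] at h2
  have h3 : (p '' {i : Fin (NV I + k) | (i : ℕ) ∈ l ++ List.range' (NV I) k}).Nonempty :=
    AffineSubspace.nonempty_of_affineSpan_eq_top _ _ _ h2
  obtain ⟨w, w1, w2, w3⟩ := (isCell_iff h3.of_image).1 h1
  have w4 : ∀ x ∈ l ++ List.range' (NV I) k, val (P x) w = 0 := fun x hx => by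
    have : x < NV I + k := by
      rcases List.mem_append.1 hx with h | h
      · have := hl'.2.2 x h; omega
      · exact (List.mem_range'_1.1 h).2
    exact hP ⟨x, this⟩ ▸ w2 ⟨x, this⟩ hx
  have w5 : ∀ y < NV I, y ∉ l → 0 < val (P y) w := fun y hy hy' =>
    hP ⟨y, by omega⟩ ▸ w3 ⟨y, by omega⟩ (by simp [hy']; omega)
  refine ⟨⟨⟨w, (hU w).2 fun x hx => w4 x (List.mem_append_right _ hx)⟩,
    fun x hx => w4 x (List.mem_append_left _ hx), w5⟩, fun y hy hy' v v1 v2 z _ => ?_⟩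
  obtain ⟨⟨A, B, C⟩, hv⟩ := v
  simp only [LinearMap.comp_apply, Submodule.subtype_apply] at v1 v2 ⊢
  have e : ((A - C / w.2.2 * w.1, B - (C / w.2.2) • w.2.1, 0) : ℝ × (Fin (k + 3) → ℝ) × ℝ) =
      (A, B, C) - (C / w.2.2) • w := by
    ext <;> simp [w1.ne']
  obtain ⟨a1, a2⟩ := (span_top_iff h3).1 h2 (A - C / w.2.2 * w.1) (B - (C / w.2.2) • w.2.1) (by
    rintro _ ⟨i, hi, rfl⟩
    rw [e, map_sub, map_smul, w2 i hi, smul_zero, sub_zero, ← hP]
    exact (List.mem_append.1 hi).elim (v1 _) ((hU _).1 hv _))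
  rw [a1, a2, eq_comm, ← Prod.zero_eq_mk, ← Prod.zero_eq_mk, sub_eq_zero] at e
  rw [e, map_smul] at v2 ⊢
  rw [(smul_eq_zero.1 v2).resolve_right (w5 y hy hy').ne', zero_smul]

def mk3 (v : V3) (u : Fin k → ℝ) : Fin (k + 3) → ℝ :=
  Matrix.vecCons v.1 (Matrix.vecCons v.2.1 (Matrix.vecCons v.2.2 u))

theorem val_mk3 (A C : ℝ) (B v : V3) (b u : Fin k → ℝ) :
    val (WithLp.toLp 2 (mk3 v u)) (A, mk3 B b, C) = A + (B.1 * v.1 + B.2.1 * v.2.1 + B.2.2 * v.2.2 +
      ∑ i, b i * u i) + C * (sq3 v + ∑ i, u i ^ 2) := by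
  simp only [val_apply, mk3, Fin.sum_univ_succ, Matrix.cons_val_zero, Matrix.cons_val_succ, sq3,
    add_assoc]

theorem exists_mk3 (B : Fin (k + 3) → ℝ) : ∃ v u, B = mk3 v u :=
  ⟨(B 0, B (Fin.succ 0), B (Fin.succ (Fin.succ 0))), fun i => B i.succ.succ.succ, by
    funext i
    refine Fin.cases rfl (fun i => Fin.cases rfl (fun i => Fin.cases rfl (fun i => rfl) i) i) i⟩

theorem realizes_of_po (hw : WF I.1 I.2) (hn : 0 < I.1) (h : PO I.1 I.2) :
    ∃ p : Fin (NV I + k) → EuclideanSpace ℝ (Fin (k + 3)), Realizes p (cellsD k I) := by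
  classical
  obtain ⟨p, hp⟩ := realize hw hn h
  have hω : ∀ x < NV I, 0 < sq3 (p x - p (NV I)) := fun x hx => by
    obtain ⟨v, hv⟩ := lorentz (p (NV I))
    by_contra h
    refine ne_pole hw hp hx (sub_eq_zero.1 ?_)
    unfold sq3 at h
    refine Prod.ext ?_ (Prod.ext ?_ ?_) <;> simp only [Prod.fst_zero, Prod.snd_zero] <;>
      nlinarith [sq_nonneg (p x - p (NV I)).1, sq_nonneg (p x - p (NV I)).2.1,
        sq_nonneg (p x - p (NV I)).2.2]
  let f : ℝ → V3 → ℝ → V3 → ℝ := fun A B C z => lf (C, B, A) (z - p (NV I)) (sq3 (z - p (NV I)))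
  have f1 : ∀ A B C, ∃ w, ∀ z, evl z w = f A B C z := fun A B C =>
    ⟨(f A B C 0, B - (2 * A) • p (NV I), A), fun z => by simp [evl, f, lf, sq3]; ring⟩
  have f2 : ∀ w, ∃ A B C, ∀ z, evl z w = f A B C z := fun w =>
    ⟨w.2.2, w.2.1 + (2 * w.2.2) • p (NV I), evl (p (NV I)) w, fun z => by
      simp [evl, f, lf, sq3]; ring⟩
  have f3 : ∀ A B C, f A B C (p (NV I)) = C := fun A B C => by simp [f, lf, sq3]
  let P : Fin (NV I + k) → EuclideanSpace ℝ (Fin (k + 3)) := fun i => WithLp.toLp 2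
    (if h : (i : ℕ) < NV I then mk3 ((sq3 (p i - p (NV I)))⁻¹ • (p i - p (NV I))) 0
    else mk3 0 (Pi.single ⟨i - NV I, by omega⟩ 1))
  have P1 : ∀ (i : Fin (NV I + k)), (i : ℕ) < NV I → ∀ A B b C,
      sq3 (p i - p (NV I)) * val (P i) (A, mk3 B b, C) = f A B C (p i) := fun i hi A B b C => by
    have := (hω i hi).ne'
    have e : sq3 ((sq3 (p i - p (NV I)))⁻¹ • (p i - p (NV I))) = (sq3 (p i - p (NV I)))⁻¹ := by
      generalize hs : sq3 (p i - p (NV I)) = s at this ⊢
      rw [show sq3 (s⁻¹ • (p i - p (NV I))) = s⁻¹ ^ 2 * sq3 (p i - p (NV I)) by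
        simp only [sq3, Prod.smul_fst, Prod.smul_snd, smul_eq_mul]; ring, hs]
      field_simp
    simp only [P, hi, dif_pos, val_mk3, e, f, lf, Prod.smul_fst, Prod.smul_snd, smul_eq_mul,
      Pi.zero_apply]
    simp; field_simp; ring
  have P2 : ∀ (i : Fin (NV I + k)) (hi : ¬ (i : ℕ) < NV I) A B b C,
      val (P i) (A, mk3 B b, C) = A + b ⟨i - NV I, by omega⟩ + C := fun i hi A B b C => by
    simp [P, hi, val_mk3, sq3, Pi.single_apply]
  have key : ∀ l ∈ cells I, IsCell P {i | (i : ℕ) ∈ l ++ List.range' (NV I) k} ∧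
      affineSpan ℝ (P '' {i | (i : ℕ) ∈ l ++ List.range' (NV I) k}) = ⊤ := fun l hl => by
    have hl' := (mem_cells.1 hl).1
    obtain ⟨a1, w, a2, a3⟩ := cell_facet hw hp hl
    have hne : {i : Fin (NV I + k) | (i : ℕ) ∈ l ++ List.range' (NV I) k}.Nonempty := by
      obtain ⟨x, hx⟩ := List.exists_mem_of_length_pos (l := l) (by omega)
      exact ⟨⟨x, by have := hl'.2.2 x hx; omega⟩, List.mem_append_left _ hx⟩
    obtain ⟨A, B, C, e⟩ := f2 w
    refine ⟨(isCell_iff hne).2 ⟨(A, mk3 B fun _ => -(A + C), C), ?_, fun i hi => ?_,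
      fun i hi => ?_⟩, (span_top_iff (hne.image _)).2 fun A B hAB => ?_⟩
    · exact f3 A B C ▸ e _ ▸ a3 _ le_rfl fun h => lt_irrefl _ (hl'.2.2 _ h)
    · by_cases h : (i : ℕ) < NV I
      · refine (mul_eq_zero.1 ?_).resolve_left (hω i h).ne'
        rw [P1 i h, ← e, a2 _ ((List.mem_append.1 hi).resolve_right (by simp; omega))]
      · rw [P2 i h]; ring
    · have h : (i : ℕ) < NV I := by
        by_contra h
        exact hi (List.mem_append_right _ (List.mem_range'_1.2 ⟨by omega, i.2⟩))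
      refine (mul_pos_iff_of_pos_left (hω i h)).1 ?_
      rw [P1 i h, ← e]
      exact a3 _ h.le fun h => hi (List.mem_append_left _ h)
    · obtain ⟨B, b, rfl⟩ := exists_mk3 B
      obtain ⟨v, hv⟩ := f1 A B 0
      have h1 := a1 v (fun x hx => by
        have := hl'.2.2 x hx
        rw [hv, ← P1 ⟨x, by omega⟩ this A B b 0,
          hAB _ ⟨⟨x, by omega⟩, List.mem_append_left _ hx, rfl⟩, mul_zero]) (by rw [hv, f3])
      have h2 : ∀ z, lf (0, B, A) z (sq3 z) = 0 := fun z => by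
        simpa [h1, f] using (hv (z + p (NV I))).symm
      have b1 := h2 (1, 0, 0)
      have b2 := h2 (-1, 0, 0)
      have b3 := h2 (0, 1, 0)
      have b4 := h2 (0, 0, 1)
      simp [lf, sq3] at b1 b2 b3 b4
      have hA : A = 0 := by linarith
      have hb : b = 0 := funext fun j => by
        have := hAB _ ⟨⟨NV I + j, by omega⟩, List.mem_append_right _
          (List.mem_range'_1.2 ⟨by simp, by simp⟩), rfl⟩
        rw [P2 _ (by simp)] at this
        simpa [hA] using this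
      have hB : B = 0 := Prod.ext (by simp; linarith) (Prod.ext (by simp; linarith)
        (by simp; linarith))
      exact ⟨hA, by simp [hB, hb, mk3]⟩
  simp only [Realizes, spans_iff]
  refine ⟨P, ?_, fun S => ⟨fun ⟨h1, h2⟩ => ?_, ?_⟩, fun i => ⟨{j | P j = P i}, ⟨P i, 0,
    fun j hj => dist_eq_zero.2 hj, fun j hj => dist_pos.2 hj⟩, rfl⟩⟩
  · have := cons_low (I := I) (x := 2) le_rfl (by omega)
    exact top_le_iff.1 ((key _ (uv_mem_cells this.1 this.2.1 this.2.2.1 this.2.2.2)).2 ▸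
      affineSpan_mono ℝ (Set.image_subset_range _ _))
  · have h3 := AffineSubspace.nonempty_of_affineSpan_eq_top _ _ _ h2
    obtain ⟨⟨A, B, C⟩, w1, w2, w3⟩ := (isCell_iff h3.of_image).1 h1
    obtain ⟨B, b, rfl⟩ := exists_mk3 B
    obtain ⟨v, hv⟩ := f1 A B C
    have h4 : ∀ i : Fin (NV I + k), ¬ (i : ℕ) < NV I → i ∈ S := fun i hi => by
      by_contra h
      have := ((span_top_iff h3).1 h2 0 (mk3 0 (Pi.single ⟨i - NV I, by omega⟩ 1)) (by
        rintro _ ⟨j, hj, rfl⟩
        by_cases hj' : (j : ℕ) < NV I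
        · refine (mul_eq_zero.1 ?_).resolve_left (hω j hj').ne'
          rw [P1 j hj']; simp [f, lf]
        · rw [P2 j hj', Pi.single_eq_of_ne, add_zero, add_zero]
          intro e
          have := Fin.mk.inj e
          exact h (Fin.ext (show (j : ℕ) = i by omega) ▸ hj))).2
      simpa [mk3] using congrFun this (Fin.succ (Fin.succ (Fin.succ ⟨i - NV I, by omega⟩)))
    let S' := (range (NV I)).filter fun x => ∃ h : x < NV I + k, ⟨x, h⟩ ∈ S
    have h5 : 4 ≤ S'.card := by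
      have a1 := card_of_span (p := P) (S := S.toFinset) (by simpa using h2)
      have a2 : S.toFinset.map Fin.valEmbedding ⊆ S' ∪ Ico (NV I) (NV I + k) := fun x hx => by
        obtain ⟨i, hi, rfl⟩ := mem_map.1 hx
        by_cases h : (i : ℕ) < NV I
        · exact mem_union_left _ (mem_filter.2 ⟨mem_range.2 h, i.2, by simpa using hi⟩)
        · exact mem_union_right _ (mem_Ico.2 ⟨not_lt.1 h, i.2⟩)
      have a3 := (card_le_card a2).trans (card_union_le _ _)
      simp only [card_map, Nat.card_Ico] at a3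
      omega
    obtain ⟨l, hl, e⟩ := facet_cell hw hp (S := S') (w := v)
      (fun x hx => mem_range.1 (mem_filter.1 hx).1) h5 (fun x hx => by
        obtain ⟨a1, a2, a3⟩ := mem_filter.1 hx
        rw [hv, ← P1 ⟨x, a2⟩ (mem_range.1 a1) A B b C, w2 _ a3, mul_zero]) fun y hy hy' => by
        rcases hy.lt_or_eq with hy | rfl
        · rw [hv, ← P1 ⟨y, by omega⟩ hy A B b C]
          exact mul_pos (hω y hy) (w3 _ fun h => hy' (mem_filter.2 ⟨mem_range.2 hy, _, h⟩))
        · rwa [hv, f3]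
    refine ⟨_, List.mem_map_of_mem hl, Set.ext fun i => ?_⟩
    by_cases h : (i : ℕ) < NV I
    · simp [← e, S', h]
    · exact iff_of_true (h4 i h) (List.mem_append_right _ (List.mem_range'_1.2 ⟨by omega, i.2⟩))
  · rintro ⟨_, hl, rfl⟩
    obtain ⟨l, hl', rfl⟩ := List.mem_map.1 hl
    exact key l hl'

theorem wf_cellsD : ∀ l ∈ cellsD k I, l.Nodup ∧ l.length = k + 3 + 1 ∧ ∀ i ∈ l, i < NV I + k := by
  refine List.forall_mem_map.2 fun l hl => ?_
  obtain ⟨h1, h2, h3⟩ := (mem_cells.1 hl).1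
  refine ⟨List.nodup_append.2 ⟨h1, List.nodup_range' .., fun a ha b hb => ?_⟩, by simp [h2]; omega,
    fun i hi => ?_⟩
  · have := h3 a ha
    have := List.mem_range'_1.1 hb
    omega
  · rcases List.mem_append.1 hi with h | h
    · have := h3 i h; omega
    · exact (List.mem_range'_1.1 h).2

end Pool.Agent.Lib.MP_8817b2_lc
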