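import Pool.Agent.Lib.MP_8817b2_lc.Bridge

/-! A certificate for being the Delaunay triangulation of a point set. -/

namespace Pool.Agent.Lib.MP_8817b2_lc

open Finset

variable {d n : ℕ} {p : Fin n → EuclideanSpace ℝ (Fin d)}

theorem Spans.nonempty {S : Set (Fin n)} (h : Spans (p '' S)) : S.Nonempty :=
  (AffineSubspace.nonempty_of_affineSpan_eq_top _ _ _ (spans_iff.1 h)).of_image

theorem Spans.dual {S : Set (Fin n)} (h : Spans (p '' S)) {A : ℝ} {B : Fin d → ℝ}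
    (h1 : ∀ i ∈ S, val (p i) (A, B, 0) = 0) : A = 0 ∧ B = 0 :=
  (span_top_iff (h.nonempty.image _)).1 (spans_iff.1 h) A B (Set.forall_mem_image.2 h1)

theorem not_spans {S : Set (Fin n)} (hS : S.Nonempty) (h : ¬ Spans (p '' S)) :
    ∃ A B, (∀ i ∈ S, val (p i) (A, B, 0) = 0) ∧ ¬ (A = 0 ∧ B = 0) := by
  rw [spans_iff, span_top_iff (hS.image _)] at h
  simpa only [not_forall, exists_prop, Set.forall_mem_image] using h

theorem Spans.prop {S : Set (Fin n)} (h : Spans (p '' S)) {w v : ℝ × (Fin d → ℝ) × ℝ}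
    (hw : ∀ i ∈ S, val (p i) w = 0) (hv : ∀ i ∈ S, val (p i) v = 0) (h0 : w.2.2 ≠ 0) :
    v = (v.2.2 / w.2.2) • w := by
  have e : ((v.1 - v.2.2 / w.2.2 * w.1, v.2.1 - (v.2.2 / w.2.2) • w.2.1, 0) :
      ℝ × (Fin d → ℝ) × ℝ) = v - (v.2.2 / w.2.2) • w := by
    ext <;> simp [h0]
  obtain ⟨a1, a2⟩ := h.dual (A := v.1 - v.2.2 / w.2.2 * w.1)
    (B := v.2.1 - (v.2.2 / w.2.2) • w.2.1) fun i hi => by
      rw [e, map_sub, map_smul, hw i hi, hv i hi, smul_zero, sub_zero]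
  rwa [a1, a2, eq_comm, ← Prod.zero_eq_mk, ← Prod.zero_eq_mk, sub_eq_zero] at e

theorem Spans.sub {S : Set (Fin n)} (h : Spans (p '' S)) : ∃ t : List ℕ, t.length = d + 1 ∧
    (∀ i ∈ t, i < n) ∧ {i : Fin n | (i : ℕ) ∈ t} ⊆ S ∧ Spans (p '' {i | (i : ℕ) ∈ t}) := by
  classical
  obtain ⟨T, h1, h2, h3⟩ := exists_affineIndependent ℝ (EuclideanSpace ℝ (Fin d)) (p '' S)
  rw [spans_iff.1 h] at h2
  have := ((Set.toFinite (p '' S)).subset h1).fintype
  have h4 := AffineBasis.card_eq_finrank_add_one (k := ℝ) ⟨Subtype.val, h3, by simpa using h2⟩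
  choose g g1 g2 using fun x : T => h1 x.2
  refine ⟨(univ : Finset T).toList.map fun x => (g x : ℕ), by simpa using h4,
    List.forall_mem_map.2 fun x _ => (g x).2, fun i hi => ?_, spans_iff.2 (top_le_iff.1 ?_)⟩
  · obtain ⟨x, -, e⟩ := List.mem_map.1 hi
    exact Fin.ext e ▸ g1 x
  · exact h2 ▸ affineSpan_mono ℝ fun x hx => ⟨g ⟨x, hx⟩,
      List.mem_map.2 ⟨⟨x, hx⟩, mem_toList.2 (mem_univ _), rfl⟩, g2 _⟩

theorem exists_full (h : Spans (Set.range p)) (i : Fin n) :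
    ∃ S, IsCell p S ∧ Spans (p '' S) ∧ i ∈ S := by
  classical
  obtain ⟨S, ⟨h1, h2⟩, h3⟩ := Set.exists_max_image {S : Set (Fin n) | IsCell p S ∧ i ∈ S}
    Set.ncard (Set.toFinite _) ⟨{j | p j = p i}, ⟨p i, 0, fun j hj => dist_eq_zero.2 hj,
      fun j hj => dist_pos.2 hj⟩, rfl⟩
  refine ⟨S, h1, by_contra fun hn => ?_, h2⟩
  obtain ⟨w, w1, w2, w3⟩ := (isCell_iff ⟨i, h2⟩).1 h1
  obtain ⟨A, B, a1, j, a2⟩ : ∃ A B, (∀ i ∈ S, val (p i) (A, B, 0) = 0) ∧
      ∃ j, 0 < val (p j) (A, B, 0) := by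
    obtain ⟨A, B, a1, a2⟩ := not_spans ⟨i, h2⟩ hn
    obtain ⟨j, hj⟩ : ∃ j, val (p j) (A, B, 0) ≠ 0 := by
      by_contra! hc
      exact a2 (Spans.dual (S := Set.univ) (by rwa [Set.image_univ]) fun j _ => hc j)
    have e : ∀ z, val z (-A, -B, 0) = -val z (A, B, 0) := fun z => by rw [← map_neg]; simp
    rcases hj.lt_or_gt with hj | hj
    · exact ⟨-A, -B, fun i hi => by rw [e, a1 i hi, neg_zero], j, by rw [e]; linarith⟩
    · exact ⟨A, B, a1, j, hj⟩
  obtain ⟨j0, b1, b2⟩ := Set.exists_min_image {j | 0 < val (p j) (A, B, 0)}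
    (fun j => val (p j) w / val (p j) (A, B, 0)) (Set.toFinite _) ⟨j, a2⟩
  have b3 : j0 ∉ S := fun h => ne_of_gt b1 (a1 j0 h)
  obtain ⟨t, ht⟩ : ∃ t, t = val (p j0) w / val (p j0) (A, B, 0) := ⟨_, rfl⟩
  have e : ∀ j, val (p j) (w - t • (A, B, 0)) = val (p j) w - t * val (p j) (A, B, 0) :=
    fun j => by rw [map_sub, map_smul, smul_eq_mul]
  have hs : S ⊆ {j | val (p j) (w - t • (A, B, 0)) = 0} := fun j hj => by
    simp only [Set.mem_ofPred_eq, e, w2 j hj, a1 j hj, mul_zero, sub_zero]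
  refine (h3 {j | val (p j) (w - t • (A, B, 0)) = 0} ⟨(isCell_iff ⟨i, hs h2⟩).2
    ⟨w - t • (A, B, 0), by simpa using w1, fun _ h => h, fun j hj => ?_⟩, hs h2⟩).not_gt
    (Set.ncard_lt_ncard ⟨hs, fun h => b3 (h ?_)⟩)
  · refine lt_of_le_of_ne ?_ (Ne.symm hj)
    have c1 := w3 j fun h => hj (hs h)
    rw [e]
    rcases lt_or_ge 0 (val (p j) (A, B, 0)) with h | h
    · have := b2 j h
      rw [← ht, le_div_iff₀ h] at this
      linarith
    · have := mul_nonpos_of_nonneg_of_nonpos (ht ▸ (div_pos (w3 j0 b3) b1).le) h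
      linarith
  · rw [Set.mem_ofPred_eq, e, ht, div_mul_cancel₀ _ (ne_of_gt b1), sub_self]

theorem realizes_iff {F : List (List ℕ)} (hF : ∀ l ∈ F, l.length = d + 1) :
    Realizes p F ↔ F ≠ [] ∧
      (∀ l ∈ F, IsCell p {i | (i : ℕ) ∈ l} ∧ Spans (p '' {i | (i : ℕ) ∈ l})) ∧
      ∀ t : List ℕ, t.length = d + 1 → (∀ i ∈ t, i < n) →
        (∃ l ∈ F, ∀ j < n, j ∈ t ↔ j ∈ l) ∨
        ∃ w, (∀ j : Fin n, (j : ℕ) ∈ t → val (p j) w = 0) ∧
          ((w.2.2 = 0 ∧ w ≠ 0) ∨ (0 < w.2.2 ∧ ∃ j, val (p j) w < 0)) := by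
  classical
  constructor
  · rintro ⟨h1, h2, -⟩
    refine ⟨?_, fun l hl => (h2 _).2 ⟨l, hl, rfl⟩, fun t ht ht' => ?_⟩
    · obtain ⟨i, -⟩ := Spans.nonempty (p := p) (S := Set.univ) (by rwa [Set.image_univ])
      obtain ⟨S, a1, a2, -⟩ := exists_full h1 i
      obtain ⟨l, hl, -⟩ := (h2 S).1 ⟨a1, a2⟩
      exact List.ne_nil_of_mem hl
    obtain ⟨w, w1, w2, w3⟩ : ∃ w, (∀ j : Fin n, (j : ℕ) ∈ t → val (p j) w = 0) ∧ w ≠ 0 ∧
        0 ≤ w.2.2 := by
      obtain ⟨w, w1, w2⟩ := (Submodule.ne_bot_iff _).1 (LinearMap.ker_ne_bot_of_finrank_lt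
        (f := LinearMap.pi fun r : Fin t.length => val (p ⟨t[r], ht' _ (List.getElem_mem _)⟩))
        (by simp [ht]))
      have w3 : ∀ j : Fin n, (j : ℕ) ∈ t → val (p j) w = 0 := fun j hj => by
        obtain ⟨r, hr, e⟩ := List.getElem_of_mem hj
        simpa [e] using congrFun w1 ⟨r, hr⟩
      rcases le_total 0 w.2.2 with h | h
      · exact ⟨w, w3, w2, h⟩
      · exact ⟨-w, fun j hj => by rw [map_neg, w3 j hj, neg_zero], neg_ne_zero.2 w2, by simpa⟩
    by_contra! hc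
    have c1 := hc.2 w w1
    have c2 := w3.lt_of_ne fun h => w2 (c1.1 h.symm)
    have hne : {i : Fin n | (i : ℕ) ∈ t}.Nonempty := by
      obtain ⟨x, hx⟩ := List.exists_mem_of_length_pos (l := t) (by omega)
      exact ⟨⟨x, ht' x hx⟩, hx⟩
    have c3 : Spans (p '' {i | (i : ℕ) ∈ t}) := by_contra fun hn => by
      obtain ⟨A, B, a1, a2⟩ := not_spans hne hn
      exact a2 (by simpa using (hc.2 (A, B, 0) a1).1 rfl)
    have hs : {i : Fin n | (i : ℕ) ∈ t} ⊆ {j | val (p j) w = 0} := w1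
    obtain ⟨l, hl, e⟩ := (h2 {j | val (p j) w = 0}).1 ⟨(isCell_iff (hne.mono hs)).2
      ⟨w, c2, fun _ h => h, fun j hj => (c1.2 c2 j).lt_of_ne (Ne.symm hj)⟩,
      fun x => affineSpan_mono ℝ (Set.image_mono hs) (c3 x)⟩
    obtain ⟨j, hj, c4⟩ := hc.1 l hl
    have c5 := card_of_span (p := p) (S := {i : Fin n | (i : ℕ) ∈ t})
      (by simpa using spans_iff.1 c3)
    have c6 : (({i | (i : ℕ) ∈ t} : Finset (Fin n)).map Fin.valEmbedding) = l.toFinset := by
      refine eq_of_subset_of_card_le (fun x hx => ?_) ?_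
      · obtain ⟨i, hi, rfl⟩ := mem_map.1 hx
        exact List.mem_toFinset.2 ((e ▸ hs) (mem_filter.1 hi).2)
      · rw [card_map]
        exact (List.toFinset_card_le _).trans (hF l hl ▸ c5)
    have : j ∈ t ↔ j ∈ l := by
      rw [← List.mem_toFinset (l := l), ← c6]
      exact ⟨fun h => mem_map.2 ⟨⟨j, hj⟩, by simpa using h, rfl⟩, fun h => by
        obtain ⟨i, hi, rfl⟩ := mem_map.1 h
        exact (mem_filter.1 hi).2⟩
    tauto
  · rintro ⟨h1, h2, h3⟩
    obtain ⟨l0, hl0⟩ := List.exists_mem_of_ne_nil F h1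
    refine ⟨fun x => affineSpan_mono ℝ (Set.image_subset_range _ _) ((h2 l0 hl0).2 x),
      fun S => ⟨fun ⟨a1, a2⟩ => ?_, ?_⟩, fun i => ⟨{j | p j = p i}, ⟨p i, 0,
      fun j hj => dist_eq_zero.2 hj, fun j hj => dist_pos.2 hj⟩, rfl⟩⟩
    · obtain ⟨t, t1, t2, t3, t4⟩ := a2.sub
      obtain ⟨w, w1, w2, w3⟩ := (isCell_iff a2.nonempty).1 a1
      rcases h3 t t1 t2 with ⟨l, hl, e⟩ | ⟨v, v1, ⟨v2, v3⟩ | ⟨v2, j, v3⟩⟩
      · obtain ⟨v, v1, v2, v3⟩ := (isCell_iff (h2 l hl).2.nonempty).1 (h2 l hl).1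
        have e' := t4.prop (fun i hi => w2 i (t3 hi)) (fun i hi => v2 i ((e i i.2).1 hi)) w1.ne'
        refine ⟨l, hl, Set.ext fun i => ⟨fun hi => by_contra fun hn => ?_,
          fun hi => t3 ((e i i.2).2 hi)⟩⟩
        have := v3 i hn
        rw [e', map_smul, w2 i hi, smul_zero] at this
        exact this.false
      · have e' := t4.prop (fun i hi => w2 i (t3 hi)) v1 w1.ne'
        rw [v2, zero_div, zero_smul] at e'
        exact absurd e' v3
      · rw [t4.prop (fun i hi => w2 i (t3 hi)) v1 w1.ne', map_smul] at v3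
        refine absurd v3 (mul_nonneg (div_pos v2 w1).le ?_).not_gt
        by_cases hj : j ∈ S
        · exact (w2 j hj).ge
        · exact (w3 j hj).le
    · rintro ⟨l, hl, rfl⟩
      exact h2 l hl

theorem le_of_realizes {F : List (List ℕ)} (h : Realizes p F) : n ≤ F.flatten.length := by
  classical
  refine le_trans ?_ (List.toFinset_card_le _)
  rw [← card_range n]
  refine card_le_card fun i hi => ?_
  obtain ⟨S, a1, a2, a3⟩ := exists_full h.1 ⟨i, mem_range.1 hi⟩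
  obtain ⟨l, hl, rfl⟩ := (h.2.1 S).1 ⟨a1, a2⟩
  exact List.mem_toFinset.2 (List.mem_flatten.2 ⟨l, hl, a3⟩)

theorem spans_cert {S : Set (Fin n)} [DecidablePred (· ∈ S)] : Spans (p '' S) ↔
    ∀ r < d + 1, ∃ μ : Fin n → ℝ, ∑ j, (if j ∈ S then μ j else 0) = 1 ∧
      ∀ k : Fin d, ∑ j, (if j ∈ S then μ j * p j k else 0) = if (k : ℕ) = r then 1 else 0 := by
  classical
  constructor
  · intro h r _
    refine affineSpan_induction (k := ℝ) (p := fun z => ∃ μ : Fin n → ℝ,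
      ∑ j, (if j ∈ S then μ j else 0) = 1 ∧
      ∀ k : Fin d, ∑ j, (if j ∈ S then μ j * p j k else 0) = z k)
      (h (WithLp.toLp 2 fun k => if (k : ℕ) = r then 1 else 0)) ?_ ?_
    · rintro _ ⟨i, hi, rfl⟩
      refine ⟨Pi.single i 1, ?_, fun k => ?_⟩ <;>
        rw [sum_eq_single i (fun j _ hj => by simp [hj]) (by simp)] <;> simp [hi]
    · rintro c u v w ⟨a, a1, a2⟩ ⟨b, b1, b2⟩ ⟨e, e1, e2⟩
      refine ⟨fun j => c * (a j - b j) + e j, ?_, fun k => ?_⟩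
      · rw [show (1 : ℝ) = c * (1 - 1) + 1 by ring]
        nth_rw 1 [← a1, ← b1, ← e1]
        rw [← sum_sub_distrib, mul_sum, ← sum_add_distrib]
        exact sum_congr rfl fun j _ => by split_ifs <;> ring
      · simp only [vsub_eq_sub, vadd_eq_add, PiLp.add_apply, PiLp.smul_apply, PiLp.sub_apply,
          smul_eq_mul, ← a2, ← b2, ← e2]
        rw [← sum_sub_distrib, mul_sum, ← sum_add_distrib]
        exact sum_congr rfl fun j _ => by split_ifs <;> ring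
  · intro h
    have hne : S.Nonempty := by
      obtain ⟨μ, h1, -⟩ := h d (by omega)
      obtain ⟨j, -, hj⟩ := exists_ne_zero_of_sum_ne_zero (h1 ▸ one_ne_zero)
      exact ⟨j, by_contra fun hn => hj (if_neg hn)⟩
    refine spans_iff.2 ((span_top_iff (hne.image _)).2 fun A B hAB => ?_)
    have key : ∀ r < d + 1, A + ∑ k : Fin d, B k * (if (k : ℕ) = r then 1 else 0) = 0 :=
      fun r hr => by
        obtain ⟨μ, h1, h2⟩ := h r hr
        simp only [← h2]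
        rw [← mul_one A, ← h1]
        simp only [mul_sum]
        rw [sum_comm, ← sum_add_distrib]
        refine sum_eq_zero fun j _ => ?_
        split_ifs with hj
        · have := hAB _ ⟨j, hj, rfl⟩
          simp only [val_apply, zero_mul, add_zero] at this
          simp only [mul_left_comm _ (μ j), ← mul_sum]
          rw [mul_comm A, ← mul_add, this, mul_zero]
        · simp
    have hA : A = 0 := by simpa [Nat.ne_of_lt (Fin.is_lt _)] using key d (by omega)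
    exact ⟨hA, funext fun k => by simpa [hA, Fin.val_inj] using key k (by omega)⟩

end Pool.Agent.Lib.MP_8817b2_lc
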