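import Pool.Agent.Lib.MP_8817b2_lc.Design

/-! Combinatorial facts on the design. -/

namespace Pool.Agent.Lib.MP_8817b2_lc

variable {I : Inst}

theorem tab_spec : ∀ p ∈ tab, p.1 < 5 ∧ p.2.1 < 5 ∧ p.2.2.1 < 5 ∧ p.2.2.2.1 < 5 ∧ p.2.2.2.2.1 < 5 ∧
    [p.1, p.2.1, p.2.2.1, p.2.2.2.1, p.2.2.2.2.1].Nodup ∧ (p.2.2.2.2.2 = 1 ∨ p.2.2.2.2.2 = -1) ∧
    ∀ q ∈ tab, q.1 = p.1 → q.2.1 = p.2.1 → q = p := by decide

theorem dom_iff {E : Tb → ℤ} {p : Tb} : dom E p = true ↔ ∀ q ∈ tab, q = p ∨ E q < E p := by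
  simp only [dom, List.all_eq_true, Bool.or_eq_true, decide_eq_true_eq]

theorem sg_iff {l : List ℕ} {s : ℤ} : Sg I l s = true ↔ ∃ p ∈ tab,
    (∀ q ∈ tab, q = p ∨ ex (eG I) (vG I) l q < ex (eG I) (vG I) l p) ∧
      p.2.2.2.2.2 * at3 (dat I).s3 l p = s := by
  simp only [Sg, List.any_eq_true, Bool.and_eq_true, decide_eq_true_eq, dom_iff]

theorem inB_iff {x : ℕ} : inB I x = true ↔ base I ≤ x ∧ x < NV I := by simp [inB]

theorem inB_false {x : ℕ} (h : x < base I ∨ NV I ≤ x) : inB I x = false := by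
  rw [← Bool.not_eq_true, inB_iff]; omega

theorem block_spec {k τ : ℕ} (hk : k < I.2.length) (hτ : τ < 9) :
    inB I (base I + 9 * k + τ) = true ∧ typ I (base I + 9 * k + τ) = τ ∧
      tst I (base I + 9 * k + τ) = I.2[k] ∧ lev I (base I + 9 * k + τ) = k + 2 := by
  have h1 : inB I (base I + 9 * k + τ) = true := inB_iff.2 ⟨by omega, by unfold NV; omega⟩
  have h2 : (base I + 9 * k + τ - base I) / 9 = k := by omega
  exact ⟨h1, by unfold typ; omega, by simp [tst, h2, hk], by simp [lev, h1, h2]⟩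

theorem block_cases {x : ℕ} (h : inB I x = true) :
    ∃ k τ, k < I.2.length ∧ τ < 9 ∧ x = base I + 9 * k + τ := by
  rw [inB_iff, NV] at h
  exact ⟨(x - base I) / 9, (x - base I) % 9, by omega, by omega, by omega⟩

theorem posT_lt (b : Bool) (τ : ℕ) : posT b τ < 6 := Nat.mod_lt _ (by norm_num)

theorem clT_spec {n : ℕ} {t : Test} (h : t.1 < t.2.1 ∧ t.2.1 < t.2.2.1 ∧ t.2.2.1 < n) {k k' : ℕ}
    (hk : k < 6) (hk' : k' < 6) : clT n t k < 2 * n ∧ (clT n t k = clT n t k' ↔ k = k') ∧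
      (clT n t k + n = clT n t k' ↔ k + 3 = k') ∧ (clT n t k < clT n t k' + n ↔ k < k' + 3) ∧
      (clT n t k < clT n t k' ↔ k < k') ∧
      (k + 3 = k' → sdT t (clT n t k) = sdT (0, 1, 2, t.2.2.2) k) := by
  have h1 : t.2.1 ≠ t.1 := by omega
  have h2 : t.2.2.1 ≠ t.1 := by omega
  have h3 : t.2.2.1 ≠ t.2.1 := by omega
  interval_cases k <;> interval_cases k' <;> simp [clT, sdT, h1, h2, h3] <;> omega

theorem sgT_cases (τ : ℕ) : sgT τ = 1 ∨ sgT τ = -1 := by
  by_cases h : τ < 8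
  · interval_cases τ <;> simp [sgT]
  · left; simp [sgT, List.getD_eq_getElem?_getD, List.getElem?_eq_none (by simpa using h :
      ([1, -1, 1, -1, -1, -1, 1, -1] : List ℤ).length ≤ τ)]

theorem pT_bd {τ : ℕ} (h : τ < 9) : 0 ≤ pT τ ∧ pT τ ≤ 23 := by
  interval_cases τ <;> simp [pT]

theorem cl_lt (hw : WF I.1 I.2) (hn : 0 < I.1) (x : ℕ) : cl I x < 2 * I.1 := by
  unfold cl
  cases h : inB I x
  · simp only [cond_false, base]; split_ifs <;> omega
  · obtain ⟨k, τ, hk, hτ, rfl⟩ := block_cases h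
    rw [cond_true, (block_spec hk hτ).2.2.1]
    exact (clT_spec (hw _ (List.getElem_mem hk)) (posT_lt _ _) (posT_lt true 0)).1

theorem off_cases (I : Inst) (x : ℕ) :
    (base I ≤ x ∧ x < NV I ∧ (off I x = x ∨ off I x = -x)) ∨ (x < 6 ∧ off I x = x - NV I - 7) ∨
    (6 ≤ x ∧ x < base I ∧ off I x = 0 ∧ cl I x = x - 6) ∨ (NV I ≤ x ∧ off I x = -NV I - 8) := by
  have h0 : 6 ≤ base I ∧ base I ≤ NV I := by unfold NV base; omega
  unfold off cl
  cases h : inB I x
  · rw [← Bool.not_eq_true, inB_iff] at h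
    simp only [cond_false]
    split_ifs <;> omega
  · rw [inB_iff] at h
    rcases sgT_cases (typ I x) with e | e <;> simp [e, h]

theorem key_lt {x y : ℕ} (h : cl I x < cl I y) : (dat I).k x < (dat I).k y := by
  have h0 : 6 ≤ base I ∧ base I ≤ NV I := by unfold NV base; omega
  have h1 : off I x ≤ NV I + 8 := by have := off_cases I x; omega
  have h2 : -NV I - 8 ≤ off I y := by have := off_cases I y; omega
  have h3 : (cl I x : ℤ) + 1 ≤ cl I y := by exact_mod_cast h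
  simp only [dat]
  nlinarith

theorem key_lt_iff {x y : ℕ} (h : cl I x = cl I y) :
    (dat I).k x < (dat I).k y ↔ off I x < off I y := by simp [dat, h]

theorem key_inj {x y : ℕ} (hx : x ≤ NV I) (hy : y ≤ NV I) (h : (dat I).k x = (dat I).k y) :
    x = y := by
  have h0 : 6 ≤ base I ∧ base I ≤ NV I := by unfold NV base; omega
  rcases lt_trichotomy (cl I x) (cl I y) with h1 | h1 | h1
  · exact absurd h (key_lt h1).ne
  · simp only [dat, h1, add_right_inj] at h
    have := off_cases I x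
    have := off_cases I y
    omega
  · exact absurd h (key_lt h1).ne'

theorem v3_bd (D : Dat) (x y z : ℕ) : -34 ≤ D.v3 x y z ∧ D.v3 x y z ≤ 0 := by
  have h1 : ∀ x y, -10 ≤ D.vA x y ∧ D.vA x y ≤ 0 := fun x y => by
    unfold Dat.vA; split_ifs <;> omega
  have h2 : ∀ x y, 0 ≤ D.nr x y ∧ D.nr x y ≤ 1 := fun x y => by
    unfold Dat.nr; split_ifs <;> omega
  have := h1 x y; have := h1 y z; have := h1 z x
  have := h2 x y; have := h2 x z; have := h2 y z
  unfold Dat.v3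
  cases D.A x <;> cases D.A y <;> cases D.A z <;> simp <;> omega

theorem ex_eq (l : List ℕ) (p : Tb) : ex (eG I) (vG I) l p =
    2 ^ (NV I + 2) * ex (pr I) (dat I).v3 l p + (2 ^ l.getD p.2.1 0 - 2 ^ l.getD p.1 0) := by
  simp only [ex, eG, vG, at3]; ring

theorem tie_bd {l : List ℕ} (hl : ∀ r, l.getD r 0 ≤ NV I) (r : ℕ) :
    (0 : ℤ) < 2 ^ l.getD r 0 ∧ (4 : ℤ) * 2 ^ l.getD r 0 ≤ 2 ^ (NV I + 2) :=
  ⟨by positivity, by
    rw [pow_add, mul_comm]
    exact mul_le_mul_of_nonneg_right (pow_le_pow_right₀ one_le_two (hl r)) (by norm_num)⟩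

theorem ex_lt {l : List ℕ} (hl : ∀ r, l.getD r 0 ≤ NV I) {p q : Tb}
    (h : ex (pr I) (dat I).v3 l q < ex (pr I) (dat I).v3 l p) :
    ex (eG I) (vG I) l q < ex (eG I) (vG I) l p := by
  rw [ex_eq, ex_eq]
  have h1 := tie_bd hl p.1
  have h2 := tie_bd hl p.2.1
  have h3 := tie_bd hl q.1
  have h4 := tie_bd hl q.2.1
  have h5 := mul_le_mul_of_nonneg_left (Int.add_one_le_of_lt h)
    (by positivity : (0 : ℤ) ≤ 2 ^ (NV I + 2))
  linarith

theorem sidon {a b c d : ℕ} (h : (2 : ℤ) ^ a + 2 ^ d = 2 ^ c + 2 ^ b) :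
    (a = c ∧ d = b) ∨ (a = b ∧ d = c) := by
  have key : ∀ a b c d : ℕ, (2 : ℤ) ^ a + 2 ^ d = 2 ^ c + 2 ^ b → a ≤ d → ¬ d < b := by
    intro a b c d h h1 h2
    have h3 : (2 : ℤ) ^ a ≤ 2 ^ d := pow_le_pow_right₀ one_le_two h1
    have h4 : (2 : ℤ) ^ (d + 1) ≤ 2 ^ b := pow_le_pow_right₀ one_le_two h2
    have h5 : (0 : ℤ) < 2 ^ c := by positivity
    rw [pow_succ] at h4
    linarith
  have key2 : ∀ a b c d : ℕ, (2 : ℤ) ^ a + 2 ^ d = 2 ^ c + 2 ^ b → a ≤ d → c ≤ b →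
      a = c ∧ d = b := by
    intro a b c d h h1 h2
    have h3 : d = b := by have := key a b c d h h1; have := key c d a b h.symm h2; omega
    rw [h3, add_left_inj] at h
    exact ⟨pow_right_injective₀ two_pos (by norm_num) h, h3⟩
  rcases le_total a d with h1 | h1 <;> rcases le_total c b with h2 | h2
  · exact Or.inl (key2 a b c d h h1 h2)
  · exact Or.inr (key2 a c b d (by linarith) h1 h2)
  · exact Or.inr (key2 d b c a (by linarith) h1 h2).symm
  · exact Or.inl (key2 d c b a (by linarith) h1 h2).symm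

theorem getD_inj {l : List ℕ} (hl : l.length = 5) (hd : l.Nodup) {r r' : ℕ} (hr : r < 5)
    (hr' : r' < 5) (h : l.getD r 0 = l.getD r' 0) : r = r' := by
  rw [List.getD_eq_getElem _ _ (by omega), List.getD_eq_getElem _ _ (by omega)] at h
  exact (hd.getElem_inj_iff).1 h

theorem getD_prop {P : ℕ → Prop} {l : List ℕ} (hl : l.length = 5) (h : ∀ x ∈ l, P x) {r : ℕ}
    (hr : r < 5) : P (l.getD r 0) := by
  rw [List.getD_eq_getElem _ _ (by omega)]
  exact h _ (List.getElem_mem _)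

theorem getD_le {l : List ℕ} (h : ∀ x ∈ l, x ≤ NV I) (r : ℕ) : l.getD r 0 ≤ NV I := by
  rcases lt_or_ge r l.length with h1 | h1
  · rw [List.getD_eq_getElem _ _ h1]; exact h _ (List.getElem_mem _)
  · rw [List.getD_eq_default _ _ h1]; omega

theorem sg_W {l : List ℕ} (hl : l.length = 5) (hd : l.Nodup) (hN : ∀ x ∈ l, x ≤ NV I)
    (hA : ∀ x ∈ l, (dat I).A x = false) : ∃ s ∈ [(1 : ℤ), -1], Sg I l s = true := by
  obtain ⟨p, hp, hm⟩ := tab.toFinset.exists_max_image (ex (eG I) (vG I) l) (by decide)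
  simp only [List.mem_toFinset] at hp hm
  have tp := tab_spec p hp
  refine ⟨_, ?_, sg_iff.2 ⟨p, hp, fun q hq => ?_, rfl⟩⟩
  · have h2 : ∀ x y, (dat I).s2 x y = 1 ∨ (dat I).s2 x y = -1 := fun x y => by
      unfold Dat.s2; split_ifs <;> simp
    simp only [at3, Dat.s3, getD_prop hl hA tp.2.2.1, getD_prop hl hA tp.2.2.2.1,
      getD_prop hl hA tp.2.2.2.2.1, cond_false]
    rcases tp.2.2.2.2.2.2.1 with e | e <;>
    rcases h2 (l.getD p.2.2.1 0) (l.getD p.2.2.2.1 0) with e1 | e1 <;>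
    rcases h2 (l.getD p.2.2.1 0) (l.getD p.2.2.2.2.1 0) with e2 | e2 <;>
    rcases h2 (l.getD p.2.2.2.1 0) (l.getD p.2.2.2.2.1 0) with e3 | e3 <;>
    rw [e, e1, e2, e3] <;> decide
  · rcases (hm q hq).lt_or_eq with h | h
    · exact Or.inr h
    left
    have tq := tab_spec q hq
    rw [ex_eq, ex_eq] at h
    have h1 := tie_bd (getD_le hN) p.1
    have h2 := tie_bd (getD_le hN) p.2.1
    have h3 := tie_bd (getD_le hN) q.1
    have h4 := tie_bd (getD_le hN) q.2.1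
    have h5 : ex (pr I) (dat I).v3 l q = ex (pr I) (dat I).v3 l p := by
      rcases lt_trichotomy (ex (pr I) (dat I).v3 l q) (ex (pr I) (dat I).v3 l p) with h6 | h6 | h6
      · linarith [mul_le_mul_of_nonneg_left (Int.add_one_le_of_lt h6)
          (by positivity : (0 : ℤ) ≤ 2 ^ (NV I + 2))]
      · exact h6
      · linarith [mul_le_mul_of_nonneg_left (Int.add_one_le_of_lt h6)
          (by positivity : (0 : ℤ) ≤ 2 ^ (NV I + 2))]
    rw [h5, add_right_inj] at h
    rcases sidon (show (2 : ℤ) ^ l.getD q.2.1 0 + 2 ^ l.getD p.1 0 =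
      2 ^ l.getD p.2.1 0 + 2 ^ l.getD q.1 0 by linarith) with ⟨h6, h7⟩ | ⟨h6, -⟩
    · exact tp.2.2.2.2.2.2.2 q hq (getD_inj hl hd tp.1 tq.1 h7).symm
        (getD_inj hl hd tq.2.1 tp.2.1 h6)
    · have := getD_inj hl hd tq.2.1 tq.1 h6
      have := tq.2.2.2.2.2.1
      simp at this; omega

section block
variable (hw : WF I.1 I.2) {k : ℕ} (hk : k < I.2.length)
include hw hk

omit hw in
theorem cl_block {τ : ℕ} (hτ : τ < 9) :
    cl I (base I + 9 * k + τ) = clT I.1 I.2[k] (posT I.2[k].2.2.2 τ) := by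
  simp [cl, block_spec hk hτ]

theorem pair_block {x y : ℕ} (hx : x < 8) (hy : y < 8) :
    (dat I).nr (base I + 9 * k + x) (base I + 9 * k + y) = (loc I.2[k].2.2.2).nr x y ∧
    (dat I).vA (base I + 9 * k + x) (base I + 9 * k + y) = (loc I.2[k].2.2.2).vA x y ∧
    (dat I).s2 (base I + 9 * k + x) (base I + 9 * k + y) = (loc I.2[k].2.2.2).s2 x y ∧
    (dat I).sA (base I + 9 * k + 8) (base I + 9 * k + x) (base I + 9 * k + y) =
      (loc I.2[k].2.2.2).sA 8 x y := by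
  have h1 := clT_spec (hw _ (List.getElem_mem hk)) (posT_lt I.2[k].2.2.2 x) (posT_lt I.2[k].2.2.2 y)
  have h2 := clT_spec (hw _ (List.getElem_mem hk)) (posT_lt I.2[k].2.2.2 y) (posT_lt I.2[k].2.2.2 x)
  have e1 := cl_block hk (τ := x) (by omega)
  have e2 := cl_block hk (τ := y) (by omega)
  have h3 : (dat I).s2 (base I + 9 * k + x) (base I + 9 * k + y) = (loc I.2[k].2.2.2).s2 x y := by
    unfold Dat.s2
    refine if_congr ?_ rfl rfl
    have o1 : off I (base I + 9 * k + x) = sgT x * (base I + 9 * k + x : ℕ) := by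
      simp [off, block_spec hk (τ := x) (by omega)]
    have o2 : off I (base I + 9 * k + y) = sgT y * (base I + 9 * k + y : ℕ) := by
      simp [off, block_spec hk (τ := y) (by omega)]
    have o3 : 6 ≤ base I := by unfold base; omega
    rw [← e1, ← e2] at h1 h2
    simp only [loc]
    rcases lt_trichotomy (posT I.2[k].2.2.2 x) (posT I.2[k].2.2.2 y) with h | h | h
    · refine iff_of_true (key_lt (h1.2.2.2.2.1.2 h)) ?_
      rcases sgT_cases x with e | e <;> rcases sgT_cases y with e' | e' <;> rw [e, e'] <;> omega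
    · rw [key_lt_iff (h1.2.1.2 h), o1, o2]
      rcases sgT_cases x with e | e <;> rcases sgT_cases y with e' | e' <;> rw [e, e'] <;> omega
    · refine iff_of_false (key_lt (h2.2.2.2.2.1.2 h)).not_gt ?_
      rcases sgT_cases x with e | e <;> rcases sgT_cases y with e' | e' <;> rw [e, e'] <;> omega
  refine ⟨?_, ?_, h3, ?_⟩
  · simp only [Dat.nr, dat, loc, e1, e2, h1]
    rfl
  · simp only [Dat.vA, dat, loc, e1, e2, h1, h2]
    rfl
  · rw [Dat.sA, Dat.sA, h3]
    congr 1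
    simp only [dat, loc, e1, e2, h1, h2, (block_spec hk (τ := 8) (by omega)).2.2.1]
    split_ifs with a1 a2
    · exact h1.2.2.2.2.2 a1
    · exact h2.2.2.2.2.2 a2
    · rfl
    · rfl

omit hw in
theorem A_block {x : ℕ} (hx : x < 9) : (dat I).A (base I + 9 * k + x) = decide (x = 8) := by
  simp [dat, block_spec hk hx]

theorem triple_block {x y z : ℕ} (hx : x < 9) (hy : y < 9) (hz : z < 9) :
    (dat I).v3 (base I + 9 * k + x) (base I + 9 * k + y) (base I + 9 * k + z) =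
      (loc I.2[k].2.2.2).v3 x y z ∧
    (dat I).s3 (base I + 9 * k + x) (base I + 9 * k + y) (base I + 9 * k + z) =
      (loc I.2[k].2.2.2).s3 x y z := by
  have hp := fun x y hx hy => pair_block hw hk (x := x) (y := y) hx hy
  have e : ∀ x, (loc I.2[k].2.2.2).A x = decide (x = 8) := fun _ => rfl
  simp only [Dat.v3, Dat.s3, A_block hk hx, A_block hk hy, A_block hk hz, e]
  rcases (show x < 8 ∨ x = 8 by omega) with h1 | rfl <;>
  rcases (show y < 8 ∨ y = 8 by omega) with h2 | rfl <;>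
  rcases (show z < 8 ∨ z = 8 by omega) with h3 | rfl <;>
  simp [*, ne_of_lt]

theorem transfer {l L : List ℕ} {s : ℤ} (h1 : ∀ r, l.getD r 0 ≤ NV I)
    (h2 : ∀ r < 4, L.getD r 0 < 9)
    (h3 : ∀ r < 5, L.getD r 0 < 9 → l.getD r 0 = base I + 9 * k + L.getD r 0)
    (h4 : L.getD 4 0 = 9 → pr I (l.getD 4 0) ≤ 100 * (k + 2) - 77)
    (h5 : L.getD 4 0 = 10 → 100 * (k + 2) + 100 ≤ pr I (l.getD 4 0)) (h6 : L.getD 4 0 < 11)
    (h : Loc I.2[k].2.2.2 L s = true) : Sg I l s = true := by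
  simp only [Loc, List.any_eq_true, Bool.and_eq_true, decide_eq_true_eq, dom_iff] at h
  obtain ⟨p, hp, ⟨a1, a2⟩, a3, a4⟩ := h
  have hd : ∀ r < 5, L.getD r 0 < 9 → pr I (l.getD r 0) = 100 * (k + 2) + pT (L.getD r 0) :=
    fun r hr h => by rw [h3 r hr h]; simp only [pr, block_spec hk h, cond_true]; push_cast; rfl
  have hv : ∀ q ∈ tab, at3 (dat I).v3 l q ≤ at3 (vL I.2[k].2.2.2) L q ∧
      (L.getD q.2.2.1 0 < 9 → L.getD q.2.2.2.1 0 < 9 → L.getD q.2.2.2.2.1 0 < 9 →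
        at3 (dat I).v3 l q = at3 (vL I.2[k].2.2.2) L q ∧
        at3 (dat I).s3 l q = at3 (loc I.2[k].2.2.2).s3 L q) := fun q hq => by
    have tq := tab_spec q hq
    have : L.getD q.2.2.1 0 < 9 → L.getD q.2.2.2.1 0 < 9 → L.getD q.2.2.2.2.1 0 < 9 →
        at3 (dat I).v3 l q = at3 (vL I.2[k].2.2.2) L q ∧
        at3 (dat I).s3 l q = at3 (loc I.2[k].2.2.2).s3 L q := fun b1 b2 b3 => by
      simp only [at3, vL, h3 _ tq.2.2.1 b1, h3 _ tq.2.2.2.1 b2, h3 _ tq.2.2.2.2.1 b3]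
      rw [if_neg (by omega)]
      exact triple_block hw hk b1 b2 b3
    refine ⟨?_, this⟩
    by_cases h : 9 ≤ L.getD q.2.2.1 0 ∨ 9 ≤ L.getD q.2.2.2.1 0 ∨ 9 ≤ L.getD q.2.2.2.2.1 0
    · simp only [at3, vL, h, if_true]
      exact (v3_bd _ _ _ _).2
    · exact (this (by omega) (by omega) (by omega)).1.le
  have tp := tab_spec p hp
  have hne := tp.2.2.2.2.2.1
  simp only [List.nodup_cons, List.mem_cons, not_or] at hne
  have hr : ∀ r < 5, p.1 ≠ r → p.2.1 ≠ r → L.getD r 0 < 9 := fun r hr b1 b2 => by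
    by_cases h : r = 4
    · subst h; omega
    · exact h2 r (by omega)
  have hp3 := (hv p hp).2 (hr _ tp.2.2.1 (by omega) (by omega))
    (hr _ tp.2.2.2.1 (by omega) (by omega)) (hr _ tp.2.2.2.2.1 (by omega) (by omega))
  refine sg_iff.2 ⟨p, hp, fun q hq => (a1 q hq).imp_right fun h => ex_lt h1 ?_, by rwa [hp3.2]⟩
  have tq := tab_spec q hq
  have e9 : pT 9 = -77 := rfl
  have e10 : pT 10 = 100 := rfl
  have b1 := (hv q hq).1
  have b2 := hp3.1
  have c : ∀ r < 5, r = 4 ∨ pr I (l.getD r 0) = 100 * (k + 2) + pT (L.getD r 0) := fun r hr => by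
    by_cases h : r = 4
    · exact Or.inl h
    · exact Or.inr (hd r hr (h2 r (by omega)))
  unfold ex at h ⊢
  rcases (show L.getD 4 0 < 9 ∨ L.getD 4 0 = 9 ∨ L.getD 4 0 = 10 by omega) with d | d | d
  · have c' : ∀ r < 5, pr I (l.getD r 0) = 100 * (k + 2) + pT (L.getD r 0) := fun r hr =>
      (c r hr).elim (fun e => e ▸ hd 4 (by omega) d) id
    rw [c' _ tp.1, c' _ tp.2.1, c' _ tq.1, c' _ tq.2.1]
    omega
  · have c1 := h4 d
    have c2 := (c _ tp.2.1).resolve_left (by omega)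
    rw [a3 d, d, e9] at h
    rw [a3 d]
    rcases c _ tq.1 with c3 | c3 <;> rcases c _ tq.2.1 with c4 | c4 <;>
      simp only [c3, c4, d, e9] at h ⊢ <;> omega
  · have c1 := h5 d
    have c2 := (c _ tp.1).resolve_left (by omega)
    rw [a4 d, d, e10] at h
    rw [a4 d]
    rcases c _ tq.1 with c3 | c3 <;> rcases c _ tq.2.1 with c4 | c4 <;>
      simp only [c3, c4, d, e10] at h ⊢ <;> omega

omit hw in
theorem pr_cases {y : ℕ} : (∃ τ < 9, y = base I + 9 * k + τ) ∨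
    pr I y ≤ 100 * (k + 2) - 77 ∨ 100 * (k + 2) + 100 ≤ pr I y := by
  cases h : inB I y
  · simp only [pr, lev, h, cond_false]
    split_ifs <;> omega
  · obtain ⟨k', τ, hk', hτ, rfl⟩ := block_cases h
    have := pT_bd hτ
    simp only [pr, block_spec hk' hτ, cond_true]
    rcases lt_trichotomy k' k with h | rfl | h
    · omega
    · exact Or.inl ⟨τ, hτ, rfl⟩
    · omega

theorem transfer' {a b c d τ y : ℕ} {s : ℤ} (ha : a < 9) (hb : b < 9) (hc : c < 9) (hd : d < 9)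
    (hy : y ≤ NV I) (h3 : τ < 9 → y = base I + 9 * k + τ)
    (h4 : τ = 9 → pr I y ≤ 100 * (k + 2) - 77) (h5 : τ = 10 → 100 * (k + 2) + 100 ≤ pr I y)
    (h6 : τ < 11) (h : Loc I.2[k].2.2.2 [a, b, c, d, τ] s = true) :
    Sg I ([a, b, c, d].map (base I + 9 * k + ·) ++ [y]) s = true := by
  refine transfer hw hk (L := [a, b, c, d, τ]) (getD_le ?_) (fun r hr => ?_) (fun r hr => ?_) h4 h5 h6 h
  · simp only [NV] at hy ⊢
    simp; omega
  · interval_cases r <;> simpa
  · interval_cases r <;> simp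
    exact h3

theorem sg_loc {T : List ℕ} (hT : T ∈ locCells) : ∃ s ∈ [(1 : ℤ), -1], ∀ y ≤ NV I,
    y ∈ T.map (base I + 9 * k + ·) ∨ Sg I (T.map (base I + 9 * k + ·) ++ [y]) s = true := by
  obtain ⟨s, hs, h⟩ := check1 I.2[k].2.2.2 T hT
  have h0 : ∀ T ∈ locCells, T.length = 4 ∧ ∀ x ∈ T, x < 9 := by decide
  obtain ⟨h1, h2⟩ := h0 T hT
  refine ⟨s, hs, fun y hy => ?_⟩
  match T, h1 with
  | [a, b, c, d], _ =>
  simp only [List.forall_mem_cons] at h2
  have key := fun τ => transfer' hw hk (τ := τ) (s := s) h2.1 h2.2.1 h2.2.2.1 h2.2.2.2.1 hy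
  rcases pr_cases hk (y := y) with ⟨τ, hτ, rfl⟩ | h3 | h3
  · exact (h τ (by omega)).imp (List.mem_map_of_mem ·)
      (key τ (fun _ => rfl) (by omega) (by omega) (by omega))
  · exact Or.inr (key 9 (by omega) (fun _ => h3) (by omega) (by omega)
      ((h 9 (by omega)).resolve_left (by simp; omega)))
  · exact Or.inr (key 10 (by omega) (by omega) (fun _ => h3) (by omega)
      ((h 10 (by omega)).resolve_left (by simp; omega)))

theorem sg_sorted {a b c d : ℕ} (h1 : a < b) (h2 : b < c) (h3 : c < d) (h4 : d < 8) :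
    ∃ s ∈ [(1 : ℤ), -1],
      Sg I ([a, b, c, d].map (base I + 9 * k + ·) ++ [base I + 9 * k + 8]) s = true := by
  have key := fun s => transfer' hw hk (τ := 8) (s := s) (a := a) (b := b) (c := c) (d := d)
    (by omega) (by omega) (by omega) (by omega) (y := base I + 9 * k + 8) (by unfold NV; omega)
    (fun _ => rfl) (by omega) (by omega) (by omega)
  rcases check2 I.2[k].2.2.2 d h4 c h3 b h2 a h1 with h | h
  · exact ⟨1, by simp, key 1 h⟩
  · exact ⟨-1, by simp, key _ h⟩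

end block

theorem sg_uv {x y z : ℕ} (hx : 2 ≤ x ∧ x ≤ NV I) (hy : 2 ≤ y ∧ y ≤ NV I) (hz : 2 ≤ z ∧ z ≤ NV I) :
    Sg I [0, 1, x, y, z] ((dat I).s3 x y z) = true := by
  have h0 : 6 ≤ base I ∧ base I ≤ NV I := by unfold NV base; omega
  have h1 : ∀ x, 2 ≤ x → 100 ≤ pr I x ∧ pr I x ≤ 100 * I.2.length + 123 := fun x hx => by
    cases h : inB I x
    · simp only [pr, lev, h, cond_false]
      split_ifs <;> omega
    · obtain ⟨k', τ, hk', hτ, rfl⟩ := block_cases h
      have := pT_bd hτ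
      simp only [pr, block_spec hk' hτ, cond_true]
      omega
  have h2 : pr I 0 = 100 * I.2.length + 300 := by
    simp [pr, lev, inB_false (I := I) (x := 0) (by omega)]; ring
  have h3 : pr I 1 = 0 := by simp [pr, lev, inB_false (I := I) (x := 1) (by omega)]
  refine sg_iff.2 ⟨(1, 0, 2, 3, 4, 1), by decide, fun q hq => ?_, by simp [at3]⟩
  have tq := tab_spec q hq
  by_cases h : q.1 = 1 ∧ q.2.1 = 0
  · exact Or.inl ((tab_spec _ (by decide)).2.2.2.2.2.2.2 q hq h.1 h.2)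
  refine Or.inr (ex_lt (getD_le (by simp; omega)) ?_)
  have h4 := (v3_bd (dat I) x y z).1
  have h5 : at3 (dat I).v3 [0, 1, x, y, z] q ≤ 0 := (v3_bd _ _ _ _).2
  have h6 : q.1 ≠ q.2.1 := by have := tq.2.2.2.2.2.1; simp at this; omega
  have := h1 x hx.1
  have := h1 y hy.1
  have := h1 z hz.1
  obtain ⟨i, j, r⟩ := q
  have hi : i < 5 := tq.1
  have hj : j < 5 := tq.2.1
  simp only [ex] at h5 h6 h ⊢
  generalize at3 (dat I).v3 [0, 1, x, y, z] (i, j, r) = w at h5 ⊢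
  interval_cases i <;> interval_cases j <;> simp [at3] at h h6 ⊢ <;> omega

theorem mem_quads {N : ℕ} {l : List ℕ} :
    l ∈ quads N ↔ l.Nodup ∧ l.length = 4 ∧ ∀ x ∈ l, x < N := by
  simp only [quads, List.mem_flatMap, List.mem_range]
  constructor
  · rintro ⟨a, ha, b, hb, c, hc, d, hd, h⟩
    split_ifs at h with h1
    · rw [List.mem_singleton.1 h]
      simp; omega
    · simp at h
  · rintro ⟨h1, h2, h3⟩
    match l, h2 with
    | [a, b, c, d], _ =>
    simp only [List.forall_mem_cons] at h3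
    refine ⟨a, h3.1, b, h3.2.1, c, h3.2.2.1, d, h3.2.2.2.1, ?_⟩
    rw [if_pos (by simp at h1; omega)]
    simp

theorem mem_cells {l : List ℕ} : l ∈ cells I ↔ (l.Nodup ∧ l.length = 4 ∧ ∀ x ∈ l, x < NV I) ∧
    ∃ s ∈ [(1 : ℤ), -1], ∀ y ≤ NV I, y ∈ l ∨ Sg I (l ++ [y]) s = true ∨ ((dat I).A y = true ∧
      (∀ x ∈ l, (dat I).A x = false) ∧ ∃ x ∈ l, x + 8 < y ∨ y < x) := by
  simp only [cells, List.mem_filter, mem_quads, cell, List.any_eq_true, List.all_eq_true,
    List.mem_range, Nat.lt_succ_iff, Bool.or_eq_true, Bool.and_eq_true, decide_eq_true_eq,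
    Bool.not_eq_eq_eq_not, Bool.not_true, or_assoc, and_assoc]

theorem loc_mem_cells (hw : WF I.1 I.2) {k : ℕ} (hk : k < I.2.length) {T : List ℕ}
    (hT : T ∈ locCells) : T.map (base I + 9 * k + ·) ∈ cells I := by
  have h0 : ∀ T ∈ locCells, T.Nodup ∧ T.length = 4 ∧ ∀ x ∈ T, x < 9 := by decide
  obtain ⟨h1, h2, h3⟩ := h0 T hT
  obtain ⟨s, hs, h⟩ := sg_loc hw hk hT
  refine mem_cells.2 ⟨⟨h1.map (add_right_injective _), by simpa using h2,
    List.forall_mem_map.2 fun x hx => ?_⟩, s, hs, fun y hy => (h y hy).imp_right Or.inl⟩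
  have := h3 x hx
  unfold NV; omega

theorem A_iff {x : ℕ} : (dat I).A x = true ↔ ∃ k < I.2.length, x = base I + 9 * k + 8 := by
  constructor
  · intro h
    simp only [dat, Bool.and_eq_true, decide_eq_true_eq] at h
    obtain ⟨k, τ, hk, hτ, rfl⟩ := block_cases h.1
    rw [(block_spec hk hτ).2.1] at h
    exact ⟨k, hk, by rw [h.2]⟩
  · rintro ⟨k, hk, rfl⟩
    simpa using A_block hk (x := 8) (by omega)

/-- Ordinary vertices of the polygon. -/
def Wv (I : Inst) (x : ℕ) : Prop := 2 ≤ x ∧ x < NV I ∧ (dat I).A x = false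

theorem key_q {x : ℕ} (hx : x < NV I) : (dat I).k (NV I) < (dat I).k x := by
  have h0 : 6 ≤ base I ∧ base I ≤ NV I := by unfold NV base; omega
  have h1 : cl I (NV I) = 0 := by
    simp [cl, inB_false (I := I) (x := NV I) (by omega)]; omega
  rcases Nat.eq_zero_or_pos (cl I x) with h | h
  · rw [key_lt_iff (h1.trans h.symm)]
    have := off_cases I x
    have := off_cases I (NV I)
    omega
  · exact key_lt (h1 ▸ h)

theorem uv_mem_cells {x y : ℕ} (hx : Wv I x) (hy : Wv I y) (h : (dat I).k x < (dat I).k y)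
    (hc : ∀ z, Wv I z → (dat I).k z ≤ (dat I).k x ∨ (dat I).k y ≤ (dat I).k z) :
    [0, 1, x, y] ∈ cells I := by
  have h0 : 6 ≤ base I ∧ base I ≤ NV I := by unfold NV base; omega
  have hxy : x ≠ y := fun e => by rw [e] at h; exact lt_irrefl _ h
  have hA : ∀ z, (dat I).A z = true → base I + 8 ≤ z ∧ z < NV I := fun z hz => by
    obtain ⟨k, hk, rfl⟩ := A_iff.1 hz
    unfold NV; omega
  have hA' : ∀ z, z < 6 → (dat I).A z = false := fun z hz => by
    rw [← Bool.not_eq_true]; intro h; have := hA z h; omega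
  obtain ⟨x1, x2, x3⟩ := hx
  obtain ⟨y1, y2, y3⟩ := hy
  refine mem_cells.2 ⟨⟨by simp; omega, rfl, by simp; omega⟩, 1, by simp, fun z hz => ?_⟩
  by_cases h1 : z ∈ [0, 1, x, y]
  · exact Or.inl h1
  right
  simp only [List.mem_cons, not_or] at h1
  cases h2 : (dat I).A z
  · left
    have h3 := sg_uv (I := I) (x := x) (y := y) (z := z) (by omega) (by omega) (by omega)
    have h4 : (dat I).k z < (dat I).k x ∨ (dat I).k y < (dat I).k z := by
      rcases hz.lt_or_eq with h5 | rfl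
      · exact (hc z ⟨by omega, h5, h2⟩).imp
          (fun h => h.lt_of_ne fun e => h1.2.2.1 (key_inj hz x2.le e))
          fun h => h.lt_of_ne fun e => h1.2.2.2.1 (key_inj y2.le hz e).symm
      · exact Or.inl (key_q x2)
    rw [show (dat I).s3 x y z = 1 by
      simp only [Dat.s3, h2, x3, y3, cond_false, Dat.s2]
      split_ifs <;> omega] at h3
    exact h3
  · have := hA z h2
    exact Or.inr ⟨rfl, by simp [hA', x3, y3], 0, by simp, by omega⟩

end Pool.Agent.Lib.MP_8817b2_lc
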