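import Pool.Agent.Lib.MP_ca1301_lc.Defs

/-! Realizability of Delaunay triangulations as a decision problem. -/

namespace Pool.Agent.Lib.MP_8817b2_lc

/-- Some closed ball has the points indexed by `S` on its boundary and all others outside. -/
def IsCell {d n : ℕ} (p : Fin n → EuclideanSpace ℝ (Fin d)) (S : Set (Fin n)) : Prop :=
  ∃ (c : EuclideanSpace ℝ (Fin d)) (r : ℝ),
    (∀ i ∈ S, dist (p i) c = r) ∧ ∀ j ∉ S, r < dist (p j) c

/-- The affine hull of `T` is the whole space. -/
def Spans {d : ℕ} (T : Set (EuclideanSpace ℝ (Fin d))) : Prop := ∀ x, x ∈ affineSpan ℝ T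

/-- The points span the space, the full-dimensional Delaunay cells are exactly the members
of `F`, and every point is a vertex of a cell. -/
def Realizes {d n : ℕ} (p : Fin n → EuclideanSpace ℝ (Fin d)) (F : List (List ℕ)) : Prop :=
  Spans (Set.range p) ∧
  (∀ S : Set (Fin n), (IsCell p S ∧ Spans (p '' S)) ↔
    ∃ l ∈ F, S = {i : Fin n | (i : ℕ) ∈ l}) ∧
  ∀ i : Fin n, ∃ S : Set (Fin n), IsCell p S ∧ i ∈ S

open Classical in
/-- Codes of pairs `n, F`, with `F` a list of sets of `d + 1` numbers below `n`,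
that are realized by `n` points in dimension `d`. -/
noncomputable def DEL (d : ℕ) : N68a2faeb.DecisionProblem := fun w =>
  decide (∃ (n : ℕ) (F : List (List ℕ)), w = N487b59b3.bitEncode (n, F) ∧
    (∀ l ∈ F, l.Nodup ∧ l.length = d + 1 ∧ ∀ i ∈ l, i < n) ∧
    ∃ p : Fin n → EuclideanSpace ℝ (Fin d), Realizes p F)

end Pool.Agent.Lib.MP_8817b2_lc
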