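import Pool.Agent.Lib.MP_8817b2_lc.Order

/-! The combinatorial design: vertices, scales, the sign rule and the list of cells. -/

namespace Pool.Agent.Lib.MP_8817b2_lc

open Pool.Agent.Lib.Complexity

/-- number of lines, test points, clusters, cyclic order, known sides -/
structure Dat where
  n : ℕ
  A : ℕ → Bool
  c : ℕ → ℕ
  k : ℕ → ℤ
  sd : ℕ → ℕ → ℤ

namespace Dat
variable (D : Dat)

def nr (x y : ℕ) : ℤ := if D.c x = D.c y then 1 else 0

def vA (x y : ℕ) : ℤ :=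
  if D.c x = D.c y then -10 else if D.c x + D.n = D.c y ∨ D.c y + D.n = D.c x then -4 else 0

def s2 (x y : ℕ) : ℤ := if D.k x < D.k y then 1 else -1

def sA (a x y : ℕ) : ℤ := D.s2 x y * (if D.c x + D.n = D.c y then D.sd a (D.c x)
  else if D.c y + D.n = D.c x then D.sd a (D.c y)
  else if D.c x < D.c y + D.n ∧ D.c y < D.c x + D.n then 1 else -1)

def v3 (x y z : ℕ) : ℤ :=
  bif D.A z then (bif D.A x || D.A y then 0 else D.vA x y)
  else bif D.A x then (bif D.A y then 0 else D.vA y z)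
  else bif D.A y then D.vA z x else -4 - 10 * (D.nr x y + D.nr x z + D.nr y z)

def s3 (x y z : ℕ) : ℤ :=
  bif D.A z then (bif D.A x || D.A y then 0 else D.sA z x y)
  else bif D.A x then (bif D.A y then 0 else D.sA x y z)
  else bif D.A y then D.sA y z x else D.s2 x y * D.s2 x z * D.s2 y z

end Dat

abbrev Tb : Type := ℕ × ℕ × ℕ × ℕ × ℕ × ℤ

/-- The twenty terms of the expansion of the determinant. -/
def tab : List Tb := [
  (0, 1, 2, 3, 4, -1), (0, 2, 1, 3, 4, 1), (0, 3, 1, 2, 4, -1), (0, 4, 1, 2, 3, 1),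
  (1, 0, 2, 3, 4, 1), (1, 2, 0, 3, 4, -1), (1, 3, 0, 2, 4, 1), (1, 4, 0, 2, 3, -1),
  (2, 0, 1, 3, 4, -1), (2, 1, 0, 3, 4, 1), (2, 3, 0, 1, 4, -1), (2, 4, 0, 1, 3, 1),
  (3, 0, 1, 2, 4, 1), (3, 1, 0, 2, 4, -1), (3, 2, 0, 1, 4, 1), (3, 4, 0, 1, 2, -1),
  (4, 0, 1, 2, 3, -1), (4, 1, 0, 2, 3, 1), (4, 2, 0, 1, 3, -1), (4, 3, 0, 1, 2, 1)]

def dom (E : Tb → ℤ) (p : Tb) : Bool := tab.all fun p' => decide (p' = p) || decide (E p' < E p)

/-- The value of a function of three vertices on the three remaining positions. -/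
def at3 (f : ℕ → ℕ → ℕ → ℤ) (l : List ℕ) (p : Tb) : ℤ :=
  f (l.getD p.2.2.1 0) (l.getD p.2.2.2.1 0) (l.getD p.2.2.2.2.1 0)

def ex (e : ℕ → ℤ) (v : ℕ → ℕ → ℕ → ℤ) (l : List ℕ) (p : Tb) : ℤ :=
  e (l.getD p.2.1 0) - e (l.getD p.1 0) + at3 v l p

abbrev Inst : Type := ℕ × List Test

def base (I : Inst) : ℕ := 6 + 2 * I.1
def NV (I : Inst) : ℕ := base I + 9 * I.2.length
def inB (I : Inst) (x : ℕ) : Bool := decide (base I ≤ x) && decide (x < NV I)
def typ (I : Inst) (x : ℕ) : ℕ := (x - base I) % 9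
def tst (I : Inst) (x : ℕ) : Test := I.2.getD ((x - base I) / 9) (0, 0, 0, true)
def posT (b : Bool) (τ : ℕ) : ℕ := ([0, 1, 2, 3, 3, 4, 4, 5].getD τ 0 + bif b then 1 else 0) % 6
def clT (n : ℕ) (t : Test) (k : ℕ) : ℕ :=
  [t.1, t.2.1, t.2.2.1, n + t.1, n + t.2.1, n + t.2.2.1].getD k 0
def sgT (τ : ℕ) : ℤ := [1, -1, 1, -1, -1, -1, 1, -1].getD τ 1
def sdT (t : Test) (c : ℕ) : ℤ := (bif t.2.2.2 then 1 else -1) *
  if c = t.1 then 1 else if c = t.2.1 then -1 else if c = t.2.2.1 then 1 else 0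
def pT (τ : ℕ) : ℤ := [23, 0, 17, 19, 16, 2, 4, 5, 9, -77, 100].getD τ 0

def cl (I : Inst) (x : ℕ) : ℕ :=
  bif inB I x then clT I.1 (tst I x) (posT (tst I x).2.2.2 (typ I x))
  else if x < base I then x - 6 else 0

def off (I : Inst) (x : ℕ) : ℤ :=
  bif inB I x then sgT (typ I x) * x
  else if x < 6 then x - NV I - 7 else if x < base I then 0 else -NV I - 8

def dat (I : Inst) : Dat where
  n := I.1
  A x := inB I x && decide (typ I x = 8)
  c := cl I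
  k x := cl I x * (2 * NV I + 20) + off I x
  sd a := sdT (tst I a)

def lev (I : Inst) (x : ℕ) : ℕ :=
  bif inB I x then (x - base I) / 9 + 2 else if x = 0 then I.2.length + 3 else if x = 1 then 0 else 1

def pr (I : Inst) (x : ℕ) : ℤ := 100 * lev I x + bif inB I x then pT (typ I x) else 0

def eG (I : Inst) (x : ℕ) : ℤ := 2 ^ (NV I + 2) * pr I x + 2 ^ x

def vG (I : Inst) (x y z : ℕ) : ℤ := 2 ^ (NV I + 2) * (dat I).v3 x y z

/-- The sign of the determinant of five vertices is known to be `s`. -/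
def Sg (I : Inst) (l : List ℕ) (s : ℤ) : Bool := tab.any fun p =>
  dom (ex (eG I) (vG I) l) p && decide (p.2.2.2.2.2 * at3 (dat I).s3 l p = s)

def cell (I : Inst) (l : List ℕ) : Bool := [1, -1].any fun s =>
  (List.range (NV I + 1)).all fun y => decide (y ∈ l) || Sg I (l ++ [y]) s ||
    ((dat I).A y && (l.all fun x => !(dat I).A x) && l.any fun x => decide (x + 8 < y ∨ y < x))

def quads (N : ℕ) : List (List ℕ) := (List.range N).flatMap fun a => (List.range N).flatMap fun b =>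
  (List.range N).flatMap fun c => (List.range N).flatMap fun d =>
    if a ≠ b ∧ a ≠ c ∧ a ≠ d ∧ b ≠ c ∧ b ≠ d ∧ c ≠ d then [[a, b, c, d]] else []

def cells (I : Inst) : List (List ℕ) := (quads (NV I)).filter (cell I)

/-! ### the local model -/

def loc (b : Bool) : Dat where
  n := 3
  A τ := decide (τ = 8)
  c := posT b
  k τ := posT b τ * 100 + sgT τ * (τ + 1)
  sd _ := sdT (0, 1, 2, b)

def vL (b : Bool) (x y z : ℕ) : ℤ := if 9 ≤ x ∨ 9 ≤ y ∨ 9 ≤ z then 0 else (loc b).v3 x y z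

def Loc (b : Bool) (l : List ℕ) (s : ℤ) : Bool := tab.any fun p =>
  dom (ex pT (vL b) l) p && decide (p.2.2.2.2.2 * at3 (loc b).s3 l p = s) &&
    decide ((l.getD 4 0 = 9 → p.1 = 4) ∧ (l.getD 4 0 = 10 → p.2.1 = 4))

def star : List (List ℕ) := [[0, 2, 3], [0, 2, 7], [0, 3, 4], [0, 4, 7], [1, 2, 4], [1, 2, 7],
  [1, 4, 6], [1, 5, 6], [1, 5, 7], [2, 3, 4], [4, 6, 7], [5, 6, 7]]

def locCells : List (List ℕ) :=
  [0, 3, 4, 7] :: [1, 4, 5, 6] :: [0, 1, 2, 7] :: star.map fun T => T ++ [8]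

theorem check1 : ∀ b : Bool, ∀ T ∈ locCells, ∃ s ∈ [(1 : ℤ), -1], ∀ τ < 11,
    τ ∈ T ∨ Loc b (T ++ [τ]) s = true := by decide +kernel

theorem check2 : ∀ b : Bool, ∀ d < 8, ∀ c < d, ∀ a < c, ∀ z < a,
    Loc b [z, a, c, d, 8] 1 = true ∨ Loc b [z, a, c, d, 8] (-1) = true := by decide +kernel

theorem check3 : ∀ T ∈ star, (∀ x ∈ T, x < 8) ∧
    ∀ x ∈ T, ∃ T' ∈ star, x ∉ T' ∧ ∀ z ∈ T, z = x ∨ z ∈ T' := by decide

end Pool.Agent.Lib.MP_8817b2_lc
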