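import Pool.Agent.Lib.MP_8817b2_lc.Bridge

/-! The reduction from the existential theory of the reals. -/

namespace Pool.Agent.Lib.MP_8817b2_lc

open N487b59b3 N68a2faeb Pool.Agent.Lib.Complexity Pool.Agent.Lib.MP_ca1301_lc

section
variable {α : Type} [Enc α] {I : α → Inst} {x y z : α → ℕ} {l : α → List ℕ}

@[fun_prop] theorem pt_base (hI : PT I) : PT fun a => base (I a) := by unfold base; fun_prop
@[fun_prop] theorem pt_NV (hI : PT I) : PT fun a => NV (I a) := by unfold NV; fun_prop
@[fun_prop] theorem pt_inB (hI : PT I) (hx : PT x) : PT fun a => inB (I a) (x a) := by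
  unfold inB; fun_prop
@[fun_prop] theorem pt_typ (hI : PT I) (hx : PT x) : PT fun a => typ (I a) (x a) := by
  unfold typ; fun_prop
@[fun_prop] theorem pt_tst (hI : PT I) (hx : PT x) : PT fun a => tst (I a) (x a) := by
  unfold tst; fun_prop
@[fun_prop] theorem pt_posT {b : α → Bool} (hb : PT b) (hx : PT x) :
    PT fun a => posT (b a) (x a) := by unfold posT; fun_prop
@[fun_prop] theorem pt_clT {t : α → Test} (hx : PT x) (ht : PT t) (hy : PT y) :
    PT fun a => clT (x a) (t a) (y a) := by unfold clT; fun_prop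
@[fun_prop] theorem pt_sgT (hx : PT x) : PT fun a => sgT (x a) := by unfold sgT; fun_prop
@[fun_prop] theorem pt_sdT {t : α → Test} (ht : PT t) (hx : PT x) :
    PT fun a => sdT (t a) (x a) := by unfold sdT; fun_prop
@[fun_prop] theorem pt_pT (hx : PT x) : PT fun a => pT (x a) := by unfold pT; fun_prop
@[fun_prop] theorem pt_cl (hI : PT I) (hx : PT x) : PT fun a => cl (I a) (x a) := by
  unfold cl; fun_prop
@[fun_prop] theorem pt_off (hI : PT I) (hx : PT x) : PT fun a => off (I a) (x a) := by
  unfold off; fun_prop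
@[fun_prop] theorem pt_A (hI : PT I) (hx : PT x) : PT fun a => (dat (I a)).A (x a) := by
  simp only [dat]; fun_prop
@[fun_prop] theorem pt_nr (hI : PT I) (hx : PT x) (hy : PT y) :
    PT fun a => (dat (I a)).nr (x a) (y a) := by simp only [dat, Dat.nr]; fun_prop
@[fun_prop] theorem pt_vA (hI : PT I) (hx : PT x) (hy : PT y) :
    PT fun a => (dat (I a)).vA (x a) (y a) := by simp only [dat, Dat.vA]; fun_prop
@[fun_prop] theorem pt_s2 (hI : PT I) (hx : PT x) (hy : PT y) :
    PT fun a => (dat (I a)).s2 (x a) (y a) := by simp only [dat, Dat.s2]; fun_prop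
@[fun_prop] theorem pt_sA (hI : PT I) (hx : PT x) (hy : PT y) (hz : PT z) :
    PT fun a => (dat (I a)).sA (x a) (y a) (z a) := by
  unfold Dat.sA
  refine PT.int_mul (by fun_prop) ?_
  simp only [dat]; fun_prop
@[fun_prop] theorem pt_v3 (hI : PT I) (hx : PT x) (hy : PT y) (hz : PT z) :
    PT fun a => (dat (I a)).v3 (x a) (y a) (z a) := by unfold Dat.v3; fun_prop
@[fun_prop] theorem pt_s3 (hI : PT I) (hx : PT x) (hy : PT y) (hz : PT z) :
    PT fun a => (dat (I a)).s3 (x a) (y a) (z a) := by unfold Dat.s3; fun_prop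
@[fun_prop] theorem pt_lev (hI : PT I) (hx : PT x) : PT fun a => lev (I a) (x a) := by
  unfold lev; fun_prop
@[fun_prop] theorem pt_pr (hI : PT I) (hx : PT x) : PT fun a => pr (I a) (x a) := by
  unfold pr; fun_prop
@[fun_prop] theorem pt_eG (hI : PT I) (hx : PT x) : PT fun a => eG (I a) (x a) := by
  unfold eG; fun_prop
@[fun_prop] theorem pt_vG (hI : PT I) (hx : PT x) (hy : PT y) (hz : PT z) :
    PT fun a => vG (I a) (x a) (y a) (z a) := by unfold vG; fun_prop
@[fun_prop] theorem pt_ex {p : α → Tb} (hI : PT I) (hl : PT l) (hp : PT p) :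
    PT fun a => ex (eG (I a)) (vG (I a)) (l a) (p a) := by unfold ex at3; fun_prop
@[fun_prop] theorem pt_Sg {s : α → ℤ} (hI : PT I) (hl : PT l) (hs : PT s) :
    PT fun a => Sg (I a) (l a) (s a) := by unfold Sg dom at3; fun_prop
@[fun_prop] theorem pt_cell (hI : PT I) (hl : PT l) : PT fun a => cell (I a) (l a) := by
  unfold cell; fun_prop
@[fun_prop] theorem pt_quads (hx : PT x) : PT fun a => quads (x a) := by unfold quads; fun_prop
@[fun_prop] theorem pt_cellsD (k : ℕ) (hI : PT I) : PT fun a => cellsD k (I a) := by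
  unfold cellsD cells; fun_prop

end

/-- The orientation problem attached to a quadratic system. -/
def inst (n : ℕ) (L : List Poly) : Inst :=
  ((names (ratioSys (posSys (strictSys n L)))).length +
      6 * (rename (ratioSys (posSys (strictSys n L)))).length + 1,
    orderSys (names (ratioSys (posSys (strictSys n L)))).length
      (rename (ratioSys (posSys (strictSys n L)))))

def outD (k n : ℕ) (L : List Poly) : List Bool :=
  bitEncode (NV (inst n L) + k, cellsD k (inst n L))

theorem pt_enc : PT fun p : ℕ × List (List ℕ) => bitEncode p :=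
  (PT.encode (ℕ × List (List ℕ)) (f := fun p : ℕ × List (List ℕ) =>
    ((p.1 : ℤ), p.2.map fun l => l.map fun i : ℕ => (i : ℤ))) (by fun_prop)).of_eq
    fun p => congrArg bitEncode (Rep.down_up p)

theorem pt_outD {α : Type} [Enc α] (k : ℕ) {n : α → ℕ} {L : α → List Poly} (hn : PT n)
    (hL : PT L) : PT fun a => outD k (n a) (L a) := by
  have hI : PT fun a => inst (n a) (L a) := by unfold inst; fun_prop
  exact pt_enc.comp (PT.prodMk (by fun_prop) (pt_cellsD k hI))

theorem del_outD (k : ℕ) {n : ℕ} {L : List Poly} (h : ∀ E ∈ L, Good n 2 E) :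
    DEL (k + 3) (outD k n L) = true ↔ ∃ y, ∀ E ∈ L, evalP y E = 0 := by
  classical
  have hw : WF (inst n L).1 (inst n L).2 := wf_orderSys (bd_rename _)
  rw [strictSys_iff h, posSys_iff, ratioSys_iff, rename_iff, orderSys_iff (bd_rename _), DEL,
    decide_eq_true_iff]
  constructor
  · rintro ⟨m, F, e, -, p, hp⟩
    obtain ⟨rfl, rfl⟩ := Prod.mk.inj (bitEncode_injective e)
    exact po_of_realizes hw hp
  · exact fun hp => ⟨_, _, rfl, wf_cellsD, realizes_of_po hw (Nat.succ_pos _) hp⟩

/-- The reduction. -/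
def redD (k : ℕ) (w : List Bool) : List Bool :=
  ((bitDecode w : Option (ℕ × List (ℕ × ℤ))).map Rep.up).elim (outD k 0 [pconst 1])
    fun p : ℤ × List (ℤ × ℤ) =>
      if w = bitEncode (Rep.down p : ℕ × List (ℕ × ℤ)) then outD k (5 * p.2.length) (sys p.1 p.2)
      else outD k 0 [pconst 1]

theorem redD_correct (k : ℕ) (w : List Bool) : ETR w = DEL (k + 3) (redD k w) := by
  classical
  have hno : ¬ DEL (k + 3) (outD k 0 [pconst 1]) = true := by
    rw [del_outD k (by simpa using Good.const 1)]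
    simp
  have hup : ∀ p : ℕ × List (ℕ × ℤ), Rep.up p = ((p.1 : ℤ), up p.2) := fun _ => rfl
  rw [Bool.eq_iff_iff, ETR, decide_eq_true_iff]
  constructor
  · rintro ⟨m, φ, rfl, x, hx⟩
    rw [redD, bitDecode_bitEncode, Option.map_some, Option.elim_some, Rep.down_up, if_pos rfl, hup,
      del_outD k (good_sys _ _), sys_iff]
    exact ⟨φ, rfl, x, hx⟩
  · intro h
    unfold redD at h
    rcases hd : (bitDecode w : Option (ℕ × List (ℕ × ℤ))) with _ | ⟨m, l⟩
    · rw [hd] at h
      exact absurd h hno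
    rw [hd, Option.map_some, Option.elim_some, Rep.down_up] at h
    split_ifs at h with hw
    · rw [hup, del_outD k (good_sys _ _), sys_iff] at h
      obtain ⟨φ, hl, hx⟩ := h
      exact ⟨m, φ, by rw [hw, show l = φ.code from up_injective hl], hx⟩
    · exact absurd h hno

theorem pt_redD (k : ℕ) : PT (redD k) :=
  PT.option_elim (PT.decode (ℕ × List (ℕ × ℤ)) PT.id) (PT.const _)
    (PT.ite (PT.dec_eq (by fun_prop) (PT.encode (ℕ × List (ℕ × ℤ)) (by fun_prop)))
      (pt_outD k (by fun_prop) (by fun_prop)) (PT.const _))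

theorem hard {d : ℕ} (hd : 3 ≤ d) : N793a5b8e.ManyOneReducible ETR (DEL d) := by
  obtain ⟨k, rfl⟩ := Nat.exists_eq_add_of_le' hd
  exact manyOne_of_PT (pt_redD k) (redD_correct k)

end Pool.Agent.Lib.MP_8817b2_lc
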