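import Pool.Agent.Lib.MP_42f8a6_lc.ED
import Pool.Agent.Lib.MP_ca1301_lc.Main

/-! Existentially definable predicates reduce to the existential theory of the reals. -/

namespace Pool.Agent.Lib.MP_8817b2_lc

open N487b59b3 Pool.Agent.Lib.Complexity Pool.Agent.Lib.MP_42f8a6_lc Function
open Pool.Agent.Lib.MP_ca1301_lc (ETR up up_injective)

abbrev Tm2 := MP_ca1301_lc.Tm
abbrev Fm2 := MP_ca1301_lc.Fm

theorem tm_code_inj {m : ℕ} (s : Tm2 m) : ∀ (t : Tm2 m) (l l' : List (ℕ × ℤ)),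
    l ++ s.code = l' ++ t.code → s = t ∧ l = l' := by
  induction s with
  | var i => intro t l l' h; cases t <;>
      simp_all [MP_ca1301_lc.Tm.code, ← List.append_assoc, Fin.ext_iff]
  | const z => intro t l l' h; cases t <;> simp_all [MP_ca1301_lc.Tm.code, ← List.append_assoc]
  | add a b iha ihb =>
    intro t l l' h
    cases t <;> simp [MP_ca1301_lc.Tm.code, ← List.append_assoc] at h
    obtain ⟨rfl, h'⟩ := ihb _ _ _ h
    obtain ⟨rfl, rfl⟩ := iha _ _ _ h'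
    exact ⟨rfl, rfl⟩
  | mul a b iha ihb =>
    intro t l l' h
    cases t <;> simp [MP_ca1301_lc.Tm.code, ← List.append_assoc] at h
    obtain ⟨rfl, h'⟩ := ihb _ _ _ h
    obtain ⟨rfl, rfl⟩ := iha _ _ _ h'
    exact ⟨rfl, rfl⟩
  | neg a iha =>
    intro t l l' h
    cases t <;> simp [MP_ca1301_lc.Tm.code, ← List.append_assoc] at h
    obtain ⟨rfl, rfl⟩ := iha _ _ _ h
    exact ⟨rfl, rfl⟩

theorem fm_code_inj {m : ℕ} (s : Fm2 m) : ∀ (t : Fm2 m) (l l' : List (ℕ × ℤ)),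
    l ++ s.code = l' ++ t.code → s = t ∧ l = l' := by
  induction s with
  | eq a b | lt a b | le a b =>
    intro t l l' h
    cases t <;> simp [MP_ca1301_lc.Fm.code, ← List.append_assoc] at h
    obtain ⟨rfl, h'⟩ := tm_code_inj _ _ _ _ h
    obtain ⟨rfl, rfl⟩ := tm_code_inj _ _ _ _ h'
    exact ⟨rfl, rfl⟩
  | and a b iha ihb | or a b iha ihb =>
    intro t l l' h
    cases t <;> simp [MP_ca1301_lc.Fm.code, ← List.append_assoc] at h
    obtain ⟨rfl, h'⟩ := ihb _ _ _ h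
    obtain ⟨rfl, rfl⟩ := iha _ _ _ h'
    exact ⟨rfl, rfl⟩
  | not a iha =>
    intro t l l' h
    cases t <;> simp [MP_ca1301_lc.Fm.code, ← List.append_assoc] at h
    obtain ⟨rfl, rfl⟩ := iha _ _ _ h
    exact ⟨rfl, rfl⟩

variable {V : Type} [Enc V]

def nameV (v : V) : ℕ := bval ((enc v).bits ++ [true])

theorem bits_bval_app (l : Str) : (bval (l ++ [true])).bits = l ++ [true] := by
  induction l with
  | nil => simp
  | cons b l ih =>
    rw [List.cons_append, bval_cons, ← Nat.bit_val, Nat.bits_append_bit _ _ fun h => ?_, ih]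
    rw [h] at ih; simp at ih

theorem nameV_inj : Injective (nameV : V → ℕ) := fun a b h => by
  have := congrArg Nat.bits h
  simp only [nameV, bits_bval_app, List.append_cancel_right_eq] at this
  exact Enc.inj (PT.bits_inj this)

def lfc : V ⊕ ℤ → ℤ × ℤ := Sum.elim (fun v => (0, (nameV v : ℤ))) fun c => (1, c)

def rpT : TT V → List (ℤ × ℤ)
  | .leaf a => [lfc a]
  | .add s t => rpT s ++ rpT t ++ [(2, 0)]
  | .mul s t => rpT s ++ rpT t ++ [(3, 0)]

def rpF : FF V → List (ℤ × ℤ)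
  | .eq s t => rpT s ++ rpT t ++ [(5, 0)]
  | .lt s t => rpT s ++ rpT t ++ [(6, 0)]
  | .not p => rpF p ++ [(8, 0)]
  | .and p q => rpF p ++ rpF q ++ [(9, 0)]
  | .or p q => rpF p ++ rpF q ++ [(10, 0)]

theorem conv_tm {m : ℕ} (t : TT V) (h : ∀ k ∈ rpT t, k.2 < m) : ∃ s : Tm2 m,
    up s.code = rpT t ∧ ∀ x : ℕ → ℝ, s.eval (fun i => x i) = ev (fun v => x (nameV v)) t := by
  induction t with
  | leaf a =>
    rcases a with v | c
    · exact ⟨.var ⟨nameV v, by simpa [rpT, lfc] using h⟩, rfl, fun _ => rfl⟩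
    · exact ⟨.const c, rfl, fun _ => rfl⟩
  | add a b iha ihb =>
    simp only [rpT, List.forall_mem_append] at h
    obtain ⟨s, e, e'⟩ := iha h.1.1
    obtain ⟨t, f, f'⟩ := ihb h.1.2
    exact ⟨.add s t, by simp [MP_ca1301_lc.Tm.code, rpT, e, f],
      fun x => by simp [MP_ca1301_lc.Tm.eval, e', f']⟩
  | mul a b iha ihb =>
    simp only [rpT, List.forall_mem_append] at h
    obtain ⟨s, e, e'⟩ := iha h.1.1
    obtain ⟨t, f, f'⟩ := ihb h.1.2
    exact ⟨.mul s t, by simp [MP_ca1301_lc.Tm.code, rpT, e, f],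
      fun x => by simp [MP_ca1301_lc.Tm.eval, e', f']⟩

theorem conv_fm {m : ℕ} (p : FF V) (h : ∀ k ∈ rpF p, k.2 < m) : ∃ φ : Fm2 m,
    up φ.code = rpF p ∧ ∀ x : ℕ → ℝ, φ.Holds (fun i => x i) ↔ sat (fun v => x (nameV v)) p := by
  induction p with
  | eq a b =>
    simp only [rpF, List.forall_mem_append] at h
    obtain ⟨s, e, e'⟩ := conv_tm a h.1.1
    obtain ⟨t, f, f'⟩ := conv_tm b h.1.2
    exact ⟨.eq s t, by simp [MP_ca1301_lc.Fm.code, rpF, e, f],
      fun x => by simp [MP_ca1301_lc.Fm.Holds, e', f']⟩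
  | lt a b =>
    simp only [rpF, List.forall_mem_append] at h
    obtain ⟨s, e, e'⟩ := conv_tm a h.1.1
    obtain ⟨t, f, f'⟩ := conv_tm b h.1.2
    exact ⟨.lt s t, by simp [MP_ca1301_lc.Fm.code, rpF, e, f],
      fun x => by simp [MP_ca1301_lc.Fm.Holds, e', f']⟩
  | not a iha =>
    simp only [rpF, List.forall_mem_append] at h
    obtain ⟨s, e, e'⟩ := iha h.1
    exact ⟨.not s, by simp [MP_ca1301_lc.Fm.code, rpF, e],
      fun x => by simp [MP_ca1301_lc.Fm.Holds, e']⟩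
  | and a b iha ihb =>
    simp only [rpF, List.forall_mem_append] at h
    obtain ⟨s, e, e'⟩ := iha h.1.1
    obtain ⟨t, f, f'⟩ := ihb h.1.2
    exact ⟨.and s t, by simp [MP_ca1301_lc.Fm.code, rpF, e, f],
      fun x => by simp [MP_ca1301_lc.Fm.Holds, e', f']⟩
  | or a b iha ihb =>
    simp only [rpF, List.forall_mem_append] at h
    obtain ⟨s, e, e'⟩ := iha h.1.1
    obtain ⟨t, f, f'⟩ := ihb h.1.2
    exact ⟨.or s t, by simp [MP_ca1301_lc.Fm.code, rpF, e, f],
      fun x => by simp [MP_ca1301_lc.Fm.Holds, e', f']⟩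

theorem pt_rpT : PT (rpT : TT V → _) := by
  have h1 : PT fun v : V => (nameV v : ℤ) := PT.int_of_bin (PT.bval (by fun_prop))
  have h2 : PT (lfc : V ⊕ ℤ → _) :=
    PT.sum_elim PT.id ((PT.const _).prodMk (h1.comp (PT.snd PT.id))) (by fun_prop)
  have := pt_tm_rec (α := Unit) (g := fun _ (t : TT V) => rpT t) (f0 := fun _ x => [lfc x])
    (f := fun _ b r r' => r ++ r' ++ [bif b then ((3 : ℤ), (0 : ℤ)) else (2, 0)]) (by fun_prop)
    (by fun_prop) (fun _ _ => rfl) (fun _ _ _ => rfl) (fun _ _ _ => rfl)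
    (PT.const (sz ((3 : ℤ), (0 : ℤ)) + sz ((2 : ℤ), (0 : ℤ)) + 1))
    (fun a b r r' => by cases b <;> simp <;> omega)
  exact this.comp (f := fun a => ((), a)) (by fun_prop)

theorem pt_rpF : PT (rpF : FF V → _) := by
  have h := pt_rpT (V := V)
  have := pt_fm_rec (α := Unit) (g := fun _ (t : FF V) => rpF t)
    (f0 := fun _ b s t => rpT s ++ rpT t ++ [bif b then ((6 : ℤ), (0 : ℤ)) else (5, 0)])
    (f1 := fun _ r => r ++ [((8 : ℤ), (0 : ℤ))])
    (f := fun _ b r r' => r ++ r' ++ [bif b then ((10 : ℤ), (0 : ℤ)) else (9, 0)]) (by fun_prop)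
    (by fun_prop) (by fun_prop) (fun _ _ _ => rfl) (fun _ _ _ => rfl) (fun _ _ => rfl)
    (fun _ _ _ => rfl) (fun _ _ _ => rfl)
    (PT.const (sz ((8 : ℤ), (0 : ℤ)) + sz ((9 : ℤ), (0 : ℤ)) + sz ((10 : ℤ), (0 : ℤ)) + 1))
    (fun a r => by simp; omega) (fun a b r r' => by cases b <;> simp <;> omega)
  exact this.comp (f := fun a => ((), a)) (by fun_prop)

/-- The word of an existential sentence. -/
def outE (p : FF V) : Str :=
  bitEncode (Rep.down (((rpF p).map fun k => |k.2|).sum + 1, rpF p) : ℕ × List (ℕ × ℤ))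

theorem pt_outE : PT (outE : FF V → Str) := by
  have h := pt_rpF (V := V)
  exact PT.encode (ℕ × List (ℕ × ℤ)) (by fun_prop)

theorem etr_outE (p : FF V) : ETR (outE p) = true ↔ ∃ ω, sat ω p := by
  classical
  have hs : ∀ k ∈ (rpF p).map fun k => |k.2|, 0 ≤ k := List.forall_mem_map.2 fun _ _ => abs_nonneg _
  obtain ⟨m, hm⟩ := Int.eq_ofNat_of_zero_le (add_nonneg (List.sum_nonneg hs) zero_le_one)
  obtain ⟨φ, e, h⟩ := conv_fm (m := m) p fun k hk => by
    have := List.single_le_sum hs _ (List.mem_map_of_mem hk)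
    have := le_abs_self k.2
    omega
  have e2 : outE p = bitEncode (m, φ.code) := by
    rw [outE, hm, ← e]
    exact congrArg bitEncode (Rep.down_up (m, φ.code))
  rw [e2, ETR, decide_eq_true_iff]
  constructor
  · rintro ⟨m', φ', h1, x, hx⟩
    obtain ⟨rfl, h2⟩ := Prod.mk.inj (bitEncode_injective h1)
    obtain ⟨rfl, -⟩ := fm_code_inj _ _ [] [] h2
    exact ⟨_, (h (MP_ca1301_lc.ext x)).1 (by simpa [MP_ca1301_lc.ext] using hx)⟩
  · rintro ⟨ω, hω⟩
    exact ⟨m, φ, rfl, _, (h (extend nameV ω 0)).2 (by simpa [nameV_inj.extend_apply] using hω)⟩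

theorem ed_reduction {α : Type} [Enc α] {P : α → Prop} (h : ED fun a (_ : Unit → ℝ) => P a) :
    ∃ f : α → Str, PT f ∧ ∀ a, P a ↔ ETR (f a) = true := by
  obtain ⟨F, hF, h⟩ := h
  refine ⟨fun a => outE (F a), pt_outE.comp hF, fun a => ?_⟩
  rw [etr_outE]
  constructor
  · intro H
    obtain ⟨μ, hμ⟩ := (h a 0).1 H
    exact ⟨_, hμ⟩
  · rintro ⟨ω, hω⟩
    refine (h a fun v => ω (.inl v)).2 ⟨fun t => ω (.inr t), ?_⟩
    rwa [show (Sum.elim (fun v => ω (.inl v)) fun t => ω (.inr t)) = ω from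
      funext fun x => by cases x <;> rfl]

end Pool.Agent.Lib.MP_8817b2_lc
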