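import Pool.Agent.Lib.MP_8817b2_lc.Cert
import Pool.Agent.Lib.MP_8817b2_lc.ToETR
import Pool.Agent.Lib.MP_8817b2_lc.Main
import Pool.Agent.Lib.Complexity.Sim

/-! Realizability of Delaunay triangulations reduces to the existential theory of the reals. -/

namespace Pool.Agent.Lib.MP_8817b2_lc

open N487b59b3 Pool.Agent.Lib.Complexity Finset
open Pool.Agent.Lib.MP_42f8a6_lc hiding val ev
open Pool.Agent.Lib.MP_ca1301_lc (ETR)

def tuples (n : ℕ) : ℕ → List (List ℕ)
  | 0 => [[]]
  | k + 1 => (List.range n).flatMap fun i => (tuples n k).map fun t => i :: t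

theorem mem_tuples {n k : ℕ} {t : List ℕ} : t ∈ tuples n k ↔ t.length = k ∧ ∀ i ∈ t, i < n := by
  induction k generalizing t with
  | zero => cases t <;> simp [tuples]
  | succ k ih => cases t <;> simp [tuples, ih, and_left_comm]

@[fun_prop] theorem pt_tuples {α : Type} [Enc α] {n : α → ℕ} (hn : PT n) (k : ℕ) :
    PT fun a => tuples (n a) k := by
  induction k generalizing α with
  | zero => exact PT.const _
  | succ k ih =>
    have := ih (n := fun p : α × ℕ => n p.1) (by fun_prop)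
    unfold tuples
    fun_prop

abbrev VV : Type := (ℕ × ℕ) ⊕ ℕ

def vT (d j : ℕ) : TT VV :=
  .add (.add (tv (.inr d)) (tsum (List.range d) fun k => .mul (tv (.inr k)) (tv (.inl (j, k)))))
    (.mul (tv (.inr (d + 1))) (tsum (List.range d) fun k => tpow (tv (.inl (j, k))) 2))

@[fun_prop] theorem pt_vT {α : Type} [Enc α] {j : α → ℕ} (d : ℕ) (hj : PT j) :
    PT fun a => vT d (j a) := by unfold vT; fun_prop

def f1 (d n : ℕ) (l : List ℕ) : FF VV := .and (.lt (tc 0) (tv (.inr (d + 1))))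
  (fall (List.range n) fun j => if j ∈ l then .eq (vT d j) (tc 0) else .lt (tc 0) (vT d j))

def f2 (d n : ℕ) (l : List ℕ) (r : ℕ) : FF VV :=
  .and (.eq (tsum (List.range n) fun j => if j ∈ l then tv (.inr j) else tc 0) (tc 1))
    (fall (List.range d) fun k => .eq (tsum (List.range n) fun j =>
      if j ∈ l then .mul (tv (.inr j)) (tv (.inl (j, k))) else tc 0) (if k = r then tc 1 else tc 0))

def f3 (d n : ℕ) (t : List ℕ) : FF VV := .and (fall t fun j => .eq (vT d j) (tc 0))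
  (.or (.and (.eq (tv (.inr (d + 1))) (tc 0))
      (fex (List.range (d + 1)) fun k => .not (.eq (tv (.inr k)) (tc 0))))
    (.and (.lt (tc 0) (tv (.inr (d + 1)))) (fex (List.range n) fun j => .lt (vT d j) (tc 0))))

/-- The certificate as a condition on the coordinates. -/
def Cert (d : ℕ) (a : ℕ × List (List ℕ)) (ν : ℕ × ℕ → ℝ) : Prop :=
  (∀ l ∈ a.2, (∃ μ, sat (Sum.elim ν μ) (f1 d a.1 l)) ∧
    ∀ r < d + 1, ∃ μ, sat (Sum.elim ν μ) (f2 d a.1 l r)) ∧
  ∀ t ∈ (tuples a.1 (d + 1)).filter fun t =>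
      !a.2.any fun l => (List.range a.1).all fun j => decide (j ∈ t) == decide (j ∈ l),
    ∃ μ, sat (Sum.elim ν μ) (f3 d a.1 t)

theorem ed_ex {α : Type} [Enc α] {F : α → FF VV} (hF : PT F) :
    ED fun a ν => ∃ μ, sat (Sum.elim ν μ) (F a) :=
  ED.ex (P := fun a ν μ => sat (Sum.elim ν μ) (F a)) ((ED.qf hF).congr fun a ω => by
    rw [show (Sum.elim (fun v => ω (.inl v)) fun t => ω (.inr t)) = ω from
      funext fun x => by cases x <;> rfl])

theorem ed_cert (d : ℕ) : ED (Cert d) :=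
  (ED.forall_mem (by fun_prop) ((ed_ex (by unfold f1; fun_prop)).and
    (ED.forall_lt (by fun_prop) (ed_ex (by unfold f2; fun_prop))))).and
  (ED.forall_mem (by fun_prop) (ed_ex (by unfold f3; fun_prop)))

variable {d n : ℕ} {p : Fin n → EuclideanSpace ℝ (Fin d)} {ν : ℕ × ℕ → ℝ}

def wOf (d : ℕ) (μ : ℕ → ℝ) : ℝ × (Fin d → ℝ) × ℝ := (μ d, fun k => μ k, μ (d + 1))

theorem exists_wOf {P : ℝ × (Fin d → ℝ) × ℝ → Prop} : (∃ w, P w) ↔ ∃ μ, P (wOf d μ) :=
  ⟨fun ⟨w, h⟩ => ⟨fun k => if h : k < d then w.2.1 ⟨k, h⟩ else if k = d then w.1 else w.2.2, by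
    simpa [wOf] using h⟩, fun ⟨_, h⟩ => ⟨_, h⟩⟩

theorem ev_vT (h : ∀ (i : Fin n) (k : Fin d), p i k = ν (i, k)) (μ : ℕ → ℝ) (j : Fin n) :
    MP_42f8a6_lc.ev (Sum.elim ν μ) (vT d j) = val (p j) (wOf d μ) := by
  simp [vT, val_apply, wOf, h, sum_range]

theorem cert_iff (h : ∀ (i : Fin n) (k : Fin d), p i k = ν (i, k)) {F : List (List ℕ)}
    (hF : ∀ l ∈ F, l.length = d + 1) : Realizes p F ↔ F ≠ [] ∧ Cert d (n, F) ν := by
  classical
  rw [realizes_iff hF]
  refine and_congr_right fun _ => and_congr (forall₂_congr fun l hl => ?_) ?_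
  · have e2 : Spans (p '' {i | (i : ℕ) ∈ l}) ↔
        ∀ r < d + 1, ∃ μ, sat (Sum.elim ν μ) (f2 d n l r) := by
      rw [spans_cert]
      refine forall₂_congr fun r _ => ⟨fun ⟨μ, h1, h2⟩ => ⟨MP_ca1301_lc.ext μ, ?_⟩,
        fun ⟨μ, hμ⟩ => ⟨fun j => μ j, ?_⟩⟩
      · simpa [f2, sum_range, MP_ca1301_lc.ext, h, Fin.forall_iff] using And.intro h1 h2
      · simpa [f2, sum_range, h, Fin.forall_iff] using hμ
    rw [← e2]
    refine and_congr_left fun hs => ?_
    rw [isCell_iff hs.nonempty, exists_wOf]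
    refine exists_congr fun μ => ?_
    simp only [f1, sat_and, sat_fall, List.mem_range, Set.mem_ofPred_eq, ← ev_vT h]
    refine and_congr (by simp [wOf]) ?_
    refine ⟨fun ⟨a, b⟩ j hj => ?_, fun a => ⟨fun j hj => ?_, fun j hj => ?_⟩⟩
    · split_ifs with hj'
      · simpa using a ⟨j, hj⟩ hj'
      · simpa using b ⟨j, hj⟩ hj'
    · simpa [hj] using a j j.2
    · simpa [hj] using a j j.2
  · simp only [List.mem_filter, mem_tuples, and_imp]
    refine forall₃_congr fun t _ ht => ?_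
    rw [or_iff_not_imp_left, exists_wOf]
    refine imp_congr (by simp) (exists_congr fun μ => ?_)
    simp only [f3, sat_and, sat_or, sat_fall, sat_fex, List.mem_range, ← ev_vT h]
    refine and_congr ⟨fun a j hj => by simpa using a ⟨j, ht j hj⟩ hj,
      fun a j hj => by simpa using a j hj⟩ (or_congr ?_ (and_congr (by simp [wOf])
      ⟨fun ⟨j, hj⟩ => ⟨j, j.2, by simpa using hj⟩, fun ⟨j, hj, a⟩ => ⟨⟨j, hj⟩, by simpa using a⟩⟩))
    simp only [wOf, sat_eq, sat_not, ev_tv, ev_tc, Sum.elim_inr, Int.cast_zero]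
    refine and_congr_right fun h0 => not_iff_comm.1 ?_
    simp only [not_exists, not_and, not_not, Nat.forall_lt_succ_right]
    simp [h0, funext_iff, Fin.forall_iff, and_comm]

def okB (d : ℕ) (a : ℕ × List (List ℕ)) : Bool := !a.2.isEmpty && a.2.all fun l =>
  (l.all fun i => decide (l.countP (fun j => decide (j = i)) ≤ 1)) &&
    (decide (l.length = d + 1) && l.all fun i => decide (i < a.1))

theorem okB_iff {F : List (List ℕ)} : okB d (n, F) = true ↔
    F ≠ [] ∧ ∀ l ∈ F, l.Nodup ∧ l.length = d + 1 ∧ ∀ i ∈ l, i < n := by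
  have : ∀ l : List ℕ, (∀ i ∈ l, l.countP (fun j => decide (j = i)) ≤ 1) ↔ l.Nodup := fun l => by
    rw [List.nodup_iff_count_le_one]
    refine ⟨fun h i => ?_, fun h i _ => h i⟩
    by_cases hi : i ∈ l
    · exact h i hi
    · simp [List.count_eq_zero_of_not_mem hi]
  simp [okB, this]

def rdD (w : Str) : ℕ × List (List ℕ) :=
  (((bitDecode w : Option (ℕ × List (List ℕ))).map Rep.up : Option (ℤ × List (List ℤ)))).elim
    (0, []) fun q => (min q.1.toNat q.2.flatten.length,
      q.2.map fun l => l.map fun z => min z.toNat q.2.flatten.length)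

theorem member (d : ℕ) : N793a5b8e.ManyOneReducible (DEL d) ETR := by
  classical
  have h1 : ED fun (a : Str × ℕ × List (List ℕ)) (_ : Unit → ℝ) =>
      (a.1 = bitEncode a.2 ∧ okB d a.2 = true) ∧ ∃ ν, Cert d a.2 ν := by
    have := pt_enc
    refine (ED.cond (c := fun a => decide (a.1 = bitEncode a.2) && okB d a.2)
      (by unfold okB; fun_prop) (ED.ex (P := fun a _ ν => Cert d a.2 ν)
        (((ed_cert d).comp (by fun_prop)).rename (r := Sum.inr) (by fun_prop)))
      (ED.qf (PT.const fls))).congr fun a ν => ?_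
    by_cases h : a.1 = bitEncode a.2 <;> cases okB d a.2 <;> simp [h]
  obtain ⟨f, hf, h⟩ := ed_reduction h1
  have hr : PT rdD := PT.option_elim (PT.decode _ PT.id) (PT.const _) (by fun_prop)
  refine manyOne_of_PT (f := fun w => f (w, rdD w)) (by fun_prop) fun w => ?_
  rw [Bool.eq_iff_iff, ← h, DEL, decide_eq_true_iff]
  constructor
  · rintro ⟨n, F, rfl, hF, p, hp⟩
    have hn := le_of_realizes hp
    have e : rdD (bitEncode (n, F)) = (n, F) := by
      have e1 : (Rep.up F : List (List ℤ)).flatten.length = F.flatten.length := by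
        simp [Function.comp_def]
      rw [rdD, bitDecode_bitEncode, Option.map_some, Option.elim_some, up_prod, e1]
      simp only [up_nat, Int.toNat_natCast, up_list, List.map_map, Function.comp_def,
        min_eq_left hn]
      congr 1
      conv_rhs => rw [← List.map_id F]
      refine List.map_congr_left fun l hl => ?_
      conv_rhs => rw [id, ← List.map_id l]
      exact List.map_congr_left fun i hi => min_eq_left (((hF l hl).2.2 i hi).le.trans hn)
    have := (cert_iff (ν := fun x => if h : x.1 < n ∧ x.2 < d then p ⟨_, h.1⟩ ⟨_, h.2⟩ else 0)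
      (fun i k => by simp) fun l hl => (hF l hl).2.1).1 hp
    rw [e]
    exact ⟨⟨rfl, okB_iff.2 ⟨this.1, hF⟩⟩, _, this.2⟩
  · rintro ⟨⟨e, h2⟩, ν, h3⟩
    have h4 := okB_iff.1 h2
    exact ⟨_, _, e, h4.2, fun i => WithLp.toLp 2 fun k => ν (i, k),
      (cert_iff (fun _ _ => rfl) fun l hl => (h4.2 l hl).2.1).2 ⟨h4.1, h3⟩⟩

theorem complete (hd : 3 ≤ d) :
    N793a5b8e.IsCompleteFor {L | N793a5b8e.ManyOneReducible L ETR} (DEL d) := by
  refine ⟨member d, fun L ⟨f, hf, e⟩ => ?_⟩
  obtain ⟨g, hg, e'⟩ := hard hd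
  exact ⟨fun x => g (f x), tm2_comp hf hg, fun x => (e x).trans (e' _)⟩

end Pool.Agent.Lib.MP_8817b2_lc
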