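import Mathlib

/-! Weighted coefficient norms of polynomials, determinants and root bounds. -/

namespace Pool.Agent.Lib.MP_8817b2_lc

open Polynomial Finset

variable {R : Type} [CommRing R]

/-- A submultiplicative seminorm. -/
structure IsN (ν : R → ℝ) : Prop where
  nonneg : ∀ a, 0 ≤ ν a
  zero : ν 0 = 0
  one : ν 1 ≤ 1
  add : ∀ a b, ν (a + b) ≤ ν a + ν b
  neg : ∀ a, ν (-a) = ν a
  mul : ∀ a b, ν (a * b) ≤ ν a * ν b

theorem IsN.sum {ν : R → ℝ} (h : IsN ν) {ι : Type} (s : Finset ι) (f : ι → R) :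
    ν (∑ i ∈ s, f i) ≤ ∑ i ∈ s, ν (f i) := by
  classical
  induction s using Finset.induction_on with
  | empty => simp [h.zero]
  | insert a s ha ih =>
    rw [sum_insert ha, sum_insert ha]
    exact (h.add _ _).trans (by linarith)

theorem IsN.prod {ν : R → ℝ} (h : IsN ν) {ι : Type} (s : Finset ι) (f : ι → R) {b : ℝ}
    (hb : ∀ i, ν (f i) ≤ b) : ν (∏ i ∈ s, f i) ≤ b ^ s.card := by
  classical
  induction s using Finset.induction_on with
  | empty => simpa using h.one
  | insert a s ha ih =>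
    rw [prod_insert ha, card_insert_of_notMem ha, pow_succ']
    exact (h.mul _ _).trans (mul_le_mul (hb a) ih (h.nonneg _) ((h.nonneg _).trans (hb a)))

theorem IsN.det {ν : R → ℝ} (h : IsN ν) {ι : Type} [Fintype ι] [DecidableEq ι]
    (A : Matrix ι ι R) {b : ℝ} (hb : ∀ i j, ν (A i j) ≤ b) :
    ν A.det ≤ (Fintype.card ι).factorial * b ^ Fintype.card ι := by
  rw [Matrix.det_apply]
  refine (h.sum _ _).trans ((sum_le_card_nsmul _ _ (b ^ Fintype.card ι) fun σ _ => ?_).trans ?_)
  · have := h.prod univ (fun i => A (σ i) i) fun i => hb _ _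
    rcases Int.units_eq_one_or (Equiv.Perm.sign σ) with e | e <;> rw [e]
    · simpa using this
    · simpa [h.neg] using this
  · simp [Fintype.card_perm]

/-- Weighted sum of the norms of the coefficients. -/
noncomputable def wn (ν : R → ℝ) (y : ℝ) (P : R[X]) : ℝ := ∑ j ∈ P.support, ν (P.coeff j) * y ^ j

variable {ν : R → ℝ} {y : ℝ}

theorem wn_eq (h : IsN ν) (y : ℝ) (P : R[X]) {s : Finset ℕ} (hs : P.support ⊆ s) :
    wn ν y P = ∑ j ∈ s, ν (P.coeff j) * y ^ j :=
  sum_subset hs fun j _ hj => by rw [notMem_support_iff.1 hj, h.zero, zero_mul]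

theorem wn_monomial (h : IsN ν) (y : ℝ) (j : ℕ) (a : R) :
    wn ν y (monomial j a) = ν a * y ^ j := by
  rw [wn_eq h y _ (support_monomial_subset j a)]
  simp

theorem wn_add (h : IsN ν) (hy : 0 ≤ y) (P Q : R[X]) : wn ν y (P + Q) ≤ wn ν y P + wn ν y Q := by
  rw [wn_eq h y _ support_add, wn_eq h y P subset_union_left, wn_eq h y Q subset_union_right,
    ← sum_add_distrib]
  refine sum_le_sum fun j _ => ?_
  rw [← add_mul, coeff_add]
  exact mul_le_mul_of_nonneg_right (h.add _ _) (pow_nonneg hy _)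

theorem IsN.wn (h : IsN ν) (hy : 0 ≤ y) : IsN (wn ν y) := by
  have h0 : MP_8817b2_lc.wn ν y 0 = 0 := by simp [MP_8817b2_lc.wn]
  have hs : ∀ (s : Finset ℕ) (f : ℕ → R[X]),
      MP_8817b2_lc.wn ν y (∑ i ∈ s, f i) ≤ ∑ i ∈ s, MP_8817b2_lc.wn ν y (f i) := by
    intro s f
    induction s using Finset.induction_on with
    | empty => simp [h0]
    | insert a s ha ih =>
      rw [sum_insert ha, sum_insert ha]
      exact (wn_add h hy _ _).trans (by linarith)
  refine ⟨fun P => sum_nonneg fun j _ => mul_nonneg (h.nonneg _) (pow_nonneg hy _), h0, ?_,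
    wn_add h hy, fun P => by simp [MP_8817b2_lc.wn, h.neg], fun P Q => ?_⟩
  · rw [← monomial_zero_one, wn_monomial h]
    simpa using h.one
  · rw [mul_eq_sum_sum]
    refine (hs _ _).trans ?_
    rw [MP_8817b2_lc.wn, MP_8817b2_lc.wn, sum_mul_sum]
    refine sum_le_sum fun i _ => (hs _ _).trans (sum_le_sum fun j _ => ?_)
    rw [wn_monomial h, pow_add, mul_mul_mul_comm]
    exact mul_le_mul_of_nonneg_right (h.mul _ _) (by positivity)

theorem isN_abs : IsN fun a : ℤ => |(a : ℝ)| :=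
  ⟨fun _ => abs_nonneg _, by simp, by simp, fun a b => by push_cast; exact abs_add_le _ _,
    fun a => by simp, fun a b => by simp [abs_mul]⟩

theorem abs_eval_le (f : R →+* ℝ) (hf : ∀ a, |f a| ≤ ν a) (hy : 0 ≤ y) (P : R[X]) :
    |P.eval₂ f y| ≤ wn ν y P := by
  rw [eval₂_eq_sum, Polynomial.sum]
  refine (abs_sum_le_sum_abs _ _).trans (sum_le_sum fun j _ => ?_)
  rw [abs_mul, abs_of_nonneg (pow_nonneg hy _)]
  exact mul_le_mul_of_nonneg_right (hf _) (pow_nonneg hy _)

theorem coeff_le_wn (h : IsN ν) (P : R[X]) (j : ℕ) : ν (P.coeff j) ≤ wn ν 1 P := by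
  rw [wn_eq h 1 P (subset_insert j _)]
  simp only [one_pow, mul_one]
  exact single_le_sum (f := fun j => ν (P.coeff j)) (fun _ _ => h.nonneg _) (mem_insert_self _ _)

theorem root_bound (h : IsN ν) (f : R →+* ℝ) (hf : ∀ a, |f a| ≤ ν a) {P : R[X]} {K : ℝ}
    (h1 : 1 ≤ |f P.leadingCoeff|) (hK : wn ν 1 P ≤ K) (hy : K + 1 ≤ y) : 1 ≤ |P.eval₂ f y| := by
  have hK0 : 0 ≤ K := ((h.wn zero_le_one).nonneg P).trans hK
  have hy1 : 1 ≤ y := by linarith
  rw [wn_eq h 1 P supp_subset_range_natDegree_succ, sum_range_succ] at hK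
  rw [eval₂_eq_sum_range, sum_range_succ, coeff_natDegree]
  rcases hd : P.natDegree with _ | d
  · simpa using h1
  rw [hd] at hK
  have h2 : |∑ j ∈ range (d + 1), f (P.coeff j) * y ^ j| ≤ K * y ^ d := by
    refine (abs_sum_le_sum_abs _ _).trans ?_
    refine le_trans ?_ (mul_le_mul_of_nonneg_right (le_trans (le_add_of_nonneg_right
      (mul_nonneg (h.nonneg _) (by positivity))) hK) (by positivity))
    rw [sum_mul]
    refine sum_le_sum fun j hj => ?_
    rw [abs_mul, abs_of_nonneg (by positivity : 0 ≤ y ^ j), one_pow, mul_one]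
    exact mul_le_mul (hf _) (pow_le_pow_right₀ hy1 (by simpa [Nat.lt_succ_iff] using hj))
      (by positivity) (h.nonneg _)
  have h3 : y ^ (d + 1) ≤ |f P.leadingCoeff * y ^ (d + 1)| := by
    rw [abs_mul, abs_of_nonneg (by positivity : 0 ≤ y ^ (d + 1))]
    exact le_mul_of_one_le_left (by positivity) h1
  have h4 := abs_sub_abs_le_abs_add (f P.leadingCoeff * y ^ (d + 1))
    (∑ j ∈ range (d + 1), f (P.coeff j) * y ^ j)
  have h5 : 1 ≤ y ^ d := one_le_pow₀ hy1
  rw [add_comm (f P.leadingCoeff * _)] at h4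
  rw [pow_succ] at h3 h4 ⊢
  nlinarith

/-- An eigenvalue `φ` of an integer polynomial matrix at `t` cannot be large if `t` is huge. -/
theorem eigen_bound {ι : Type} [Fintype ι] [DecidableEq ι] (A : Matrix ι ι ℤ[X]) {H t φ : ℝ}
    (hA : ∀ i j, wn (fun a : ℤ => |(a : ℝ)|) 1 (A i j) ≤ H) {v : ι → ℝ} (hv : v ≠ 0)
    (he : ∀ i, φ * v i = ∑ j, (A i j).eval₂ (Int.castRingHom ℝ) t * v j)
    (hφ : (Fintype.card ι).factorial * (1 + H) ^ Fintype.card ι + 1 ≤ φ)
    (ht : (Fintype.card ι).factorial * (φ + H) ^ Fintype.card ι + 1 ≤ t) : False := by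
  let M : Matrix ι ι ℤ[X][X] := Matrix.scalar ι (C X) - A.map (Polynomial.map C)
  have hb : ∀ y : ℝ, 0 ≤ y → wn (wn (fun a : ℤ => |(a : ℝ)|) y) 1 M.det ≤
      (Fintype.card ι).factorial * (y + H) ^ Fintype.card ι := fun y hy => by
    have h1 := isN_abs.wn hy
    have h2 := h1.wn zero_le_one
    refine h2.det M fun i j => ?_
    simp only [M, sub_eq_add_neg, Matrix.add_apply, Matrix.neg_apply]
    refine (h2.add _ _).trans (add_le_add ?_ ?_)
    · rw [Matrix.scalar_apply, Matrix.diagonal_apply]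
      split_ifs
      · rw [← monomial_zero_left, wn_monomial h1, ← monomial_one_one_eq_X, wn_monomial isN_abs]
        simp
      · rw [h2.zero]; exact hy
    · rw [h2.neg, Matrix.map_apply, wn_eq h1 1 _ (support_map_subset _ _)]
      refine le_trans (le_of_eq (sum_congr rfl fun k _ => ?_)) (hA i j)
      rw [coeff_map, ← monomial_zero_left, wn_monomial isN_abs]
      simp
  have hM : M.det ≠ 0 := fun h => by
    have h1 := (A.map (evalRingHom 0)).charpoly_monic.ne_zero
    refine h1 ?_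
    rw [← map_zero (evalRingHom (0 : ℤ[X])), ← h, RingHom.map_det, Matrix.charpoly]
    congr 1
    ext1 i j
    simp only [M, Matrix.charmatrix, Matrix.sub_apply, Matrix.scalar_apply, Matrix.diagonal_apply,
      RingHom.mapMatrix_apply, Matrix.map_apply, map_sub, coe_evalRingHom, eval_zero_map]
    split_ifs <;> simp
  have hH : 0 ≤ (Fintype.card ι).factorial * (1 + H) ^ Fintype.card ι :=
    (((isN_abs.wn zero_le_one).wn zero_le_one).nonneg _).trans (hb 1 zero_le_one)
  have hφ0 : 0 ≤ φ := by linarith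
  have h1 : 1 ≤ |M.det.leadingCoeff.eval₂ (Int.castRingHom ℝ) φ| := by
    refine root_bound isN_abs _ (fun a => le_rfl) ?_
      ((coeff_le_wn (isN_abs.wn zero_le_one) _ _).trans (hb 1 zero_le_one)) hφ
    have := leadingCoeff_ne_zero.2 (leadingCoeff_ne_zero.2 hM)
    rw [eq_intCast]
    exact_mod_cast Int.one_le_abs this
  have h2 := root_bound (isN_abs.wn hφ0) (eval₂RingHom (Int.castRingHom ℝ) φ)
    (fun a => abs_eval_le _ (fun a => le_rfl) hφ0 a) h1 (hb φ hφ0) ht
  have h3 : M.det.eval₂ (eval₂RingHom (Int.castRingHom ℝ) φ) t = 0 := by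
    rw [← coe_eval₂RingHom, RingHom.map_det, ← Matrix.exists_mulVec_eq_zero_iff]
    refine ⟨v, hv, funext fun i => ?_⟩
    simp only [M, Matrix.mulVec, dotProduct, RingHom.mapMatrix_apply, Matrix.map_apply,
      Matrix.sub_apply, Matrix.scalar_apply, Matrix.diagonal_apply, map_sub, coe_eval₂RingHom,
      sub_mul, sum_sub_distrib, Pi.zero_apply, eval₂_map]
    rw [sub_eq_zero, sum_eq_single i (fun j _ hj => by simp [hj.symm]) (by simp)]
    simp only [if_true, eval₂_C, coe_eval₂RingHom, eval₂_X, he]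
    refine sum_congr rfl fun j _ => ?_
    congr 2
    exact RingHom.ext_int _ _
  rw [h3] at h2
  norm_num at h2

end Pool.Agent.Lib.MP_8817b2_lc
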