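import Pool.Agent.Lib.MP_8817b2_lc.Ratio

/-! From comparisons of ratios to prescribed orientations of points sorted by abscissa. -/

namespace Pool.Agent.Lib.MP_8817b2_lc

open Pool.Agent.Lib.Complexity

abbrev Test : Type := ℕ × ℕ × ℕ × Bool

def ori (m b : ℕ → ℝ) (i j l : ℕ) : ℝ := (m j - m i) * (b l - b i) - (m l - m i) * (b j - b i)

/-- Points with increasing abscissae and prescribed orientations of some triples. -/
def PO (n : ℕ) (ts : List Test) : Prop := ∃ m b : ℕ → ℝ, (∀ i j, i < j → j < n → m i < m j) ∧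
  ∀ t ∈ ts, bif t.2.2.2 then 0 < ori m b t.1 t.2.1 t.2.2.1 else ori m b t.1 t.2.1 t.2.2.1 < 0

def WF (n : ℕ) (ts : List Test) : Prop := ∀ t ∈ ts, t.1 < t.2.1 ∧ t.2.1 < t.2.2.1 ∧ t.2.2.1 < n

def gad (B H : ℕ) (g : G6 ℕ) : List Test :=
  [(g.1, B + 1, H, true), (g.2.1, B + 2, H, false), (g.2.2.1, B + 5, H, true),
    (g.2.2.2.1, B, H, false), (g.2.2.2.2.1, B + 3, H, true), (g.2.2.2.2.2, B + 4, H, false),
    (B + 1, B + 2, B + 5, true), (B, B + 3, B + 4, false)]

def orderSys (n : ℕ) (L : List (G6 ℕ)) : List Test :=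
  (L.zipIdx 0).flatMap fun e => gad (n + 6 * e.2) (n + 6 * L.length) e.1

theorem mem_zip {α : Type} {L : List α} {e : α × ℕ} (h : e ∈ L.zipIdx 0) :
    e.2 < L.length ∧ e.1 ∈ L ∧ L[e.2]? = some e.1 := by
  have h3 := List.mem_zipIdx_iff_getElem?.1 h
  exact ⟨(List.getElem?_eq_some_iff.1 h3).1, List.mem_of_getElem? h3, h3⟩

theorem wf_orderSys {n : ℕ} {L : List (G6 ℕ)} (h : ∀ g ∈ L, Bd n g) :
    WF (n + 6 * L.length + 1) (orderSys n L) := by
  refine List.forall_mem_flatMap.2 fun e he => ?_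
  obtain ⟨h1, h2, -⟩ := mem_zip he
  have := h _ h2
  simp only [Bd] at this
  simp only [gad, List.forall_mem_cons]
  simp
  omega

theorem gr_of_points {x y : ℕ → ℝ} {o a b o' c d : ℝ} (h0 : x 0 < x 1) (h1 : x 1 < x 2)
    (h2 : x 2 < x 3) (h3 : x 3 < x 4) (h4 : x 4 < x 5) (a1 : y 1 < o) (a2 : a < y 2)
    (a3 : y 5 < b) (a4 : o' < y 0) (a5 : y 3 < c) (a6 : d < y 4) (a7 : 0 < ori x y 1 2 5)
    (a8 : ori x y 0 3 4 < 0) : Gr o a b o' c d := by
  unfold ori at a7 a8
  have p1 : 0 < x 5 - x 1 := by linarith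
  have p2 : 0 < x 4 - x 0 := by linarith
  refine ⟨(x 2 - x 1) / (x 5 - x 1), (x 3 - x 0) / (x 4 - x 0), div_pos (by linarith) p1, ?_,
    (div_lt_one p2).2 (by linarith), ?_, ?_⟩
  · rw [div_lt_div_iff₀ p1 p2]
    nlinarith [mul_pos (sub_pos.2 h0) (show 0 < x 4 - x 3 by linarith),
      mul_pos (sub_pos.2 h2) p2, mul_pos (sub_pos.2 h4) (show 0 < x 3 - x 0 by linarith)]
  · rw [one_sub_div p1.ne', div_mul_eq_mul_div, div_mul_eq_mul_div, ← add_div, lt_div_iff₀ p1]
    nlinarith [mul_pos (sub_pos.2 a1) (show 0 < x 5 - x 2 by linarith),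
      mul_pos (sub_pos.2 a2) p1, mul_pos (sub_pos.2 a3) (sub_pos.2 h1)]
  · rw [one_sub_div p2.ne', div_mul_eq_mul_div, div_mul_eq_mul_div, ← add_div, div_lt_iff₀ p2]
    nlinarith [mul_pos (sub_pos.2 a4) (sub_pos.2 h3),
      mul_pos (sub_pos.2 a5) p2, mul_pos (sub_pos.2 a6) (show 0 < x 3 - x 0 by linarith)]

theorem points_of_gr (o a b o' c d : ℝ) : ∃ x y : ℕ → ℝ, 0 ≤ x 0 ∧ (∀ r < 5, x r < x (r + 1)) ∧
    x 5 < 1 ∧ (Gr o a b o' c d → y 1 < o ∧ a < y 2 ∧ y 5 < b ∧ o' < y 0 ∧ y 3 < c ∧ d < y 4 ∧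
      0 < ori x y 1 2 5 ∧ ori x y 0 3 4 < 0) := by
  by_cases h : Gr o a b o' c d
  · obtain ⟨ρ, ρ', h1, h2, h3, h4, h5⟩ := h
    obtain ⟨s, hs⟩ : ∃ s, s = ((1 - ρ) * o + ρ * b - a) / 3 := ⟨_, rfl⟩
    obtain ⟨s', hs'⟩ : ∃ s, s = (c - ((1 - ρ') * o' + ρ' * d)) / 3 := ⟨_, rfl⟩
    obtain ⟨ε, hε⟩ : ∃ ε, ε = (ρ' - ρ) / 2 := ⟨_, rfl⟩
    have e1 : 0 < ε := by linarith
    have e2 : ε < 1 / 2 := by linarith
    have e3 : 0 < s := by linarith
    have e4 : 0 < s' := by linarith
    refine ⟨fun r => [0, ε / 2, (ε + ρ * (1 - ε)) / 2, ρ' * (1 - ε) / 2, (1 - ε) / 2, 1 / 2].getD r 0,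
      fun r => [o' + s', o - s, a + s, c - s', d + s', b - s].getD r 0, le_rfl, fun r hr => ?_,
      by norm_num, fun _ => ?_⟩
    · interval_cases r <;> simp <;> nlinarith
    · simp only [ori, List.getD_cons_succ, List.getD_cons_zero]
      refine ⟨by linarith, by linarith, by linarith, by linarith, by linarith, by linarith, ?_, ?_⟩
      · rw [show a = (1 - ρ) * o + ρ * b - 3 * s by linarith]
        nlinarith
      · rw [show c = (1 - ρ') * o' + ρ' * d + 3 * s' by linarith]
        nlinarith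
  · exact ⟨fun r => r / 6, 0, by simp, fun r _ => by push_cast; linarith, by norm_num,
      fun h' => absurd h' h⟩

theorem orderSys_iff {n : ℕ} {L : List (G6 ℕ)} (h : ∀ g ∈ L, Bd n g) :
    (∃ Y : ℕ → ℝ, ∀ g ∈ L, GH Y g) ↔ PO (n + 6 * L.length + 1) (orderSys n L) := by
  obtain ⟨H, hH⟩ : ∃ H, H = n + 6 * L.length := ⟨_, rfl⟩
  constructor
  · rintro ⟨Y, hY⟩
    choose x y x0 x1 x5 hg using fun g : G6 ℕ => points_of_gr (Y g.1) (Y g.2.1) (Y g.2.2.1)
      (Y g.2.2.2.1) (Y g.2.2.2.2.1) (Y g.2.2.2.2.2)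
    let X : ℕ → ℝ := fun i => if i < n then i + 1 else
      n + 1 + ((i - n) / 6 : ℕ) + x (L.getD ((i - n) / 6) default) ((i - n) % 6)
    let Z : ℕ → ℝ := fun i => if i < n then Y i else y (L.getD ((i - n) / 6) default) ((i - n) % 6)
    have eX : ∀ j r, r < 6 → X (n + 6 * j + r) = n + 1 + j + x (L.getD j default) r ∧
        Z (n + 6 * j + r) = y (L.getD j default) r := fun j r hr => by
      simp only [X, Z, show ¬ n + 6 * j + r < n by omega, if_false,
        show (n + 6 * j + r - n) / 6 = j by omega, show (n + 6 * j + r - n) % 6 = r by omega,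
        and_self]
    have hX : StrictMono X := strictMono_nat_of_lt_succ fun i => by
      by_cases h1 : i < n
      · by_cases h2 : i + 1 < n
        · simp [X, h1, h2]
        · have := (eX 0 0 (by omega)).1
          rw [show i + 1 = n + 6 * 0 + 0 by omega, this, show n = i + 1 by omega]
          simp only [X, h1, if_true]
          push_cast
          linarith [x0 (L.getD 0 default)]
      · obtain ⟨j, r, hr, rfl⟩ : ∃ j r, r < 6 ∧ i = n + 6 * j + r :=
          ⟨(i - n) / 6, (i - n) % 6, by omega, by omega⟩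
        rw [(eX j r hr).1]
        by_cases h2 : r < 5
        · rw [add_assoc _ r, (eX j (r + 1) (by omega)).1]
          linarith [x1 (L.getD j default) r h2]
        · rw [show n + 6 * j + r + 1 = n + 6 * (j + 1) + 0 by omega, (eX _ 0 (by omega)).1,
            show r = 5 by omega]
          push_cast
          linarith [x5 (L.getD j default), x0 (L.getD (j + 1) default)]
    have hp : ∀ i, 0 < X i := fun i => lt_of_lt_of_le (by
      by_cases h1 : 0 < n
      · simp [X, h1]
      · have := (eX 0 0 (by omega)).1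
        rw [show n + 6 * 0 + 0 = 0 by omega] at this
        rw [this]
        linarith [x0 (L.getD 0 default), (Nat.cast_nonneg n : (0 : ℝ) ≤ n)])
      (hX.monotone (Nat.zero_le i))
    let m : ℕ → ℝ := fun i => if i < H then -1 / X i else 0
    let b : ℕ → ℝ := fun i => if i < H then Z i / X i else 0
    have o1 : ∀ i j, i < H → j < H → ori m b i j H = (Z i - Z j) / (X i * X j) := fun i j hi hj => by
      have := (hp i).ne'
      have := (hp j).ne'
      simp only [ori, m, b, hi, hj, lt_irrefl, if_true, if_false]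
      field_simp; ring
    have o2 : ∀ i j l, i < H → j < H → l < H →
        ori m b i j l = ori X Z i j l / (X i * X j * X l) := fun i j l hi hj hl => by
      have := (hp i).ne'
      have := (hp j).ne'
      have := (hp l).ne'
      simp only [ori, m, b, hi, hj, hl, if_true]
      field_simp; ring
    refine ⟨m, b, fun i j hij hj => ?_, List.forall_mem_flatMap.2 fun e he => ?_⟩
    · simp only [m, show i < H by omega, if_true]
      split_ifs
      · rw [neg_div, neg_div, neg_lt_neg_iff]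
        exact one_div_lt_one_div_of_lt (hp i) (hX hij)
      · exact div_neg_of_neg_of_pos (by norm_num) (hp i)
    · obtain ⟨h1, h2, h3⟩ := mem_zip he
      have h4 := h _ h2
      have h5 := hg e.1 (hY _ h2)
      have h6 : L.getD e.2 default = e.1 := by simp [List.getD_eq_getElem?_getD, h3]
      have h7 := fun r hr => eX e.2 r hr
      have h8 := h7 0 (by omega)
      have h9 : ∀ i, i < n → Z i = Y i := fun i hi => if_pos hi
      have pp : ∀ i j, 0 < X i * X j := fun i j => mul_pos (hp i) (hp j)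
      simp only [h6, add_zero] at h7 h8
      simp only [Bd] at h4
      simp only [gad, List.forall_mem_cons, cond_true, cond_false, ← hH]
      rw [o1 _ _ (by omega) (by omega), o1 _ _ (by omega) (by omega), o1 _ _ (by omega) (by omega),
        o1 _ _ (by omega) (by omega), o1 _ _ (by omega) (by omega), o1 _ _ (by omega) (by omega),
        o2 _ _ _ (by omega) (by omega) (by omega), o2 _ _ _ (by omega) (by omega) (by omega)]
      simp only [div_pos_iff_of_pos_right (pp _ _), div_lt_iff₀ (pp _ _),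
        div_pos_iff_of_pos_right (mul_pos (pp _ _) (hp _)), div_lt_iff₀ (mul_pos (pp _ _) (hp _))]
      simp only [zero_mul, sub_pos, sub_neg, h9, h4, ori, h7 1 (by omega), h7 2 (by omega),
        h7 3 (by omega), h7 4 (by omega), h7 5 (by omega), h8, add_sub_add_left_eq_sub]
      simpa [ori] using h5
  · rintro ⟨m, b, hm, ht⟩
    rw [← hH] at hm
    have hp : ∀ i < H, 0 < m H - m i := fun i hi => sub_pos.2 (hm i H hi (by omega))
    let X : ℕ → ℝ := fun i => 1 / (m H - m i)
    let Y : ℕ → ℝ := fun i => (b i - b H) / (m H - m i)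
    have hX : ∀ i j, i < j → j < H → X i < X j := fun i j hij hj =>
      one_div_lt_one_div_of_lt (hp j hj) (by linarith [hm i j hij (by omega)])
    have o1 : ∀ i j, i < H → j < H → Y i - Y j = ori m b i j H / ((m H - m i) * (m H - m j)) :=
      fun i j hi hj => by
        have := (hp i hi).ne'
        have := (hp j hj).ne'
        simp only [ori, Y]
        field_simp; ring
    have o2 : ∀ i j l, i < H → j < H → l < H →
        ori X Y i j l = ori m b i j l / ((m H - m i) * (m H - m j) * (m H - m l)) :=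
      fun i j l hi hj hl => by
        have := (hp i hi).ne'
        have := (hp j hj).ne'
        have := (hp l hl).ne'
        simp only [ori, X, Y]
        field_simp; ring
    have p1 : ∀ i j, i < H → j < H → 0 < ori m b i j H → Y j < Y i := fun i j hi hj h0 =>
      sub_pos.1 (o1 i j hi hj ▸ div_pos h0 (mul_pos (hp i hi) (hp j hj)))
    have p2 : ∀ i j, i < H → j < H → ori m b i j H < 0 → Y i < Y j := fun i j hi hj h0 =>
      sub_neg.1 (o1 i j hi hj ▸ div_neg_of_neg_of_pos h0 (mul_pos (hp i hi) (hp j hj)))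
    refine ⟨Y, fun g hg => ?_⟩
    obtain ⟨j, hj, rfl⟩ := List.getElem_of_mem hg
    have h1 := List.forall_mem_flatMap.1 ht (L[j], j) (List.mem_zipIdx_iff_getElem?.2 (by simp))
    have h4 := h _ hg
    simp only [Bd] at h4
    simp only [gad, List.forall_mem_cons, cond_true, cond_false, ← hH] at h1
    obtain ⟨a1, a2, a3, a4, a5, a6, a7, a8, -⟩ := h1
    exact gr_of_points (x := fun r => X (n + 6 * j + r)) (y := fun r => Y (n + 6 * j + r))
      (hX _ _ (by omega) (by omega)) (hX _ _ (by omega) (by omega)) (hX _ _ (by omega) (by omega))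
      (hX _ _ (by omega) (by omega)) (hX _ _ (by omega) (by omega))
      (p1 _ _ (by omega) (by omega) a1) (p2 _ _ (by omega) (by omega) a2)
      (p1 _ _ (by omega) (by omega) a3) (p2 _ _ (by omega) (by omega) a4)
      (p1 _ _ (by omega) (by omega) a5) (p2 _ _ (by omega) (by omega) a6)
      (lt_of_lt_of_eq (div_pos a7 (mul_pos (mul_pos (hp _ (by omega)) (hp _ (by omega)))
        (hp _ (by omega)))) (o2 _ _ _ (by omega) (by omega) (by omega)).symm)
      (lt_of_eq_of_lt (o2 _ _ _ (by omega) (by omega) (by omega)) (div_neg_of_neg_of_pos a8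
        (mul_pos (mul_pos (hp _ (by omega)) (hp _ (by omega))) (hp _ (by omega)))))

@[fun_prop] theorem pt_orderSys {α : Type} [Enc α] {n : α → ℕ} {f : α → List (G6 ℕ)} (hn : PT n)
    (hf : PT f) : PT fun a => orderSys (n a) (f a) := by unfold orderSys gad; fun_prop

end Pool.Agent.Lib.MP_8817b2_lc
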