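import Pool.Agent.Lib.MP_8817b2_lc.Strict

/-! From quadratic equations to strict inequalities between sums of products. -/

namespace Pool.Agent.Lib.MP_8817b2_lc

open Pool.Agent.Lib.MP_ca1301_lc Pool.Agent.Lib.Complexity

def lin (i : ℕ) : Poly := psub (pvar (3 * i)) (pvar (3 * i + 1))

def sb (E : Poly) : Poly := E.flatMap fun a => pmul (pconst a.1)
  (pmul (a.2[0]?.elim (pconst 1) lin) (a.2[1]?.elim (pconst 1) lin))

def sqs (L : List Poly) : Poly := L.flatMap fun E => pmul E E

def cube (P : Poly) : Poly := pmul P (pmul P P)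

/-- The strict system in variables larger than one. -/
def strictSys (n : ℕ) (L : List Poly) : List Poly :=
  (pmul [(6, [3 * (2 * kk (n + sz (sqs L))) + 2])] (sqs (L.map sb)) ++
    sqs ((List.range n).map fun i => cube (lin i)) ++ [(-1, [3 * kk (n + sz (sqs L)) + 2])]) ::
  [(2, []), (-1, [2])] :: (List.range (2 * kk (n + sz (sqs L)))).map fun j =>
    [(1, [3 * j + 2, 3 * j + 2]), (-1, [3 * (j + 1) + 2])]

theorem evalP_sb {n : ℕ} {E : Poly} (h : Good n 2 E) (y : ℕ → ℝ) :
    evalP y (sb E) = evalP (fun i => y (3 * i) - y (3 * i + 1)) E := by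
  induction E with
  | nil => rfl
  | cons a E ih =>
    rw [sb, List.flatMap_cons, evalP_append, ← sb, ih fun b hb => h b (by simp [hb]), evalP_cons]
    have := (h a (by simp)).1
    obtain ⟨c, _ | ⟨i, _ | ⟨j, _ | ⟨k, m⟩⟩⟩⟩ := a
    · simp
    · simp [lin]
    · simp [lin]
    · simp at this

theorem evalP_sqs (L : List Poly) (y : ℕ → ℝ) :
    evalP y (sqs L) = (L.map fun E => evalP y E ^ 2).sum := by
  induction L with
  | nil => rfl
  | cons E L ih => rw [sqs, List.flatMap_cons, evalP_append, ← sqs, ih]; simp [sq]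

theorem nrm_le (P : Poly) : nrm P ≤ 2 ^ sz P := by
  induction P with
  | nil => simp [nrm]
  | cons a P ih =>
    have h1 : |(a.1 : ℝ)| ≤ 2 ^ sz a.1 := by
      have := (natAbs_lt_two_pow_sz a.1).le
      rw [← Int.cast_abs, Int.abs_eq_natAbs]
      exact_mod_cast this
    have h2 : (2 : ℝ) ^ sz a.1 ≤ 2 ^ (sz a + sz P) :=
      pow_le_pow_right₀ one_le_two (by rw [sz_prod a]; omega)
    have h3 : (2 : ℝ) ^ sz P ≤ 2 ^ (sz a + sz P) := pow_le_pow_right₀ one_le_two (by omega)
    rw [nrm_cons, sz_cons, pow_succ]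
    linarith

theorem strictSys_iff {n : ℕ} {L : List Poly} (h : ∀ E ∈ L, Good n 2 E) :
    (∃ y, ∀ E ∈ L, evalP y E = 0) ↔
      ∃ y : ℕ → ℝ, (∀ i, 1 < y i) ∧ ∀ Z ∈ strictSys n L, evalP y Z < 0 := by
  have hg : Good n 4 (sqs L) := fun a ha => by
    obtain ⟨E, hE, ha⟩ := List.mem_flatMap.1 ha
    exact ((h E hE).mul (h E hE)) a ha
  have h0 : ∀ y, ∀ z ∈ L.map fun E => evalP y E ^ 2, 0 ≤ z := fun y z hz => by
    obtain ⟨_, _, rfl⟩ := List.mem_map.1 hz; positivity
  have h1 : (∃ y, ∀ E ∈ L, evalP y E = 0) ↔ ∃ y, evalP y (sqs L) = 0 :=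
    exists_congr fun y => by
      rw [evalP_sqs]
      refine ⟨fun H => List.sum_eq_zero fun z hz => ?_, fun H E hE => ?_⟩
      · obtain ⟨E, hE, rfl⟩ := List.mem_map.1 hz
        simp [H E hE]
      · have := List.single_le_sum (h0 y) _ (List.mem_map.2 ⟨E, hE, rfl⟩)
        exact pow_eq_zero_iff two_ne_zero |>.1 (le_antisymm (H ▸ this) (sq_nonneg _))
  obtain ⟨k, hk⟩ : ∃ k, k = kk (n + sz (sqs L)) := ⟨_, rfl⟩
  have h2 : ∀ y : ℕ → ℝ, (∀ Z ∈ strictSys n L, evalP y Z < 0) ↔
      6 * y (3 * (2 * k) + 2) * evalP (fun i => y (3 * i) - y (3 * i + 1)) (sqs L) +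
        evalP (fun i => y (3 * i) - y (3 * i + 1)) (hP n) < y (3 * k + 2) ∧ 2 < y 2 ∧
        ∀ j < 2 * k, y (3 * j + 2) ^ 2 < y (3 * (j + 1) + 2) := fun y => by
    have e1 : evalP y (sqs (L.map sb)) = evalP (fun i => y (3 * i) - y (3 * i + 1)) (sqs L) := by
      rw [evalP_sqs, evalP_sqs, List.map_map]
      congr 1
      exact List.map_congr_left fun E hE => by simp [evalP_sb (h E hE)]
    have e2 : evalP y (sqs ((List.range n).map fun i => cube (lin i))) =
        evalP (fun i => y (3 * i) - y (3 * i + 1)) (hP n) := by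
      rw [evalP_sqs, hP, evalP, List.map_map, List.map_map]
      congr 1
      exact List.map_congr_left fun i _ => by simp [cube, lin]; ring
    simp only [strictSys, ← hk, List.forall_mem_cons, evalP_append, evalP_pmul, e1, e2,
      List.forall_mem_map, List.mem_range]
    simp [evalP, sq, mul_assoc]
  have h3 : ∀ y : ℕ → ℝ, (∀ i, 1 < y i) → 2 < y 2 →
      (∀ j < 2 * k, y (3 * j + 2) ^ 2 < y (3 * (j + 1) + 2)) →
      ((∃ y, evalP y (sqs L) = 0) ↔ ∃ x, 6 * y (3 * (2 * k) + 2) * evalP x (sqs L) +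
        evalP x (hP n) < y (3 * k + 2)) := fun y y1 y2 y3 => by
    have key : ∀ j i, j + i ≤ 2 * k → y (3 * j + 2) ^ 2 ^ i ≤ y (3 * (j + i) + 2) := by
      intro j i
      induction i with
      | zero => simp
      | succ i ih =>
        intro hi
        rw [pow_succ, pow_mul]
        exact (pow_le_pow_left₀ (pow_nonneg (by linarith [y1 (3 * j + 2)]) _) (ih (by omega)) 2).trans
          (y3 (j + i) (by omega)).le
    refine strictify hg (fun y => by rw [evalP_sqs]; exact List.sum_nonneg (h0 y))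
      (t := n + sz (sqs L)) (by omega)
      ((nrm_le _).trans (pow_le_pow_right₀ one_le_two (by omega))) ?_ ?_
    · rw [← hk]
      exact (pow_le_pow_left₀ zero_le_two y2.le _).trans (by simpa using key 0 k (by omega))
    · rw [← hk, two_mul]
      exact key k k (by omega)
  simp only [h1, h2]
  constructor
  · intro H
    let c : ℕ → ℝ := fun j => Nat.rec 3 (fun _ z => z ^ 2 + 2) j
    have c1 : ∀ j, 1 < c j := fun j => by
      cases j with
      | zero => norm_num [c]
      | succ j => exact (by nlinarith [sq_nonneg (c j)] : 1 < c j ^ 2 + 2)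
    have e : ∀ j, (3 * j + 2) / 3 = j := fun j => by omega
    obtain ⟨x, hx⟩ := (h3 (fun i => c (i / 3)) (fun i => c1 _) (by norm_num [c]) fun j _ => by
      simp only [e]; exact (by linarith : c j ^ 2 < c j ^ 2 + 2)).1 H
    let y : ℕ → ℝ := fun i => if i % 3 = 2 then c (i / 3) else
      if i % 3 = 0 then |x (i / 3)| + x (i / 3) + 2 else |x (i / 3)| + 2
    have e1 : ∀ j, y (3 * j + 2) = c j := fun j => by simp [y, e]
    have e2 : (fun i => y (3 * i) - y (3 * i + 1)) = x := funext fun i => by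
      simp [y, show (3 * i + 1) / 3 = i by omega]
    refine ⟨y, fun i => ?_, by simpa only [e1, e2, e] using hx, by norm_num [y, c], fun j _ => ?_⟩
    · simp only [y]
      split_ifs
      · exact c1 _
      · linarith [neg_abs_le (x (i / 3))]
      · linarith [abs_nonneg (x (i / 3))]
    · rw [e1, e1]; exact (by linarith : c j ^ 2 < c j ^ 2 + 2)
  · rintro ⟨y, y1, y2, y3, y4⟩
    exact (h3 y y1 y3 y4).2 ⟨_, y2⟩

/-- Value of a sum of products of variables. -/
def ev (y : ℕ → ℝ) (L : List (List ℕ)) : ℝ := (L.map fun m => (m.map y).prod).sum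

def posPart (T : ℕ) (Z : Poly) : List (List ℕ) :=
  Z.flatMap fun a => (a.1.toNat.bits.zipIdx 0).flatMap fun e =>
    bif e.1 then [List.replicate e.2 T ++ a.2.map fun i => i + 2] else []

def posSys (L : List Poly) : List (List (List ℕ) × List (List ℕ)) :=
  ([[], []], [[0]]) :: ([[1]], [[], []]) :: L.map fun Z => (posPart 0 Z, posPart 1 (pneg Z))

noncomputable def bv (τ : ℝ) (l : List Bool) (k : ℕ) : ℝ :=
  ((l.zipIdx k).map fun e => bif e.1 then τ ^ e.2 else 0).sum

noncomputable def evT (τ : ℝ) (y : ℕ → ℝ) (Z : Poly) : ℝ :=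
  (Z.map fun a => bv τ a.1.toNat.bits 0 * (a.2.map y).prod).sum

theorem ev_append (y : ℕ → ℝ) (L L' : List (List ℕ)) : ev y (L ++ L') = ev y L + ev y L' := by
  simp [ev]

theorem ev_posPart (y : ℕ → ℝ) (T : ℕ) (Z : Poly) :
    ev y (posPart T Z) = evT (y T) (fun i => y (i + 2)) Z := by
  induction Z with
  | nil => rfl
  | cons a Z ih =>
    rw [posPart, List.flatMap_cons, ev_append, ← posPart, ih, evT, evT, List.map_cons,
      List.sum_cons, bv]
    congr 1
    induction a.1.toNat.bits.zipIdx 0 with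
    | nil => simp [ev]
    | cons e l ih =>
      rw [List.flatMap_cons, ev_append, ih, List.map_cons, List.sum_cons, add_mul]
      cases e.1 <;> simp [ev, Function.comp_def]

theorem bv_two (l : List Bool) (k : ℕ) : bv 2 l k = 2 ^ k * bval l := by
  induction l generalizing k with
  | nil => simp [bv]
  | cons b l ih =>
    rw [bv, List.zipIdx_cons, List.map_cons, List.sum_cons, ← bv, ih]
    cases b <;> simp <;> ring

theorem evT_two (y : ℕ → ℝ) (Z : Poly) : evT 2 y Z - evT 2 y (pneg Z) = evalP y Z := by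
  induction Z with
  | nil => simp [evT, pneg]
  | cons a Z ih =>
    rw [evalP_cons, ← ih]
    have : ((a.1.toNat : ℕ) : ℝ) - ((-a.1).toNat : ℕ) = a.1 := by
      exact_mod_cast Int.toNat_sub_toNat_neg a.1
    simp only [evT, pneg, List.map_cons, List.sum_cons, bv_two, bval_bits, ← this]
    ring

theorem prod_pos' {y : ℕ → ℝ} (hy : ∀ i, 1 < y i) (m : List ℕ) : 0 < (m.map y).prod :=
  List.prod_pos fun z hz => by
    obtain ⟨i, -, rfl⟩ := List.mem_map.1 hz
    linarith [hy i]

theorem evT_mono {τ τ' : ℝ} (h0 : 0 ≤ τ) (h : τ ≤ τ') {y : ℕ → ℝ} (hy : ∀ i, 1 < y i) (Z : Poly) :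
    evT τ y Z ≤ evT τ' y Z :=
  List.sum_le_sum fun a _ => mul_le_mul_of_nonneg_right (List.sum_le_sum fun e _ => by
    cases e.1
    · exact le_rfl
    · exact pow_le_pow_left₀ h0 h _) (prod_pos' hy _).le

theorem continuous_evT (y : ℕ → ℝ) (Z : Poly) : Continuous fun τ => evT τ y Z :=
  continuous_list_sum _ fun _ _ => (continuous_list_sum _ fun e _ => by
    cases e.1
    · exact continuous_const
    · exact continuous_pow _).mul continuous_const

theorem exists_small {α : Type} (L : List α) {f g : α → ℝ → ℝ} (hf : ∀ a, Continuous (f a))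
    (hg : ∀ a, Continuous (g a)) (h : ∀ a ∈ L, f a 0 < g a 0) :
    ∃ θ : ℝ, 0 < θ ∧ θ < 1 ∧ ∀ a ∈ L, f a θ < g a θ := by
  have h1 : ∀ᶠ θ in nhds (0 : ℝ), ∀ a ∈ L, f a θ < g a θ :=
    (Filter.eventually_all_finite (List.finite_toSet L)).2 fun a ha =>
      (hf a).continuousAt.eventually_lt (hg a).continuousAt (h a ha)
  obtain ⟨θ, h2, h3⟩ := ((h1.filter_mono nhdsWithin_le_nhds).and
    (Ioo_mem_nhdsGT zero_lt_one)).exists
  exact ⟨θ, h3.1, h3.2, h2⟩

theorem posSys_iff (L : List Poly) :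
    (∃ y : ℕ → ℝ, (∀ i, 1 < y i) ∧ ∀ Z ∈ L, evalP y Z < 0) ↔
      ∃ y : ℕ → ℝ, (∀ i, 1 < y i) ∧ ∀ p ∈ posSys L, ev y p.1 < ev y p.2 := by
  have e : ∀ y : ℕ → ℝ, (∀ p ∈ posSys L, ev y p.1 < ev y p.2) ↔ 2 < y 0 ∧ y 1 < 2 ∧
      ∀ Z ∈ L, evT (y 0) (fun i => y (i + 2)) Z < evT (y 1) (fun i => y (i + 2)) (pneg Z) :=
    fun y => by
      simp only [posSys, List.forall_mem_cons, List.forall_mem_map, ev_posPart]
      simp [ev, one_add_one_eq_two]
  simp only [e]
  constructor
  · rintro ⟨y, y1, y2⟩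
    obtain ⟨θ, h1, h2, h3⟩ := exists_small L (f := fun Z θ => evT (2 + θ) y Z)
      (g := fun Z θ => evT (2 - θ) y (pneg Z))
      (fun Z => (continuous_evT y Z).comp (by fun_prop))
      (fun Z => (continuous_evT y _).comp (by fun_prop))
      fun Z hZ => by have := y2 Z hZ; rw [← evT_two] at this; simpa using this
    refine ⟨fun i => Nat.casesOn i (2 + θ) fun j => Nat.casesOn j (2 - θ) y, ?_, by simpa,
      by simpa, h3⟩
    rintro (_ | _ | i)
    · exact (by linarith : 1 < 2 + θ)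
    · exact (by linarith : 1 < 2 - θ)
    · exact y1 i
  · rintro ⟨y, y1, y2, y3, y4⟩
    refine ⟨fun i => y (i + 2), fun i => y1 _, fun Z hZ => ?_⟩
    have h1 := evT_mono zero_le_two y2.le (fun i => y1 (i + 2)) Z
    have h2 := evT_mono (by linarith [y1 1]) y3.le (fun i => y1 (i + 2)) (pneg Z)
    rw [← evT_two]
    linarith [y4 Z hZ]

section
variable {α : Type} [Enc α]

@[fun_prop] theorem pt_lin {f : α → ℕ} (hf : PT f) : PT fun a => lin (f a) := by
  unfold lin; fun_prop
@[fun_prop] theorem pt_sb {f : α → Poly} (hf : PT f) : PT fun a => sb (f a) := by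
  unfold sb; fun_prop
@[fun_prop] theorem pt_sqs {f : α → List Poly} (hf : PT f) : PT fun a => sqs (f a) := by
  unfold sqs; fun_prop
@[fun_prop] theorem pt_kk {f : α → ℕ} (hf : PT f) : PT fun a => kk (f a) := by
  unfold kk; fun_prop
@[fun_prop] theorem pt_strictSys {n : α → ℕ} {f : α → List Poly} (hn : PT n) (hf : PT f) :
    PT fun a => strictSys (n a) (f a) := by
  unfold strictSys cube; fun_prop
@[fun_prop] theorem pt_posPart {n : α → ℕ} {f : α → Poly} (hn : PT n) (hf : PT f) :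
    PT fun a => posPart (n a) (f a) := by
  unfold posPart; fun_prop
@[fun_prop] theorem pt_posSys {f : α → List Poly} (hf : PT f) : PT fun a => posSys (f a) := by
  unfold posSys; fun_prop

end

end Pool.Agent.Lib.MP_8817b2_lc
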