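import Pool.Agent.Lib.MP_8817b2_lc.Posy

/-! From sums of products to comparisons of two ratios. -/

namespace Pool.Agent.Lib.MP_8817b2_lc

open Pool.Agent.Lib.Complexity

/-- `a` is below the `ρ`-mean of `o, b` and `c` is above the `ρ'`-mean of `o', d`. -/
def Gr (o a b o' c d : ℝ) : Prop := ∃ ρ ρ' : ℝ, 0 < ρ ∧ ρ < ρ' ∧ ρ' < 1 ∧
  a < (1 - ρ) * o + ρ * b ∧ (1 - ρ') * o' + ρ' * d < c

abbrev G6 (α : Type) : Type := α × α × α × α × α × α

def GH {α : Type} (Y : α → ℝ) (g : G6 α) : Prop :=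
  Gr (Y g.1) (Y g.2.1) (Y g.2.2.1) (Y g.2.2.2.1) (Y g.2.2.2.2.1) (Y g.2.2.2.2.2)

theorem gr_cmp {a b : ℝ} : Gr b a b a b a ↔ a < b :=
  ⟨fun ⟨_, _, _, _, _, h, _⟩ => by linarith,
    fun h => ⟨1 / 3, 2 / 3, by norm_num, by norm_num, by norm_num, by linarith, by linarith⟩⟩

theorem GH.affine {α : Type} {Y : α → ℝ} {g : G6 α} (h : GH Y g) (s : ℝ) {t : ℝ} (ht : 0 < t) :
    GH (fun a => (Y a - s) / t) g := by
  obtain ⟨ρ, ρ', h1, h2, h3, h4, h5⟩ := h
  refine ⟨ρ, ρ', h1, h2, h3, ?_, ?_⟩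
  · rw [← mul_div_assoc, ← mul_div_assoc, ← add_div, div_lt_div_iff_of_pos_right ht]
    linarith
  · rw [← mul_div_assoc, ← mul_div_assoc, ← add_div, div_lt_div_iff_of_pos_right ht]
    linarith

theorem mulU_of {a b u : ℝ} (ha : 1 < a) (hb : 0 < b) (h : a * b < u) : Gr 0 b u 0 1 a := by
  have hu : 0 < u := lt_trans (by positivity) h
  obtain ⟨ρ, h1, h2⟩ := exists_between (show b / u < 1 / a by
    rw [div_lt_div_iff₀ hu (by linarith)]; linarith)
  obtain ⟨ρ', h3, h4⟩ := exists_between h2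
  rw [lt_div_iff₀ (by linarith)] at h4
  have h5 : 0 < ρ := lt_trans (by positivity) h1
  rw [div_lt_iff₀ hu] at h1
  exact ⟨ρ, ρ', h5, h3, by nlinarith, by linarith, by linarith⟩

theorem mulU_le {a b u B : ℝ} (ha : 1 < a) (hB : 0 < B) (hb : B ≤ b) (h : Gr 0 b u 0 1 a) :
    a * B ≤ u := by
  obtain ⟨ρ, ρ', h1, h2, h3, h4, h5⟩ := h
  have hu : 0 < u := by nlinarith
  have h6 : ρ * a < 1 := by nlinarith
  nlinarith [mul_lt_mul_of_pos_left (show B < ρ * u by linarith) (show 0 < a by linarith)]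

theorem mulL_of {a b l : ℝ} (ha : 1 < a) (hl : 0 < l) (h : l < a * b) : Gr 0 1 a 0 b l := by
  obtain ⟨ρ, h1, h2⟩ := exists_between (show 1 / a < min 1 (b / l) by
    rw [lt_min_iff, div_lt_div_iff₀ (by linarith) hl, div_lt_one (by linarith)]
    exact ⟨ha, by linarith⟩)
  obtain ⟨ρ', h3, h4⟩ := exists_between h2
  rw [lt_min_iff, lt_div_iff₀ hl] at h4
  have h5 : 0 < ρ := lt_trans (by positivity) h1
  rw [div_lt_iff₀ (by linarith)] at h1
  exact ⟨ρ, ρ', h5, h3, h4.1, by linarith, by linarith [h4.2]⟩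

theorem mulL_le {a b l B : ℝ} (ha : 1 < a) (hB : 0 < B) (hb : b ≤ B) (h : Gr 0 1 a 0 b l) :
    l ≤ a * B := by
  obtain ⟨ρ, ρ', h1, h2, h3, h4, h5⟩ := h
  by_contra hl
  have h6 : 0 < a * B := by positivity
  have h7 : 1 < ρ' * a := by nlinarith
  nlinarith [mul_lt_mul_of_pos_left (not_le.1 hl) (show 0 < ρ' by linarith)]

theorem addU_of (x y z : ℝ) : ∃ W, 0 < x → 0 < y → x + y < z → Gr W x z W 0 y := by
  refine ⟨-((y + (z - x - y) / 2) * (2 * z / (z - x - y) + 1)), fun hx hy h => ?_⟩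
  obtain ⟨s, rfl⟩ : ∃ s, z = x + y + s := ⟨z - x - y, by ring⟩
  have hs : 0 < s := by linarith
  rw [show x + y + s - x - y = s by ring]
  refine ⟨1 - s / (2 * (x + y + s) + s), 1 - s / (2 * (x + y + s) + s) * (y / (y + s / 2)),
    ?_, ?_, ?_, ?_, ?_⟩
  · rw [sub_pos, div_lt_one (by positivity)]; linarith
  · exact sub_lt_sub_left (mul_lt_of_lt_one_right (by positivity)
      ((div_lt_one (by positivity)).2 (by linarith))) _
  · exact sub_lt_self _ (by positivity)
  · rw [← sub_pos]; field_simp; ring_nf; positivity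
  · rw [← sub_pos]; field_simp; ring_nf; positivity

theorem addU_le {x y z W X Y : ℝ} (hX : 0 < X) (hY : 0 < Y) (hx : X ≤ x) (hy : Y ≤ y)
    (h : Gr W x z W 0 y) : X + Y ≤ z := by
  obtain ⟨ρ, ρ', h1, h2, h3, h4, h5⟩ := h
  have hW : W < 0 := by nlinarith
  by_contra hz
  nlinarith

theorem addL_of (x y z : ℝ) : ∃ T, 0 < x → 0 < y → z < x + y → Gr x z T 0 y T := by
  refine ⟨y + y * x / (min (x + y - z) y / 3), fun hx hy h => ?_⟩
  obtain ⟨s, hs⟩ : ∃ s, s = min (x + y - z) y / 3 := ⟨_, rfl⟩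
  have h0 : 0 < s := by rw [hs]; exact div_pos (lt_min (by linarith) hy) (by norm_num)
  have h1 : 3 * s ≤ x + y - z := by linarith [min_le_left (x + y - z) y]
  have h2 : 3 * s ≤ y := by linarith [min_le_right (x + y - z) y]
  rw [← hs]
  have hT : 0 < y + y * x / s := by positivity
  have h3 : (y - 2 * s) / (y + y * x / s) * x < s := by
    rw [div_mul_eq_mul_div, div_lt_iff₀ hT, mul_add, mul_div_cancel₀ _ h0.ne']
    nlinarith [mul_pos h0 hy, mul_pos h0 hx]
  refine ⟨(y - 2 * s) / (y + y * x / s), (y - s) / (y + y * x / s), div_pos (by linarith) hT,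
    div_lt_div_of_pos_right (by linarith) hT, (div_lt_one hT).2 ?_, ?_, ?_⟩
  · have : 0 < y * x / s := by positivity
    linarith
  · rw [div_mul_cancel₀ _ hT.ne']; linarith
  · rw [div_mul_cancel₀ _ hT.ne']; linarith

theorem addL_le {x y z T X Y : ℝ} (hX : 0 < X) (hY : 0 < Y) (hx : x ≤ X) (hy : y ≤ Y)
    (h : Gr x z T 0 y T) : z ≤ X + Y := by
  obtain ⟨ρ, ρ', h1, h2, h3, h4, h5⟩ := h
  have h6 : (1 - ρ) * x ≤ X := by nlinarith
  rcases le_total T 0 with h | h <;> nlinarith

/-- Names of the auxiliary variables. -/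
abbrev Nm : Type := ℕ × Bool × List (List ℕ)

def cmpG (u : Bool) (a b : Nm) : G6 Nm := bif u then (b, a, b, a, b, a) else (a, b, a, b, a, b)

def prStep (u : Bool) (m : List ℕ) : List (G6 Nm) :=
  List.casesOn (motive := fun _ => List (G6 Nm)) m [cmpG u (1, true, []) (3, u, [[]])] fun i m' =>
    [cmpG true (1, true, []) (2, true, [[i]]), bif u then
      ((0, true, []), (3, u, [m']), (3, u, [m]), (0, true, []), (1, true, []), (2, true, [[i]]))
    else ((0, true, []), (1, true, []), (2, true, [[i]]), (0, true, []), (3, u, [m']), (3, u, [m]))]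

def prAll (u : Bool) (m : List ℕ) : List (G6 Nm) :=
  (List.range (m.length + 1)).flatMap fun k => prStep u (m.drop k)

def smStep (u : Bool) (L : List (List ℕ)) : List (G6 Nm) :=
  List.casesOn (motive := fun _ => List (G6 Nm)) L [cmpG u (1, true, []) (4, u, [])] fun m L' =>
    (bif u then ((5, u, L), (3, u, [m]), (4, u, L), (5, u, L), (0, true, []), (4, u, L'))
    else ((3, u, [m]), (4, u, L), (5, u, L), (0, true, []), (4, u, L'), (5, u, L))) :: prAll u m

def smAll (u : Bool) (L : List (List ℕ)) : List (G6 Nm) :=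
  (List.range (L.length + 1)).flatMap fun k => smStep u (L.drop k)

def ratioSys (I : List (List (List ℕ) × List (List ℕ))) : List (G6 Nm) :=
  cmpG true (0, true, []) (1, true, []) :: I.flatMap fun p =>
    cmpG true (4, true, p.1) (4, false, p.2) :: (smAll true p.1 ++ smAll false p.2)

theorem gh_cmp (Y : Nm → ℝ) (u : Bool) (a b : Nm) :
    GH Y (cmpG u a b) ↔ bif u then Y a < Y b else Y b < Y a := by
  cases u <;> exact gr_cmp

theorem forall_drop {α β : Type} {P : β → Prop} (f : List α → List β) (a : α) (l : List α) :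
    (∀ g ∈ (List.range ((a :: l).length + 1)).flatMap fun k => f ((a :: l).drop k), P g) ↔
      (∀ g ∈ f (a :: l), P g) ∧
        ∀ g ∈ (List.range (l.length + 1)).flatMap fun k => f (l.drop k), P g := by
  rw [List.length_cons, List.range_succ_eq_map, List.flatMap_cons, List.forall_mem_append,
    List.flatMap_map]
  rfl

section
variable {Y : Nm → ℝ} {y : ℕ → ℝ}

theorem pr_sound (h0 : Y (0, true, []) = 0) (h1 : Y (1, true, []) = 1) (hy : ∀ i, 1 < y i)
    (e : ∀ i, 1 < Y (2, true, [[i]]) → Y (2, true, [[i]]) = y i) (u : Bool) (m : List ℕ)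
    (h : ∀ g ∈ prAll u m, GH Y g) :
    bif u then (m.map y).prod ≤ Y (3, u, [m]) else Y (3, u, [m]) ≤ (m.map y).prod := by
  induction m with
  | nil =>
    have := (gh_cmp _ _ _ _).1 (h (cmpG u (1, true, []) (3, u, [[]])) List.mem_cons_self)
    cases u <;> simpa [h1] using this.le
  | cons i m ih =>
    obtain ⟨h2, h3⟩ := (forall_drop (prStep u) i m).1 h
    simp only [prStep, List.forall_mem_cons, gh_cmp, cond_true, h1] at h2
    have h4 := ih h3
    have h5 := h2.2.1
    cases u <;> simp only [cond_true, cond_false, GH, h0, h1, e i h2.1] at h4 h5 ⊢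
    · exact mulL_le (hy i) (prod_pos' hy m) h4 h5
    · exact mulU_le (hy i) (prod_pos' hy m) h4 h5

theorem ev_nonneg (hy : ∀ i, 1 < y i) (L : List (List ℕ)) : 0 ≤ ev y L :=
  List.sum_nonneg fun z hz => by
    obtain ⟨m, -, rfl⟩ := List.mem_map.1 hz
    exact (prod_pos' hy m).le

theorem sm_sound (h0 : Y (0, true, []) = 0) (h1 : Y (1, true, []) = 1) (hy : ∀ i, 1 < y i)
    (e : ∀ i, 1 < Y (2, true, [[i]]) → Y (2, true, [[i]]) = y i) (u : Bool) (L : List (List ℕ))
    (h : ∀ g ∈ smAll u L, GH Y g) :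
    bif u then ev y L + 1 ≤ Y (4, u, L) else Y (4, u, L) ≤ ev y L + 1 := by
  induction L with
  | nil =>
    have := (gh_cmp _ _ _ _).1 (h (cmpG u (1, true, []) (4, u, [])) List.mem_cons_self)
    cases u <;> simpa [h1, ev] using this.le
  | cons m L ih =>
    obtain ⟨h2, h3⟩ := (forall_drop (smStep u) m L).1 h
    simp only [smStep, List.forall_mem_cons] at h2
    have h4 := ih h3
    have h5 := h2.1
    have h6 := pr_sound h0 h1 hy e u m h2.2
    have h7 : 0 < ev y L + 1 := by linarith [ev_nonneg hy L]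
    rw [show ev y (m :: L) + 1 = (m.map y).prod + (ev y L + 1) by simp [ev, add_assoc]]
    cases u <;> simp only [cond_true, cond_false, GH, h0] at h4 h5 h6 ⊢
    · exact addL_le (prod_pos' hy m) h7 h6 h4 h5
    · exact addU_le (prod_pos' hy m) h7 h6 h4 h5

end

/-- Perturbed products and sums. -/
def pv (c : ℝ) (y : ℕ → ℝ) (m : List ℕ) : ℝ := m.foldr (fun i s => c * (y i * s)) c

def sv (c : ℝ) (y : ℕ → ℝ) (L : List (List ℕ)) : ℝ := L.foldr (fun m s => c * (pv c y m + s)) c

theorem pv_pos {c : ℝ} (hc : 0 < c) {y : ℕ → ℝ} (hy : ∀ i, 1 < y i) (m : List ℕ) :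
    0 < pv c y m := by
  induction m with
  | nil => exact hc
  | cons i m ih => exact mul_pos hc (mul_pos (by linarith [hy i]) ih)

theorem sv_pos {c : ℝ} (hc : 0 < c) {y : ℕ → ℝ} (hy : ∀ i, 1 < y i) (L : List (List ℕ)) :
    0 < sv c y L := by
  induction L with
  | nil => exact hc
  | cons m L ih => exact mul_pos hc (add_pos (pv_pos hc hy m) ih)

theorem sv_one (y : ℕ → ℝ) (L : List (List ℕ)) : sv 1 y L = ev y L + 1 := by
  have : ∀ m, pv 1 y m = (m.map y).prod := fun m => by
    induction m with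
    | nil => rfl
    | cons i m ih => simpa [pv] using Or.inl ih
  induction L with
  | nil => simp [sv, ev]
  | cons m L ih =>
    rw [show sv 1 y (m :: L) = 1 * (pv 1 y m + sv 1 y L) from rfl, ih, this]
    simp [ev, add_assoc]

theorem continuous_sv (y : ℕ → ℝ) (L : List (List ℕ)) : Continuous fun c => sv c y L := by
  have : ∀ m, Continuous fun c => pv c y m := fun m => by
    induction m with
    | nil => exact continuous_id
    | cons i m ih => exact continuous_id.mul (continuous_const.mul ih)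
  induction L with
  | nil => exact continuous_id
  | cons m L ih => exact continuous_id.mul ((this m).add ih)

theorem ratioSys_iff (I : List (List (List ℕ) × List (List ℕ))) :
    (∃ y : ℕ → ℝ, (∀ i, 1 < y i) ∧ ∀ p ∈ I, ev y p.1 < ev y p.2) ↔
      ∃ Y : Nm → ℝ, ∀ g ∈ ratioSys I, GH Y g := by
  constructor
  · rintro ⟨y, hy, h⟩
    obtain ⟨θ, h1, h2, h3⟩ := exists_small I (f := fun p θ => sv (1 + θ) y p.1)
      (g := fun p θ => sv (1 - θ) y p.2) (fun p => (continuous_sv y _).comp (by fun_prop))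
      (fun p => (continuous_sv y _).comp (by fun_prop)) fun p hp => by
        simpa [sv_one] using h p hp
    choose W hW using addU_of
    choose T hT using addL_of
    let c : Bool → ℝ := fun u => bif u then 1 + θ else 1 - θ
    have hc : ∀ u, 0 < c u := fun u => by cases u <;> simp [c] <;> linarith
    let Y : Nm → ℝ := fun a => if a.1 = 0 then 0 else if a.1 = 1 then 1 else
      if a.1 = 2 then y ((a.2.2.headD []).headD 0) else
      if a.1 = 3 then pv (c a.2.1) y (a.2.2.headD []) else if a.1 = 4 then sv (c a.2.1) y a.2.2 else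
      (bif a.2.1 then W else T) (pv (c a.2.1) y (a.2.2.headD [])) (sv (c a.2.1) y a.2.2.tail)
        (sv (c a.2.1) y a.2.2)
    have hp : ∀ u m, ∀ g ∈ prAll u m, GH Y g := fun u m => by
      refine List.forall_mem_flatMap.2 fun k _ => ?_
      rcases m.drop k with _ | ⟨i, m⟩
      · refine List.forall_mem_singleton.2 ((gh_cmp _ _ _ _).2 ?_)
        cases u <;> simp [Y, pv, c, h1]
      · have h4 := mul_pos (by linarith [hy i] : 0 < y i) (pv_pos (hc u) hy m)
        simp only [prStep, List.forall_mem_cons, gh_cmp]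
        refine ⟨by simp [Y, hy], ?_, by simp⟩
        cases u
        · exact mulL_of (hy i) (pv_pos (hc _) hy _) (mul_lt_of_lt_one_left h4 (by simpa [c]))
        · exact mulU_of (hy i) (pv_pos (hc _) hy _) (lt_mul_of_one_lt_left h4 (by simpa [c]))
    have hs : ∀ u L, ∀ g ∈ smAll u L, GH Y g := fun u L => by
      refine List.forall_mem_flatMap.2 fun k _ => ?_
      rcases L.drop k with _ | ⟨m, L⟩
      · refine List.forall_mem_singleton.2 ((gh_cmp _ _ _ _).2 ?_)
        cases u <;> simp [Y, sv, c, h1]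
      · have h4 := add_pos (pv_pos (hc u) hy m) (sv_pos (hc u) hy L)
        simp only [smStep, List.forall_mem_cons]
        refine ⟨?_, hp u m⟩
        cases u
        · exact hT _ _ _ (pv_pos (hc _) hy _) (sv_pos (hc _) hy _)
            (mul_lt_of_lt_one_left h4 (by simpa [c]))
        · exact hW _ _ _ (pv_pos (hc _) hy _) (sv_pos (hc _) hy _)
            (lt_mul_of_one_lt_left h4 (by simpa [c]))
    refine ⟨Y, List.forall_mem_cons.2 ⟨by simp [gh_cmp, Y], fun g hg => ?_⟩⟩
    obtain ⟨p, hp', hg⟩ := List.mem_flatMap.1 hg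
    rcases List.mem_cons.1 hg with rfl | hg
    · exact (gh_cmp _ _ _ _).2 (h3 p hp')
    · exact (List.mem_append.1 hg).elim (hs _ _ g) (hs _ _ g)
  · rintro ⟨Y', h'⟩
    have h0 : 0 < Y' (1, true, []) - Y' (0, true, []) :=
      sub_pos.2 ((gh_cmp _ _ _ _).1 (h' _ List.mem_cons_self))
    obtain ⟨Y, h1, h2, h⟩ : ∃ Y : Nm → ℝ, Y (0, true, []) = 0 ∧ Y (1, true, []) = 1 ∧
        ∀ g ∈ ratioSys I, GH Y g :=
      ⟨_, by simp, div_self h0.ne', fun g hg => (h' g hg).affine (Y' (0, true, [])) h0⟩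
    let y : ℕ → ℝ := fun i => if 1 < Y (2, true, [[i]]) then Y (2, true, [[i]]) else 2
    have hy : ∀ i, 1 < y i := fun i => by
      simp only [y]; split_ifs with h
      · exact h
      · norm_num
    have e : ∀ i, 1 < Y (2, true, [[i]]) → Y (2, true, [[i]]) = y i := fun i hi => (if_pos hi).symm
    refine ⟨y, hy, fun p hp => ?_⟩
    have h3 := fun g hg => h g (List.mem_cons_of_mem _ (List.mem_flatMap.2 ⟨p, hp, hg⟩))
    rw [List.forall_mem_cons, List.forall_mem_append, gh_cmp] at h3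
    have h4 := sm_sound h1 h2 hy e _ _ h3.2.1
    have h5 := sm_sound h1 h2 hy e _ _ h3.2.2
    have h6 := h3.1
    simp only [cond_true, cond_false] at h4 h5 h6
    linarith

/-- Position of a name in a list. -/
def idx (l : List Nm) (a : Nm) : ℕ :=
  (((l.zipIdx 0).find? fun e => decide (e.1 = a)).map fun e => e.2).getD 0

theorem idx_spec {l : List Nm} {a : Nm} (h : a ∈ l) :
    idx l a < l.length ∧ l.getD (idx l a) default = a := by
  unfold idx
  rcases h1 : (l.zipIdx 0).find? fun e => decide (e.1 = a) with _ | ⟨e, j⟩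
  · obtain ⟨i, hi, he⟩ := List.getElem_of_mem h
    rw [List.find?_eq_none] at h1
    exact absurd (h1 (a, i) (List.mem_zipIdx_iff_getElem?.2 (by simp [hi, he]))) (by simp)
  · have h2 := List.find?_some h1
    have h3 := List.mem_zipIdx_iff_getElem?.1 (List.mem_of_find?_eq_some h1)
    simp only [decide_eq_true_eq] at h2 h3
    rw [h1]
    exact ⟨(List.getElem?_eq_some_iff.1 h3).1, by simp [List.getD_eq_getElem?_getD, h3, h2]⟩

def names (L : List (G6 Nm)) : List Nm :=
  L.flatMap fun g => [g.1, g.2.1, g.2.2.1, g.2.2.2.1, g.2.2.2.2.1, g.2.2.2.2.2]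

def rename (L : List (G6 Nm)) : List (G6 ℕ) := L.map fun g =>
  (idx (names L) g.1, idx (names L) g.2.1, idx (names L) g.2.2.1, idx (names L) g.2.2.2.1,
    idx (names L) g.2.2.2.2.1, idx (names L) g.2.2.2.2.2)

/-- All six indices are below `n`. -/
def Bd (n : ℕ) (g : G6 ℕ) : Prop :=
  g.1 < n ∧ g.2.1 < n ∧ g.2.2.1 < n ∧ g.2.2.2.1 < n ∧ g.2.2.2.2.1 < n ∧ g.2.2.2.2.2 < n

theorem names_spec {L : List (G6 Nm)} {g : G6 Nm} (hg : g ∈ L) :
    ∀ a ∈ [g.1, g.2.1, g.2.2.1, g.2.2.2.1, g.2.2.2.2.1, g.2.2.2.2.2],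
      idx (names L) a < (names L).length ∧ (names L).getD (idx (names L) a) default = a :=
  fun _ ha => idx_spec (List.mem_flatMap.2 ⟨g, hg, ha⟩)

theorem bd_rename (L : List (G6 Nm)) : ∀ g ∈ rename L, Bd (names L).length g := fun g hg => by
  obtain ⟨g', hg', rfl⟩ := List.mem_map.1 hg
  have := names_spec hg'
  simp only [List.forall_mem_cons] at this
  exact ⟨this.1.1, this.2.1.1, this.2.2.1.1, this.2.2.2.1.1, this.2.2.2.2.1.1, this.2.2.2.2.2.1.1⟩

theorem rename_iff (L : List (G6 Nm)) :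
    (∃ Y : Nm → ℝ, ∀ g ∈ L, GH Y g) ↔ ∃ Y : ℕ → ℝ, ∀ g ∈ rename L, GH Y g := by
  simp only [rename, List.forall_mem_map]
  refine ⟨fun ⟨Y, h⟩ => ⟨fun k => Y ((names L).getD k default), fun g hg => ?_⟩,
    fun ⟨Y, h⟩ => ⟨fun a => Y (idx (names L) a), h⟩⟩
  have := names_spec hg
  simp only [List.forall_mem_cons] at this
  simp only [GH, this]
  exact h g hg

section
variable {α : Type} [Enc α]

@[fun_prop] theorem pt_cmpG {u : α → Bool} {f g : α → Nm} (hu : PT u) (hf : PT f) (hg : PT g) :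
    PT fun a => cmpG (u a) (f a) (g a) := by unfold cmpG; fun_prop
@[fun_prop] theorem pt_prAll {u : α → Bool} {f : α → List ℕ} (hu : PT u) (hf : PT f) :
    PT fun a => prAll (u a) (f a) := by unfold prAll prStep; fun_prop
@[fun_prop] theorem pt_smAll {u : α → Bool} {f : α → List (List ℕ)} (hu : PT u) (hf : PT f) :
    PT fun a => smAll (u a) (f a) := by unfold smAll smStep; fun_prop
@[fun_prop] theorem pt_ratioSys {f : α → List (List (List ℕ) × List (List ℕ))} (hf : PT f) :
    PT fun a => ratioSys (f a) := by unfold ratioSys; fun_prop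
@[fun_prop] theorem pt_idx {l : α → List Nm} {f : α → Nm} (hl : PT l) (hf : PT f) :
    PT fun a => idx (l a) (f a) := by unfold idx; fun_prop
@[fun_prop] theorem pt_names {f : α → List (G6 Nm)} (hf : PT f) : PT fun a => names (f a) := by
  unfold names; fun_prop
@[fun_prop] theorem pt_rename {f : α → List (G6 Nm)} (hf : PT f) : PT fun a => rename (f a) := by
  unfold rename; fun_prop

end

end Pool.Agent.Lib.MP_8817b2_lc
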