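import Pool.Agent.Lib.MP_8817b2_lc.Norm
import Pool.Agent.Lib.MP_ca1301_lc.Main

/-! A nonnegative quartic has a zero iff one strict inequality with huge parameters is solvable. -/

namespace Pool.Agent.Lib.MP_8817b2_lc

open Polynomial hiding ext
open Finset hiding ext
open Pool.Agent.Lib.MP_ca1301_lc Function

/-- Sum of the absolute values of the coefficients. -/
noncomputable def nrm (P : Poly) : ℝ := (P.map fun a => |(a.1 : ℝ)|).sum

theorem nrm_cons (a : ℤ × List ℕ) (P : Poly) : nrm (a :: P) = |(a.1 : ℝ)| + nrm P := by simp [nrm]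
theorem nrm_append (P Q : Poly) : nrm (P ++ Q) = nrm P + nrm Q := by simp [nrm]
theorem nrm_nonneg (P : Poly) : 0 ≤ nrm P :=
  List.sum_nonneg fun x hx => by obtain ⟨a, -, rfl⟩ := List.mem_map.1 hx; exact abs_nonneg _
theorem nrm_mul_one (P : Poly) (m : List ℕ) : nrm (pmul P [(1, m)]) = nrm P := by
  induction P with
  | nil => rfl
  | cons a P ih =>
    rw [pmul, List.flatMap_cons, nrm_append, ← pmul, ih, nrm_cons]
    simp [nrm]

theorem deriv_mono (i : ℕ) (m : List ℕ) : ∃ D : List (List ℕ), D.length ≤ m.length ∧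
    (∀ u ∈ D, u.length + 1 ≤ m.length ∧ ∀ j ∈ u, j ∈ m) ∧ ∀ y : ℕ → ℝ,
      HasDerivAt (fun t => (m.map (update y i t)).prod) (D.map fun u => (u.map y).prod).sum (y i) := by
  induction m with
  | nil => exact ⟨[], le_rfl, by simp, fun y => by simpa using hasDerivAt_const (y i) (1 : ℝ)⟩
  | cons a m ih =>
    obtain ⟨D, h1, h2, h3⟩ := ih
    have e : ∀ y : ℕ → ℝ, ((D.map (a :: ·)).map fun u => (u.map y).prod).sum =
        y a * (D.map fun u => (u.map y).prod).sum := fun y => by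
      simp [Function.comp_def, List.sum_map_mul_left]
    have h4 : ∀ u ∈ D.map (a :: ·), u.length + 1 ≤ (a :: m).length ∧ ∀ j ∈ u, j ∈ a :: m := by
      intro u hu
      obtain ⟨v, hv, rfl⟩ := List.mem_map.1 hu
      exact ⟨by simpa using (h2 v hv).1, fun j hj => (List.mem_cons.1 hj).elim
        (fun h => by simp [h]) fun h => List.mem_cons_of_mem _ ((h2 v hv).2 j h)⟩
    by_cases h : a = i
    · subst h
      refine ⟨m :: D.map (a :: ·), by simpa using h1, List.forall_mem_cons.2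
        ⟨⟨le_rfl, fun j hj => List.mem_cons_of_mem _ hj⟩, h4⟩, fun y => ?_⟩
      rw [List.map_cons, List.sum_cons, e]
      simpa using (hasDerivAt_id' (y a)).fun_mul (h3 y)
    · refine ⟨D.map (a :: ·), by simp; omega, h4, fun y => ?_⟩
      rw [e]
      simpa [update_of_ne h] using (h3 y).const_mul (y a)

theorem deriv_poly {n : ℕ} (i : ℕ) {P : Poly} (hP : Good n 4 P) : ∃ Q : Poly, Good n 3 Q ∧
    nrm Q ≤ 4 * nrm P ∧
    ∀ y : ℕ → ℝ, HasDerivAt (fun t => evalP (update y i t) P) (evalP y Q) (y i) := by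
  induction P with
  | nil => exact ⟨[], by simp [Good], by simp [nrm], fun y => hasDerivAt_const _ _⟩
  | cons a P ih =>
    obtain ⟨Q, h1, h2, h3⟩ := ih fun b hb => hP b (by simp [hb])
    obtain ⟨D, d1, d2, d3⟩ := deriv_mono i a.2
    have ha := hP a (by simp)
    refine ⟨D.map (fun u => (a.1, u)) ++ Q, Good.append (fun b hb => ?_) h1, ?_, fun y => ?_⟩
    · obtain ⟨u, hu, rfl⟩ := List.mem_map.1 hb
      exact ⟨by have := (d2 u hu).1; dsimp only; omega, fun j hj => ha.2 j ((d2 u hu).2 j hj)⟩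
    · rw [nrm_append, nrm_cons, mul_add]
      refine add_le_add ?_ h2
      have : (D.length : ℝ) ≤ 4 := by exact_mod_cast d1.trans ha.1
      simp only [nrm, List.map_map, Function.comp_def, List.map_const', List.sum_replicate,
        nsmul_eq_mul]
      exact mul_le_mul_of_nonneg_right this (abs_nonneg _)
    · simp only [evalP_cons, evalP_append]
      refine HasDerivAt.add ?_ (h3 y)
      simpa [evalP, Function.comp_def, List.sum_map_mul_left] using (d3 y).const_mul (a.1 : ℝ)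

/-- Reduced monomials. -/
noncomputable def mon {n : ℕ} (β : Fin n → Fin 5) (x : ℕ → ℝ) : ℝ := ∏ i : Fin n, x i ^ (β i : ℕ)

/-- `g` is a combination of reduced monomials on the critical set. -/
def Rp (n : ℕ) (Q : ℕ → Poly) (g : ℝ → (ℕ → ℝ) → ℝ) (b : ℝ) : Prop :=
  ∃ r : (Fin n → Fin 5) → ℤ[X], ∑ β, wn (fun a : ℤ => |(a : ℝ)|) 1 (r β) ≤ b ∧
    ∀ t x, (∀ i < n, x i ^ 5 = -t * evalP x (Q i)) →
      g t x = ∑ β, (r β).eval₂ (Int.castRingHom ℝ) t * mon β x

variable {n : ℕ} {Q : ℕ → Poly} {g g' : ℝ → (ℕ → ℝ) → ℝ} {b b' : ℝ}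

theorem Rp.congr (h : Rp n Q g b) (hb : b ≤ b')
    (e : ∀ t x, (∀ i < n, x i ^ 5 = -t * evalP x (Q i)) → g' t x = g t x) : Rp n Q g' b' := by
  obtain ⟨r, h1, h2⟩ := h
  exact ⟨r, h1.trans hb, fun t x hx => (e t x hx).trans (h2 t x hx)⟩

theorem Rp.add (h : Rp n Q g b) (h' : Rp n Q g' b') :
    Rp n Q (fun t x => g t x + g' t x) (b + b') := by
  obtain ⟨r, h1, h2⟩ := h
  obtain ⟨r', h1', h2'⟩ := h'
  refine ⟨fun β => r β + r' β, ?_, fun t x hx => ?_⟩
  · refine (sum_le_sum fun β _ => wn_add isN_abs zero_le_one _ _).trans ?_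
    rw [sum_add_distrib]
    exact add_le_add h1 h1'
  · simp only [h2 t x hx, h2' t x hx, eval₂_add, add_mul, sum_add_distrib]

theorem Rp.mul (h : Rp n Q g b) (c : ℤ) (k : ℕ) :
    Rp n Q (fun t x => c * t ^ k * g t x) (|(c : ℝ)| * b) := by
  obtain ⟨r, h1, h2⟩ := h
  refine ⟨fun β => monomial k c * r β, ?_, fun t x hx => ?_⟩
  · refine (sum_le_sum fun β _ => (isN_abs.wn zero_le_one).mul _ _).trans ?_
    rw [← mul_sum, wn_monomial isN_abs, one_pow, mul_one]
    exact mul_le_mul_of_nonneg_left h1 (abs_nonneg _)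
  · simp only [h2 t x hx, eval₂_mul, eval₂_monomial, mul_sum, eq_intCast, mul_assoc]

theorem rp_poly {k : ℕ}
    (h : ∀ m : List ℕ, m.length ≤ k → (∀ i ∈ m, i < n) → Rp n Q (fun _ x => (m.map x).prod) b)
    {P : Poly} (hP : Good n k P) : Rp n Q (fun _ x => evalP x P) (nrm P * b) := by
  induction P with
  | nil => exact ⟨0, by simp [nrm, wn], by simp⟩
  | cons a P ih =>
    have ha := hP a (by simp)
    refine (((h a.2 ha.1 ha.2).mul a.1 0).add (ih fun b hb => hP b (by simp [hb]))).congr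
      (by rw [nrm_cons, add_mul]) fun t x _ => by simp [evalP_cons]

theorem prod_count {m : List ℕ} (hm : ∀ i ∈ m, i < n) (x : ℕ → ℝ) :
    (m.map x).prod = ∏ i : Fin n, x i ^ m.count (i : ℕ) := by
  rw [Finset.prod_list_map_count, ← prod_range fun i => x i ^ m.count i]
  exact prod_subset (fun i hi => mem_range.2 (hm i (List.mem_toFinset.1 hi))) fun i _ hi => by
    rw [List.count_eq_zero_of_not_mem (by simpa using hi), pow_zero]

theorem rp_mono {C : ℝ} (hC : 1 ≤ C) (hQ : ∀ i < n, Good n 3 (Q i) ∧ nrm (Q i) ≤ C) (k : ℕ) :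
    ∀ m : List ℕ, m.length ≤ k → (∀ i ∈ m, i < n) →
      Rp n Q (fun _ x => (m.map x).prod) (C ^ k) := by
  induction k using Nat.strong_induction_on with
  | _ k ih =>
  intro m hk hm
  by_cases h : ∀ i : Fin n, m.count (i : ℕ) < 5
  · classical
    refine ⟨Pi.single (fun i => ⟨_, h i⟩) 1, ?_, fun t x _ => ?_⟩
    · rw [sum_eq_single (fun i => ⟨_, h i⟩) (fun β _ hβ => by simp [hβ, wn]) (by simp),
        Pi.single_eq_same]
      exact (isN_abs.wn zero_le_one).one.trans (one_le_pow₀ hC)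
    · rw [sum_eq_single (fun i => ⟨_, h i⟩) (fun β _ hβ => by simp [hβ]) (by simp),
        Pi.single_eq_same]
      simp [mon, prod_count hm]
  · obtain ⟨i, hi⟩ := not_forall.1 h
    obtain ⟨m', hp⟩ := (List.replicate_sublist_iff.2 (not_lt.1 hi)).exists_perm_append
    have hl := hp.length_eq
    simp only [List.length_append, List.length_replicate] at hl
    have hg : Good n (k - 1) (pmul (Q i) [(1, m')]) := fun a ha => by
      have := ((hQ i i.2).1.mul (Q := [(1, m')]) (l := m'.length) (by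
        simpa [Good] using fun j hj => hm j (hp.mem_iff.2 (by simp [hj])))) a ha
      exact ⟨by omega, this.2⟩
    refine ((rp_poly (ih (k - 1) (by omega)) hg).mul (-1) 1).congr ?_
      fun t x hx => ?_
    · rw [nrm_mul_one, show k = k - 1 + 1 by omega, pow_succ', Nat.add_sub_cancel]
      simpa using mul_le_mul_of_nonneg_right (hQ i i.2).2 (by positivity)
    · rw [(hp.map x).prod_eq, List.map_append, List.prod_append, List.map_replicate,
        List.prod_replicate, hx i i.2, evalP_pmul]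
      simp [evalP, mul_assoc]

theorem exists_list (α : Fin n → Fin 5) : ∃ m : List ℕ, m.length ≤ 4 * n ∧ (∀ i ∈ m, i < n) ∧
    ∀ x, (m.map x).prod = mon α x := by
  refine ⟨(List.finRange n).flatMap fun i => List.replicate (α i) i, ?_, fun i hi => ?_,
    fun x => ?_⟩
  · rw [List.length_flatMap]
    refine (List.sum_le_card_nsmul _ 4 fun x hx => ?_).trans (by simp [mul_comm])
    obtain ⟨i, -, rfl⟩ := List.mem_map.1 hx
    have := (α i).2
    simp; omega
  · obtain ⟨j, -, hj⟩ := List.mem_flatMap.1 hi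
    rw [List.eq_of_mem_replicate hj]
    exact j.2
  · rw [mon, Fin.prod_univ_def]
    induction List.finRange n with
    | nil => simp
    | cons a l ih => simp [ih]

/-- The sum of sixth powers. -/
def hP (n : ℕ) : Poly := (List.range n).map fun i => (1, List.replicate 6 i)

theorem evalP_hP (x : ℕ → ℝ) (n : ℕ) : evalP x (hP n) = ∑ i ∈ range n, x i ^ 6 := by
  induction n with
  | zero => rfl
  | succ n ih =>
    rw [hP, List.range_succ, List.map_append, evalP_append, ← hP, ih, sum_range_succ]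
    simp [evalP]; ring

theorem good_hP (n : ℕ) : Good n 6 (hP n) := fun a ha => by
  obtain ⟨i, hi, rfl⟩ := List.mem_map.1 ha
  exact ⟨by simp, fun j hj => by rw [List.eq_of_mem_replicate hj]; simpa using hi⟩

theorem key_bound {f : Poly} (hf : Good n 4 f) {C t : ℝ} (hC : 1 ≤ C) (hn : 4 * nrm f ≤ C)
    {x : ℕ → ℝ} (hx : ∀ y, 6 * t * evalP x f + evalP x (hP n) ≤ 6 * t * evalP y f + evalP y (hP n))
    (hφ : (5 ^ n).factorial * (1 + (6 * nrm f + n) * C ^ (4 * n + 6)) ^ 5 ^ n + 1 ≤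
      6 * t * evalP x f + evalP x (hP n))
    (ht : (5 ^ n).factorial * (6 * t * evalP x f + evalP x (hP n) +
      (6 * nrm f + n) * C ^ (4 * n + 6)) ^ 5 ^ n + 1 ≤ t) : False := by
  choose Q h1 h2 h3 using fun i => deriv_poly i hf
  have hr := rp_mono (Q := Q) hC (fun i _ => ⟨h1 i, (h2 i).trans hn⟩) (4 * n + 6)
  have hA : ∀ α : Fin n → Fin 5, Rp n Q
      (fun t x => (6 * t * evalP x f + evalP x (hP n)) * mon α x)
      ((6 * nrm f + n) * C ^ (4 * n + 6)) := fun α => by
    obtain ⟨m, m1, m2, m3⟩ := exists_list α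
    have hm : Good n (4 * n) [(1, m)] := by simpa [Good] using ⟨m1, m2⟩
    have g1 : Good n (4 * n + 6) (pmul f [(1, m)]) := fun a ha =>
      ⟨(hf.mul hm a ha).1.trans (by omega), (hf.mul hm a ha).2⟩
    have g2 : Good n (4 * n + 6) (pmul (hP n) [(1, m)]) := by
      rw [add_comm]; exact (good_hP n).mul hm
    refine (((rp_poly hr g1).mul 6 1).add (rp_poly hr g2)).congr
      (le_of_eq ?_) fun t x _ => ?_
    · rw [nrm_mul_one, nrm_mul_one, show nrm (hP n) = n by simp [nrm, hP, Function.comp_def]]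
      norm_num; ring
    · rw [evalP_pmul, evalP_pmul, show evalP x [(1, m)] = mon α x by simp [evalP, m3]]
      push_cast; ring
  choose A a1 a2 using hA
  have hc : ∀ i < n, x i ^ 5 = -t * evalP x (Q i) := fun i hi => by
    have d1 : HasDerivAt (fun s => evalP (update x i s) (hP n)) (6 * x i ^ 5) (x i) := by
      have e : (fun s => evalP (update x i s) (hP n)) =
          fun s => s ^ 6 + ∑ j ∈ (range n).erase i, x j ^ 6 := funext fun s => by
        rw [evalP_hP, ← add_sum_erase _ _ (mem_range.2 hi), update_self]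
        congr 1
        exact sum_congr rfl fun j hj => by rw [update_of_ne (ne_of_mem_erase hj)]
      rw [e]
      simpa using (hasDerivAt_pow 6 (x i)).add_const (∑ j ∈ (range n).erase i, x j ^ 6)
    have d2 := IsLocalMin.hasDerivAt_eq_zero (Filter.Eventually.of_forall fun s => by
      simpa using hx (update x i s)) (((h3 i x).const_mul (6 * t)).add d1)
    linarith
  refine eigen_bound (Matrix.of A) (H := (6 * nrm f + n) * C ^ (4 * n + 6)) (t := t)
    (fun α β => le_trans (single_le_sum (f := fun β => wn (fun a : ℤ => |(a : ℝ)|) 1 (A α β))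
      (fun _ _ => (isN_abs.wn zero_le_one).nonneg _) (mem_univ β)) (a1 α))
    (v := fun α => mon α x) (fun h => by simpa [mon] using congrFun h 0)
    (fun α => a2 α t x hc) (by simpa using hφ) (by simpa using ht)

theorem continuous_evalP {X : Type} [TopologicalSpace X] {Y : X → ℕ → ℝ}
    (h : ∀ i, Continuous fun s => Y s i) (P : Poly) : Continuous fun s => evalP (Y s) P :=
  continuous_list_sum _ fun _ _ => continuous_const.mul (continuous_list_prod _ fun i _ => h i)

theorem exists_min {G : (ℕ → ℝ) → ℝ} (hG : Continuous G)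
    (hc : ∀ x y, (∀ i < n, x i = y i) → G x = G y) {B : ℝ} {x0 : ℕ → ℝ}
    (h0 : evalP x0 (hP n) ≤ B) :
    ∃ x, evalP x (hP n) ≤ B ∧ ∀ y, evalP y (hP n) ≤ B → G x ≤ G y := by
  have h1 : Continuous fun x : Fin n → ℝ => ext x := continuous_pi fun i => by
    unfold ext; split_ifs <;> fun_prop
  have e : ∀ y : ℕ → ℝ, ∀ i < n, ext (fun j : Fin n => y j) i = y i := fun y i hi => by
    simp [ext, hi]
  have hK : IsCompact {x : Fin n → ℝ | evalP (ext x) (hP n) ≤ B} := by
    refine (isCompact_closedBall (0 : Fin n → ℝ) (B + 1)).of_isClosed_subset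
      (isClosed_le (continuous_evalP (fun i => (continuous_apply i).comp h1) _) continuous_const)
      fun x hx => ?_
    rw [Set.mem_ofPred_eq, evalP_hP] at hx
    have hB : 0 ≤ B := (sum_nonneg fun i _ => by positivity).trans hx
    rw [mem_closedBall_zero_iff, pi_norm_le_iff_of_nonneg (by linarith)]
    intro i
    have h2 := (single_le_sum (f := fun i => ext x i ^ 6) (fun i _ => by positivity)
      (mem_range.2 i.2)).trans hx
    simp only [ext, i.2, dite_true, Fin.eta] at h2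
    by_contra h3
    have h4 : 1 ≤ |x i| := by rw [Real.norm_eq_abs] at h3; linarith
    have h5 : |x i| ≤ |x i| ^ 6 := le_self_pow₀ h4 (by norm_num)
    rw [Even.pow_abs (by decide)] at h5
    rw [Real.norm_eq_abs] at h3; linarith
  obtain ⟨x, hx, hm⟩ := hK.exists_isMinOn ⟨fun j => x0 j, by
    rwa [Set.mem_ofPred_eq, evalP_congr (good_hP n) (e x0)]⟩ (hG.comp h1).continuousOn
  refine ⟨ext x, hx, fun y hy => ?_⟩
  rw [← hc _ _ (e y)]
  exact hm (show evalP (ext fun j : Fin n => y j) (hP n) ≤ B by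
    rwa [evalP_congr (good_hP n) (e y)])

theorem strict_iff {f : Poly} (hf : Good n 4 f) (h0 : ∀ y, 0 ≤ evalP y f) {C B T : ℝ} (hC : 1 ≤ C)
    (hn : 4 * nrm f ≤ C)
    (hB : (5 ^ n).factorial * (1 + (6 * nrm f + n) * C ^ (4 * n + 6)) ^ 5 ^ n + 1 ≤ B)
    (hT : (5 ^ n).factorial * (B + (6 * nrm f + n) * C ^ (4 * n + 6)) ^ 5 ^ n + 1 ≤ T) :
    (∃ y, evalP y f = 0) ↔ ∃ y, 6 * T * evalP y f + evalP y (hP n) < B := by
  have hh : ∀ y, 0 ≤ evalP y (hP n) := fun y => by
    rw [evalP_hP]; exact sum_nonneg fun i _ => by positivity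
  have hH : 0 ≤ (6 * nrm f + n) * C ^ (4 * n + 6) := by have := nrm_nonneg f; positivity
  have hB0 : 0 < B := lt_of_lt_of_le (by positivity) hB
  have hT0 : 0 < T := lt_of_lt_of_le (by positivity) hT
  have hcf : Continuous fun y : ℕ → ℝ => evalP y f := continuous_evalP continuous_apply f
  have hmin : ∀ t, 0 ≤ t → ∃ x, ∀ y,
      6 * t * evalP x f + evalP x (hP n) ≤ 6 * t * evalP y f + evalP y (hP n) := fun t ht => by
    have h1 : ∀ y, evalP y (hP n) ≤ 6 * t * evalP y f + evalP y (hP n) := fun y =>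
      le_add_of_nonneg_left (mul_nonneg (by positivity) (h0 y))
    obtain ⟨x, -, hx⟩ := exists_min (n := n) (G := fun y => 6 * t * evalP y f + evalP y (hP n))
      ((continuous_const.mul hcf).add (continuous_evalP continuous_apply _))
      (fun x y e => by rw [evalP_congr hf e, evalP_congr (good_hP n) e]) (h1 0)
    refine ⟨x, fun y => ?_⟩
    by_cases h : evalP y (hP n) ≤ 6 * t * evalP 0 f + evalP 0 (hP n)
    · exact hx y h
    · exact (hx 0 (h1 0)).trans ((not_le.1 h).le.trans (h1 y))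
  constructor
  · rintro ⟨z, hz⟩
    by_contra h
    simp only [not_exists, not_lt] at h
    obtain ⟨x, hx⟩ := hmin (max T ((5 ^ n).factorial *
      (evalP z (hP n) + (6 * nrm f + n) * C ^ (4 * n + 6)) ^ 5 ^ n + 1)) (le_max_of_le_left hT0.le)
    have h1 := hx z
    rw [hz, mul_zero, zero_add] at h1
    have h2 := (h x).trans (add_le_add_left (mul_le_mul_of_nonneg_right
      (mul_le_mul_of_nonneg_left (le_max_left T ((5 ^ n).factorial *
      (evalP z (hP n) + (6 * nrm f + n) * C ^ (4 * n + 6)) ^ 5 ^ n + 1)) (by norm_num)) (h0 x)) _)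
    refine key_bound hf hC hn hx (hB.trans h2) (le_max_of_le_right ?_)
    have h3 := hB0.le.trans h2
    gcongr
  · rintro ⟨z, hz⟩
    by_contra h
    simp only [not_exists] at h
    obtain ⟨w, -, hw⟩ := exists_min (n := n) hcf (fun x y e => evalP_congr hf e)
      (x0 := z) (B := B) (by nlinarith [h0 z])
    have hw0 : 0 < evalP w f := (h0 w).lt_of_ne' (h w)
    let S : Set ℝ := {t | T ≤ t ∧ ∃ y, 6 * t * evalP y f + evalP y (hP n) < B}
    have hS : T ∈ S := ⟨le_rfl, z, hz⟩
    have hb : BddAbove S := ⟨B / evalP w f, fun t ⟨h1, y, h2⟩ => by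
      have h3 := hw y (by nlinarith [h0 y])
      rw [le_div_iff₀ hw0]
      nlinarith [hh y]⟩
    have hs := le_csSup hb hS
    obtain ⟨x, hx⟩ := hmin (sSup S) (by linarith)
    rcases lt_trichotomy (6 * sSup S * evalP x f + evalP x (hP n)) B with h1 | h1 | h1
    · have h2 : 0 < 6 * evalP x f + 1 := by linarith [h0 x]
      have h3 := div_pos (sub_pos.2 h1) h2
      have h4 := div_mul_cancel₀ (B - (6 * sSup S * evalP x f + evalP x (hP n))) h2.ne'
      have := le_csSup hb (show sSup S + (B - (6 * sSup S * evalP x f + evalP x (hP n))) /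
        (6 * evalP x f + 1) ∈ S from ⟨by linarith, x, by nlinarith⟩)
      linarith
    · exact key_bound hf hC hn hx (h1 ▸ hB) (by rw [h1]; linarith)
    · have h2 := hB0.trans h1
      obtain ⟨t, ht, h3⟩ := exists_lt_of_lt_csSup ⟨T, hS⟩ (show sSup S * B /
        (6 * sSup S * evalP x f + evalP x (hP n)) < sSup S by
          rw [div_lt_iff₀ h2]; exact mul_lt_mul_of_pos_left h1 (by linarith))
      have h4 := le_csSup hb ht
      obtain ⟨h5, y, h6⟩ := ht
      rw [div_lt_iff₀ h2] at h3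
      have h7 := mul_le_mul_of_nonneg_left (hx y) (by linarith : 0 ≤ t)
      have h8 := mul_lt_mul_of_pos_left h6 (by linarith : 0 < sSup S)
      nlinarith [mul_le_mul_of_nonneg_right h4 (hh y)]

/-- Number of repeated squarings. -/
def kk (t : ℕ) : ℕ := 3 * (t + 4 + (t + 2) * (4 * t + 6))

theorem strictify {f : Poly} (hf : Good n 4 f) (h0 : ∀ y, 0 ≤ evalP y f) {t : ℕ} (ht : n ≤ t)
    (hn : nrm f ≤ 2 ^ t) {B T : ℝ} (hB : 2 ^ 2 ^ kk t ≤ B) (hT : B ^ 2 ^ kk t ≤ T) :
    (∃ y, evalP y f = 0) ↔ ∃ y, 6 * T * evalP y f + evalP y (hP n) < B := by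
  obtain ⟨w, hw⟩ : ∃ w, w = t + 4 + (t + 2) * (4 * t + 6) := ⟨_, rfl⟩
  rw [kk, ← hw] at hB hT
  have hf0 := nrm_nonneg f
  have h1 : (n : ℝ) ≤ 2 ^ t := by exact_mod_cast ht.trans Nat.lt_two_pow_self.le
  have h2 : 1 + (6 * nrm f + n) * ((2 : ℝ) ^ (t + 2)) ^ (4 * n + 6) ≤ 2 ^ w := by
    have h3 : ((2 : ℝ) ^ (t + 2)) ^ (4 * n + 6) ≤ 2 ^ ((t + 2) * (4 * t + 6)) := by
      rw [pow_mul]; exact pow_le_pow_right₀ (one_le_pow₀ one_le_two) (by omega)
    have h4 : (1 : ℝ) ≤ 2 ^ ((t + 2) * (4 * t + 6)) := one_le_pow₀ one_le_two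
    have h5 : (1 : ℝ) ≤ 2 ^ t := one_le_pow₀ one_le_two
    have h6 := mul_le_mul (show 6 * nrm f + n ≤ 7 * 2 ^ t by linarith) h3 (by positivity)
      (by positivity)
    rw [hw, pow_add 2 (t + 4), pow_add 2 t 4]
    nlinarith
  have h3 : 5 ^ n ≤ 2 ^ w := calc
    5 ^ n ≤ (2 ^ 3) ^ n := Nat.pow_le_pow_left (by norm_num) _
    _ ≤ 2 ^ w := by rw [← pow_mul]; exact Nat.pow_le_pow_right two_pos (by nlinarith)
  have h4 : ((5 ^ n).factorial : ℝ) ≤ (2 ^ w) ^ 5 ^ n := by
    exact_mod_cast (Nat.factorial_le_pow _).trans (Nat.pow_le_pow_left h3 _)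
  have h5 : 2 * w * 5 ^ n + 1 ≤ 2 ^ (3 * w) := by
    have h6 : 2 * w + 1 ≤ 2 ^ (2 * w) := Nat.lt_two_pow_self
    have h7 : 1 ≤ 5 ^ n := Nat.one_le_pow _ _ (by norm_num)
    rw [show 3 * w = 2 * w + w by ring, pow_add]
    nlinarith [Nat.mul_le_mul h6 h3]
  have hw2 : 2 ≤ w := by omega
  have h6 : (2 : ℝ) ^ w ≤ B :=
    (pow_le_pow_right₀ one_le_two (Nat.lt_two_pow_self.le.trans
      (Nat.pow_le_pow_right two_pos (by omega)))).trans hB
  have h7 : (2 : ℝ) ≤ B := (le_self_pow₀ one_le_two (by omega)).trans h6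
  refine strict_iff hf h0 (C := 2 ^ (t + 2)) (one_le_pow₀ one_le_two)
    (by rw [pow_add]; linarith) (le_trans ?_ hB) (le_trans ?_ hT)
  · have h8 : ((5 ^ n).factorial : ℝ) * (1 + (6 * nrm f + n) * (2 ^ (t + 2)) ^ (4 * n + 6)) ^ 5 ^ n
        ≤ 2 ^ (2 * w * 5 ^ n) := by
      rw [two_mul w, add_mul w, pow_add 2 (w * 5 ^ n), pow_mul 2 w]
      gcongr
    have h9 : (1 : ℝ) ≤ 2 ^ (2 * w * 5 ^ n) := one_le_pow₀ one_le_two
    refine le_trans ?_ (pow_le_pow_right₀ one_le_two h5)
    rw [pow_succ 2 (2 * w * 5 ^ n)]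
    linarith
  · have h8 : ((5 ^ n).factorial : ℝ) * (B + (6 * nrm f + n) * (2 ^ (t + 2)) ^ (4 * n + 6)) ^ 5 ^ n
        ≤ B ^ (3 * 5 ^ n) := by
      rw [pow_mul, show B ^ 3 = B * (B * B) by ring, mul_pow]
      refine mul_le_mul (h4.trans (by gcongr)) (pow_le_pow_left₀ (by positivity) (by nlinarith) _)
        (by positivity) (by positivity)
    have h9 : (1 : ℝ) ≤ B ^ (3 * 5 ^ n) := one_le_pow₀ (by linarith)
    refine le_trans ?_ (pow_le_pow_right₀ (by linarith) (show 3 * 5 ^ n + 1 ≤ 2 ^ (3 * w) by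
      nlinarith [Nat.mul_le_mul_right (5 ^ n) hw2]))
    rw [pow_succ B]
    nlinarith

end Pool.Agent.Lib.MP_8817b2_lc
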